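import Pool.Agent.Q44.HS.Main

/-! The surface is the blow-up of `ℙ¹ × ℙ¹` at two points. -/

set_option autoImplicit false
set_option linter.unusedSimpArgs false

open scoped ComplexConjugate Topology ContDiff Manifold
open OnePoint (infty)
open Pool.Agent.W549.CY (Cn dz dzbar HermitianMetric)
open Pool.Agent.Helper114.Herman (sinv sinvHomeo sinv_zero sinv_infty sinv_coe sinv_sinv
  continuous_sinv pr pr_zero pr_ne)

namespace Pool.Agent.Q44.HS

/-! ### the Riemann sphere -/

theorem chartZero_symm (z : ℂ) : chartZero.symm z = (z : S1) := rfl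

theorem chartZero_target : chartZero.target = Set.univ := by
  unfold chartZero
  simp

theorem chartInfty_apply (x : S1) : chartInfty x = chartZero (sinv x) := rfl

theorem chartInfty_symm (z : ℂ) : chartInfty.symm z = sinv (z : S1) := rfl

theorem chartInfty_target : chartInfty.target = Set.univ := by
  unfold chartInfty
  rw [OpenPartialHomeomorph.trans_target, chartZero_target]
  simp

theorem chartZero_mem : chartZero ∈ atlas ℂ S1 := Set.mem_insert _ _

theorem chartInfty_mem : chartInfty ∈ atlas ℂ S1 := Set.mem_insert_of_mem _ rfl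

theorem contDiffOn_inv' {s : Set ℂ} (hs : ∀ z ∈ s, z ≠ 0) (f : ℂ → ℂ)
    (hf : ∀ z ∈ s, f z = z⁻¹) : ContDiffOn ℂ ω f s := by
  refine ContDiffOn.congr ?_ hf
  exact contDiffOn_id.inv hs

instance : IsManifold 𝓘(ℂ, ℂ) ω S1 := by
  refine isManifold_of_contDiffOn _ _ _ ?_
  intro e e' he he'
  simp only [modelWithCornersSelf_coe, modelWithCornersSelf_coe_symm, Function.id_comp,
    Function.comp_id, Set.preimage_id, Set.range_id, Set.inter_univ, id_eq]
  have key : ∀ e : OpenPartialHomeomorph S1 ℂ, ContDiffOn ℂ ω (e.symm ≫ₕ e) (e.symm ≫ₕ e).source := by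
    intro e
    refine ContDiffOn.congr contDiffOn_id ?_
    intro z hz
    rw [OpenPartialHomeomorph.trans_source] at hz
    rw [OpenPartialHomeomorph.coe_trans, Function.comp_apply]
    exact e.right_inv hz.1
  rcases he with rfl | he
  · rcases he' with rfl | he'
    · exact key _
    · rw [Set.mem_singleton_iff] at he'
      subst he'
      have h0 : ∀ z ∈ (chartZero.symm ≫ₕ chartInfty).source, z ≠ 0 := by
        intro z hz
        rw [OpenPartialHomeomorph.trans_source] at hz
        have h1 := hz.2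
        rw [Set.mem_preimage, mem_chartInfty, chartZero_symm] at h1
        intro h2
        exact h1 (by rw [h2])
      refine contDiffOn_inv' h0 _ fun z hz => ?_
      rw [OpenPartialHomeomorph.coe_trans, Function.comp_apply, chartZero_symm, chartInfty_apply,
        chartZero_sinv (h0 z hz)]
  · rw [Set.mem_singleton_iff] at he
    subst he
    rcases he' with rfl | he'
    · have h0 : ∀ z ∈ (chartInfty.symm ≫ₕ chartZero).source, z ≠ 0 := by
        intro z hz
        rw [OpenPartialHomeomorph.trans_source] at hz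
        have h1 := hz.2
        rw [Set.mem_preimage, mem_chartZero, chartInfty_symm, sinv_ne_infty] at h1
        exact h1
      refine contDiffOn_inv' h0 _ fun z hz => ?_
      rw [OpenPartialHomeomorph.coe_trans, Function.comp_apply, chartInfty_symm,
        chartZero_sinv (h0 z hz)]
    · rw [Set.mem_singleton_iff] at he'
      subst he'
      exact key _

theorem mdiff_coe (z : ℂ) : MDifferentiableAt 𝓘(ℂ, ℂ) 𝓘(ℂ, ℂ) (fun z : ℂ => (z : S1)) z :=
  mdifferentiableAt_atlas_symm chartZero_mem (by rw [chartZero_target]; trivial)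

theorem mdiff_sinv_coe (z : ℂ) :
    MDifferentiableAt 𝓘(ℂ, ℂ) 𝓘(ℂ, ℂ) (fun z : ℂ => sinv (z : S1)) z :=
  mdifferentiableAt_atlas_symm chartInfty_mem (by rw [chartInfty_target]; trivial)

theorem mdiff_coe_comp {f : Cn 2 → ℂ} {w : Cn 2} (hf : DifferentiableAt ℂ f w) :
    MDifferentiableAt 𝓘(ℂ, Cn 2) 𝓘(ℂ, ℂ) (fun z => (f z : S1)) w :=
  MDifferentiableAt.comp (g := fun z : ℂ => (z : S1)) (f := f) w (mdiff_coe (f w))
    (mdifferentiableAt_iff_differentiableAt.2 hf)

theorem mdiff_sinv_coe_comp {f : Cn 2 → ℂ} {w : Cn 2} (hf : DifferentiableAt ℂ f w) :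
    MDifferentiableAt 𝓘(ℂ, Cn 2) 𝓘(ℂ, ℂ) (fun z => sinv (f z : S1)) w :=
  MDifferentiableAt.comp (g := fun z : ℂ => sinv (z : S1)) (f := f) w (mdiff_sinv_coe (f w))
    (mdifferentiableAt_iff_differentiableAt.2 hf)

/-! ### holomorphic functions on the surface -/

theorem mdiff_of_charts {F : Surf → S1}
    (h : ∀ (r : ℕ) (w : Cn 2), r < 6 →
      MDifferentiableAt 𝓘(ℂ, Cn 2) 𝓘(ℂ, ℂ) (fun z => F (T^[r] (io z))) w) :
    MDifferentiable 𝓘(ℂ, Cn 2) 𝓘(ℂ, ℂ) F := by
  intro p
  obtain ⟨k, hk⟩ := exists_chart p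
  obtain ⟨r, hr, hT⟩ := T_cases (-k)
  have h1 : MDifferentiableAt 𝓘(ℂ, Cn 2) 𝓘(ℂ, Cn 2) (E k) p :=
    mdifferentiableAt_atlas (E_mem k) hk
  have h2 := MDifferentiableAt.comp (g := fun z => F (T^[r] (io z))) (f := E k) p (h r (E k p) hr) h1
  refine h2.congr_of_eventuallyEq ?_
  filter_upwards [(E k).open_source.mem_nhds hk] with q hq
  rw [Function.comp_apply, ← hT, ← E_symm, (E k).left_inv hq]

theorem differentiable_coord (i : Fin 2) (w : Cn 2) : DifferentiableAt ℂ (fun z : Cn 2 => z i) w :=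
  differentiableAt_apply i w

theorem differentiable_prod (w : Cn 2) : DifferentiableAt ℂ (fun z : Cn 2 => z 0 * z 1) w :=
  (differentiable_coord 0 w).mul (differentiable_coord 1 w)

theorem mdiff_px : MDifferentiable 𝓘(ℂ, Cn 2) 𝓘(ℂ, ℂ) px := by
  refine mdiff_of_charts fun r w hr => ?_
  interval_cases r
  · exact mdiff_coe_comp (differentiable_coord 1 w)
  · simp only [iter1, px_T, py_T, pz_T, px_io, py_io, pz_io, sinv_sinv]
    exact mdiff_coe_comp (differentiable_prod w)
  · simp only [iter2, px_T, py_T, pz_T, px_io, py_io, pz_io, sinv_sinv]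
    exact mdiff_coe_comp (differentiable_coord 0 w)
  · simp only [iter3, px_T, py_T, pz_T, px_io, py_io, pz_io, sinv_sinv]
    exact mdiff_sinv_coe_comp (differentiable_coord 1 w)
  · simp only [iter4, px_T, py_T, pz_T, px_io, py_io, pz_io, sinv_sinv]
    exact mdiff_sinv_coe_comp (differentiable_prod w)
  · simp only [iter5, px_T, py_T, pz_T, px_io, py_io, pz_io, sinv_sinv]
    exact mdiff_sinv_coe_comp (differentiable_coord 0 w)

theorem mdiff_py : MDifferentiable 𝓘(ℂ, Cn 2) 𝓘(ℂ, ℂ) py := by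
  refine mdiff_of_charts fun r w hr => ?_
  interval_cases r
  · exact mdiff_coe_comp (differentiable_coord 0 w)
  · simp only [iter1, px_T, py_T, pz_T, px_io, py_io, pz_io, sinv_sinv]
    exact mdiff_sinv_coe_comp (differentiable_coord 1 w)
  · simp only [iter2, px_T, py_T, pz_T, px_io, py_io, pz_io, sinv_sinv]
    exact mdiff_sinv_coe_comp (differentiable_prod w)
  · simp only [iter3, px_T, py_T, pz_T, px_io, py_io, pz_io, sinv_sinv]
    exact mdiff_sinv_coe_comp (differentiable_coord 0 w)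
  · simp only [iter4, px_T, py_T, pz_T, px_io, py_io, pz_io, sinv_sinv]
    exact mdiff_coe_comp (differentiable_coord 1 w)
  · simp only [iter5, px_T, py_T, pz_T, px_io, py_io, pz_io, sinv_sinv]
    exact mdiff_coe_comp (differentiable_prod w)

/-- The blow-down map. -/
noncomputable def bd (p : Surf) : S1 × S1 := (px p, py p)

theorem mdiff_bd : MDifferentiable 𝓘(ℂ, Cn 2) (𝓘(ℂ, ℂ).prod 𝓘(ℂ, ℂ)) bd :=
  mdiff_px.prodMk mdiff_py

/-! ### the inverse outside the two points -/

theorem rel_pr (x y : S1) : Rel x y (pr (den x * den y) (num x * num y)) := by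
  unfold Rel
  by_cases h : num x * num y = 0
  · rw [h, pr_zero]
    simp
  · rw [pr_ne h]
    simp only [num_coe, den_coe]
    have h1 := left_ne_zero_of_mul h
    have h2 := right_ne_zero_of_mul h
    field_simp

/-- The inverse of the blow-down map. -/
noncomputable def up (q : S1 × S1) : Surf :=
  mk q.1 q.2 (pr (den q.1 * den q.2) (num q.1 * num q.2)) (rel_pr q.1 q.2)

@[simp] theorem px_up (q : S1 × S1) : px (up q) = q.1 := rfl
@[simp] theorem py_up (q : S1 × S1) : py (up q) = q.2 := rfl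

theorem bd_up (q : S1 × S1) : bd (up q) = q := rfl

/-- the two points -/
def pts : Set (S1 × S1) := {(((0 : ℂ) : S1), infty), (infty, ((0 : ℂ) : S1))}

theorem cases_of_notMem {q : S1 × S1} (h : q ∉ pts) :
    (q.1 ≠ infty ∧ q.2 ≠ infty) ∨ (q.1 ≠ ((0 : ℂ) : S1) ∧ q.2 ≠ ((0 : ℂ) : S1)) := by
  by_contra hcon
  push Not at hcon
  obtain ⟨h1, h2⟩ := hcon
  apply h
  unfold pts
  obtain ⟨a, b⟩ := q
  by_cases ha : a = infty
  · have hb := h2 (by simp [ha])
    simp only at hb
    right
    rw [Set.mem_singleton_iff, ha, hb]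
  · have hb := h1 ha
    simp only at hb
    left
    by_cases ha0 : a = ((0 : ℂ) : S1)
    · rw [ha0, hb]
    · have := h2 ha0
      simp only at this
      rw [hb] at this
      exact absurd this (OnePoint.infty_ne_coe 0)

theorem eq_of_ne_infty {p q : Surf} (h1 : px p = px q) (h2 : py p = py q) (hx : px p ≠ infty)
    (hy : py p ≠ infty) : p = q := by
  rw [eq_io hx hy, h1, h2]
  rw [h1] at hx
  rw [h2] at hy
  exact (eq_io hx hy).symm

theorem sinv_ne_infty' {x : S1} : sinv x ≠ infty ↔ x ≠ ((0 : ℂ) : S1) := by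
  rw [← sinv_zero]
  constructor
  · intro h h'
    exact h (by rw [h'])
  · intro h h'
    exact h (by rw [← sinv_sinv x, h', sinv_sinv])

theorem up_bd {p : Surf} (h : bd p ∉ pts) : up (bd p) = p := by
  rcases cases_of_notMem h with h1 | h1
  · exact eq_of_ne_infty rfl rfl h1.1 h1.2
  · have h2 : T^[3] (up (bd p)) = T^[3] p := by
      refine eq_of_ne_infty ?_ ?_ ?_ ?_
      · simp [iter3, sinv_sinv, bd]
      · simp [iter3, sinv_sinv, bd]
      · simp only [iter3, px_T, py_T, pz_T, sinv_sinv, px_up]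
        exact sinv_ne_infty'.2 h1.1
      · simp only [iter3, px_T, py_T, pz_T, sinv_sinv, py_up]
        exact sinv_ne_infty'.2 h1.2
    exact (T.injective.iterate 3) h2

theorem mdiff_vec {f g : S1 × S1 → ℂ} {q : S1 × S1}
    (hf : MDifferentiableAt (𝓘(ℂ, ℂ).prod 𝓘(ℂ, ℂ)) 𝓘(ℂ, ℂ) f q)
    (hg : MDifferentiableAt (𝓘(ℂ, ℂ).prod 𝓘(ℂ, ℂ)) 𝓘(ℂ, ℂ) g q) :
    MDifferentiableAt (𝓘(ℂ, ℂ).prod 𝓘(ℂ, ℂ)) 𝓘(ℂ, Cn 2) (fun q => (![f q, g q] : Cn 2)) q := by
  have h1 := hf.prodMk_space hg
  have h2 : DifferentiableAt ℂ (fun p : ℂ × ℂ => (![p.1, p.2] : Cn 2)) (f q, g q) := by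
    rw [differentiableAt_pi]
    intro i
    fin_cases i
    · exact differentiableAt_fst
    · exact differentiableAt_snd
  exact MDifferentiableAt.comp (g := fun p : ℂ × ℂ => (![p.1, p.2] : Cn 2))
    (f := fun q => (f q, g q)) q (mdifferentiableAt_iff_differentiableAt.2 h2) h1

theorem mdiff_up {q : S1 × S1} (h : q ∉ pts) :
    MDifferentiableAt (𝓘(ℂ, ℂ).prod 𝓘(ℂ, ℂ)) 𝓘(ℂ, Cn 2) up q := by
  rcases cases_of_notMem h with h1 | h1
  · have a1 : MDifferentiableAt 𝓘(ℂ, ℂ) 𝓘(ℂ, ℂ) chartZero q.1 :=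
      mdifferentiableAt_atlas chartZero_mem ((mem_chartZero _).2 h1.1)
    have a2 : MDifferentiableAt 𝓘(ℂ, ℂ) 𝓘(ℂ, ℂ) chartZero q.2 :=
      mdifferentiableAt_atlas chartZero_mem ((mem_chartZero _).2 h1.2)
    have b1 := MDifferentiableAt.comp (g := chartZero) (f := Prod.fst) q a1
      (mdifferentiableAt_fst (I := 𝓘(ℂ, ℂ)) (I' := 𝓘(ℂ, ℂ)))
    have b2 := MDifferentiableAt.comp (g := chartZero) (f := Prod.snd) q a2
      (mdifferentiableAt_snd (I := 𝓘(ℂ, ℂ)) (I' := 𝓘(ℂ, ℂ)))
    have b3 := mdiff_vec b2 b1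
    have b4 : MDifferentiableAt 𝓘(ℂ, Cn 2) 𝓘(ℂ, Cn 2) (E 0).symm
        ((fun q : S1 × S1 => (![(chartZero ∘ Prod.snd) q, (chartZero ∘ Prod.fst) q] : Cn 2)) q) :=
      mdifferentiableAt_atlas_symm (E_mem 0) (by rw [E_target]; trivial)
    have b5 := MDifferentiableAt.comp q b4 b3
    refine b5.congr_of_eventuallyEq ?_
    have o1 : ∀ᶠ q' : S1 × S1 in 𝓝 q, q'.1 ≠ infty :=
      continuous_fst.continuousAt.eventually_ne h1.1
    have o2 : ∀ᶠ q' : S1 × S1 in 𝓝 q, q'.2 ≠ infty :=
      continuous_snd.continuousAt.eventually_ne h1.2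
    filter_upwards [o1, o2] with q' hq1 hq2
    rw [Function.comp_apply, E_symm, neg_zero, zpow_zero, Homeomorph.one_apply]
    exact eq_io (p := up q') hq1 hq2
  · have a1 : MDifferentiableAt 𝓘(ℂ, ℂ) 𝓘(ℂ, ℂ) chartInfty q.1 :=
      mdifferentiableAt_atlas chartInfty_mem ((mem_chartInfty _).2 h1.1)
    have a2 : MDifferentiableAt 𝓘(ℂ, ℂ) 𝓘(ℂ, ℂ) chartInfty q.2 :=
      mdifferentiableAt_atlas chartInfty_mem ((mem_chartInfty _).2 h1.2)
    have b1 := MDifferentiableAt.comp (g := chartInfty) (f := Prod.fst) q a1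
      (mdifferentiableAt_fst (I := 𝓘(ℂ, ℂ)) (I' := 𝓘(ℂ, ℂ)))
    have b2 := MDifferentiableAt.comp (g := chartInfty) (f := Prod.snd) q a2
      (mdifferentiableAt_snd (I := 𝓘(ℂ, ℂ)) (I' := 𝓘(ℂ, ℂ)))
    have b3 := mdiff_vec b2 b1
    have b4 : MDifferentiableAt 𝓘(ℂ, Cn 2) 𝓘(ℂ, Cn 2) (E 3).symm
        ((fun q : S1 × S1 => (![(chartInfty ∘ Prod.snd) q, (chartInfty ∘ Prod.fst) q] : Cn 2)) q) :=
      mdifferentiableAt_atlas_symm (E_mem 3) (by rw [E_target]; trivial)
    have b5 := MDifferentiableAt.comp q b4 b3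
    refine b5.congr_of_eventuallyEq ?_
    have o1 : ∀ᶠ q' : S1 × S1 in 𝓝 q, q'.1 ≠ ((0 : ℂ) : S1) :=
      continuous_fst.continuousAt.eventually_ne h1.1
    have o2 : ∀ᶠ q' : S1 × S1 in 𝓝 q, q'.2 ≠ ((0 : ℂ) : S1) :=
      continuous_snd.continuousAt.eventually_ne h1.2
    filter_upwards [o1, o2] with q' hq1 hq2
    rw [Function.comp_apply]
    refine eq_symm ?_
    have h3 : (T ^ (3 : ℤ)) (up q') = T^[3] (up q') := T_zpow_nat 3 _
    have hx : px (T^[3] (up q')) = sinv q'.1 := by simp [iter3, sinv_sinv]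
    have hy : py (T^[3] (up q')) = sinv q'.2 := by simp [iter3, sinv_sinv]
    rw [h3]
    have h4 := eq_io (p := T^[3] (up q')) (by rw [hx]; exact sinv_ne_infty'.2 hq1)
      (by rw [hy]; exact sinv_ne_infty'.2 hq2)
    rw [hx, hy] at h4
    exact h4

/-! ### the centers -/

theorem Rel.ne_zero {x y z : S1} (h : Rel x y z) (hx : x ≠ infty) (hy : y ≠ infty) :
    z ≠ ((0 : ℂ) : S1) := by
  intro hz
  unfold Rel at h
  rw [hz, num_coe, den_coe, mul_zero, mul_one] at h
  have := mul_ne_zero (fun h => hx (den_eq_zero.1 h)) (fun h => hy (den_eq_zero.1 h))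
  exact this h.symm

theorem Rel.ne_infty {x y z : S1} (h : Rel x y z) (hx : x ≠ ((0 : ℂ) : S1))
    (hy : y ≠ ((0 : ℂ) : S1)) : z ≠ infty := by
  intro hz
  unfold Rel at h
  rw [hz, num_infty, den_infty, mul_zero, mul_one] at h
  have := mul_ne_zero (fun h => hx (num_eq_zero.1 h)) (fun h => hy (num_eq_zero.1 h))
  exact this h

theorem mem_E1 (p : Surf) : p ∈ (E 1).source ↔ pz p ≠ ((0 : ℂ) : S1) ∧ px p ≠ ((0 : ℂ) : S1) := by
  rw [mem_E, show (1 : ℤ) = ((1 : ℕ) : ℤ) by norm_num, T_zpow_nat, mem_E0]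
  simp only [iter1, px_T, py_T, sinv_ne_infty']

theorem mem_E2 (p : Surf) : p ∈ (E 2).source ↔ py p ≠ infty ∧ pz p ≠ infty := by
  rw [mem_E, show (2 : ℤ) = ((2 : ℕ) : ℤ) by norm_num, T_zpow_nat, mem_E0]
  simp only [iter2, px_T, py_T, pz_T, sinv_sinv]

theorem mem_E4 (p : Surf) : p ∈ (E 4).source ↔ pz p ≠ infty ∧ px p ≠ infty := by
  rw [mem_E, show (4 : ℤ) = ((4 : ℕ) : ℤ) by norm_num, T_zpow_nat, mem_E0]
  simp only [iter4, px_T, py_T, pz_T, sinv_sinv]

theorem mem_E5 (p : Surf) : p ∈ (E 5).source ↔ py p ≠ ((0 : ℂ) : S1) ∧ pz p ≠ ((0 : ℂ) : S1) := by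
  rw [mem_E, show (5 : ℤ) = ((5 : ℕ) : ℤ) by norm_num, T_zpow_nat, mem_E0]
  simp only [iter5, px_T, py_T, pz_T, sinv_sinv, sinv_ne_infty']

theorem E1_apply (p : Surf) : E 1 p = ![chartZero (sinv (px p)), chartZero (sinv (pz p))] := by
  rw [E_apply, show (1 : ℤ) = ((1 : ℕ) : ℤ) by norm_num, T_zpow_nat, E0_apply]
  simp only [iter1, px_T, py_T]

theorem E2_apply (p : Surf) : E 2 p = ![chartZero (pz p), chartZero (py p)] := by
  rw [E_apply, show (2 : ℤ) = ((2 : ℕ) : ℤ) by norm_num, T_zpow_nat, E0_apply]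
  simp only [iter2, px_T, py_T, pz_T, sinv_sinv]

theorem E4_apply (p : Surf) : E 4 p = ![chartZero (px p), chartZero (pz p)] := by
  rw [E_apply, show (4 : ℤ) = ((4 : ℕ) : ℤ) by norm_num, T_zpow_nat, E0_apply]
  simp only [iter4, px_T, py_T, pz_T, sinv_sinv]

theorem E5_apply (p : Surf) : E 5 p = ![chartZero (sinv (pz p)), chartZero (sinv (py p))] := by
  rw [E_apply, show (5 : ℤ) = ((5 : ℕ) : ℤ) by norm_num, T_zpow_nat, E0_apply]
  simp only [iter5, px_T, py_T, pz_T, sinv_sinv]

theorem T_neg (k : ℤ) (r : ℕ) (h : (k + r) % 6 = 0) (p : Surf) : (T ^ (-k)) p = T^[r] p := by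
  rw [← T_zpow_nat, T_zpow_mod (-k), T_zpow_mod (r : ℤ)]
  congr 2
  omega

theorem eq_E_symm {k : ℤ} {p : Surf} (hp : p ∈ (E k).source) (r : ℕ) (h : (k + r) % 6 = 0) :
    p = T^[r] (io (E k p)) := by
  rw [← T_neg k r h, ← E_symm, (E k).left_inv hp]

theorem chart_mul {z : S1} (h0 : z ≠ ((0 : ℂ) : S1)) (h1 : z ≠ infty) :
    chartZero z * chartZero (sinv z) = 1 := by
  obtain ⟨c, rfl⟩ := OnePoint.ne_infty_iff_exists.1 h1
  have hc : c ≠ 0 := fun h => h0 (by rw [h])
  rw [chartZero_coe, chartZero_sinv hc, mul_inv_cancel₀ hc]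

theorem chartZero_ne_zero {z : S1} (h1 : z ≠ infty) : chartZero z ≠ 0 ↔ z ≠ ((0 : ℂ) : S1) := by
  obtain ⟨c, rfl⟩ := OnePoint.ne_infty_iff_exists.1 h1
  rw [chartZero_coe, ne_eq, ne_eq, OnePoint.coe_eq_coe]

theorem prod_mem {e e' : OpenPartialHomeomorph S1 ℂ} (he : e ∈ atlas ℂ S1) (he' : e' ∈ atlas ℂ S1) :
    e.prod e' ∈ IsManifold.maximalAtlas (𝓘(ℂ, ℂ).prod 𝓘(ℂ, ℂ)) ω (S1 × S1) :=
  IsManifold.subset_maximalAtlas ⟨e, he, e', he', rfl⟩

theorem isBlowUp_bd : IsBlowUp bd pts where
  finite := by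
    unfold pts
    exact (Set.finite_singleton _).insert _
  holomorphic := mdiff_bd
  outside := ⟨up, fun q hq => (mdiff_up hq).mdifferentiableWithinAt, fun q _ => bd_up q,
    fun p hp => up_bd hp⟩
  centers := by
    intro p hp
    rcases hp with rfl | hp
    · refine ⟨chartZero.prod chartInfty, prod_mem chartZero_mem chartInfty_mem, E 4,
        IsManifold.subset_maximalAtlas (E_mem 4), E 5, IsManifold.subset_maximalAtlas (E_mem 5),
        ?_, ?_, ?_, ?_, ?_, ?_, ?_, ?_, ?_, ?_⟩
      · exact ⟨(mem_chartZero _).2 (OnePoint.coe_ne_infty _),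
          (mem_chartInfty _).2 (OnePoint.infty_ne_coe _)⟩
      · rw [OpenPartialHomeomorph.prod_apply]
        simp only [chartZero_coe, chartInfty_apply, sinv_infty]
      · ext x
        rw [Set.mem_union, mem_E4, mem_E5, Set.mem_preimage, OpenPartialHomeomorph.prod_source,
          Set.mem_prod, mem_chartZero, mem_chartInfty]
        constructor
        · rintro ⟨h1, h2⟩
          by_cases hz : pz x = infty
          · exact Or.inr ⟨h2, by rw [hz]; exact OnePoint.infty_ne_coe _⟩
          · exact Or.inl ⟨hz, h1⟩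
        · rintro (⟨h1, h2⟩ | ⟨h1, h2⟩)
          · exact ⟨h2, (rel x).rot.ne_zero h1 h2⟩
          · exact ⟨(rel x).rot.rot.ne_infty h1 h2, h1⟩
      · rw [E_target, OpenPartialHomeomorph.prod_target, chartZero_target, chartInfty_target]
        simp
      · rw [E_target, OpenPartialHomeomorph.prod_target, chartZero_target, chartInfty_target]
        simp
      · intro x hx
        have h := eq_E_symm hx 2 (by norm_num)
        have hpx : px x = ((E 4 x 0 : ℂ) : S1) := by
          conv_lhs => rw [h]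
          simp only [iter2, px_T, py_T, pz_T, px_io, py_io, pz_io, sinv_sinv]
        have hpy : py x = sinv ((E 4 x 0 * E 4 x 1 : ℂ) : S1) := by
          conv_lhs => rw [h]
          simp only [iter2, px_T, py_T, pz_T, px_io, py_io, pz_io, sinv_sinv]
        rw [OpenPartialHomeomorph.prod_apply]
        simp only [bd]
        rw [hpx, hpy, chartZero_coe, chartInfty_apply, sinv_sinv, chartZero_coe]
      · intro x hx
        have h := eq_E_symm hx 1 (by norm_num)
        have hpx : px x = ((E 5 x 0 * E 5 x 1 : ℂ) : S1) := by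
          conv_lhs => rw [h]
          simp only [iter1, px_T, py_T, pz_T, px_io, py_io, pz_io, sinv_sinv]
        have hpy : py x = sinv ((E 5 x 1 : ℂ) : S1) := by
          conv_lhs => rw [h]
          simp only [iter1, px_T, py_T, pz_T, px_io, py_io, pz_io, sinv_sinv]
        rw [OpenPartialHomeomorph.prod_apply]
        simp only [bd]
        rw [hpx, hpy, chartZero_coe, chartInfty_apply, sinv_sinv, chartZero_coe]
      · intro x hx
        rw [mem_E4] at hx
        rw [mem_E5, E4_apply]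
        simp only [Matrix.cons_val_one, Matrix.cons_val_fin_one]
        rw [chartZero_ne_zero hx.1]
        exact ⟨fun h => h.2, fun h => ⟨(rel x).rot.ne_zero hx.1 hx.2, h⟩⟩
      · intro x hx
        rw [mem_E5] at hx
        rw [mem_E4, E5_apply]
        simp only [Matrix.cons_val_zero]
        rw [chartZero_ne_zero (sinv_ne_infty'.2 hx.2)]
        have e1 : sinv (pz x) ≠ ((0 : ℂ) : S1) ↔ pz x ≠ infty := by
          rw [← sinv_infty]
          constructor
          · intro h h'
            exact h (by rw [h'])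
          · intro h h'
            exact h (by rw [← sinv_sinv (pz x), h', sinv_sinv])
        rw [e1]
        exact ⟨fun h => h.1, fun h => ⟨h, (rel x).rot.rot.ne_infty hx.1 hx.2⟩⟩
      · rintro x ⟨hx, hx'⟩
        rw [mem_E4] at hx
        rw [mem_E5] at hx'
        rw [E4_apply, E5_apply]
        simp only [Matrix.cons_val_zero, Matrix.cons_val_one, Matrix.cons_val_fin_one]
        exact chart_mul hx'.2 hx.1
    · rw [Set.mem_singleton_iff] at hp
      subst hp
      refine ⟨chartInfty.prod chartZero, prod_mem chartInfty_mem chartZero_mem, E 1,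
        IsManifold.subset_maximalAtlas (E_mem 1), E 2, IsManifold.subset_maximalAtlas (E_mem 2),
        ?_, ?_, ?_, ?_, ?_, ?_, ?_, ?_, ?_, ?_⟩
      · exact ⟨(mem_chartInfty _).2 (OnePoint.infty_ne_coe _),
          (mem_chartZero _).2 (OnePoint.coe_ne_infty _)⟩
      · rw [OpenPartialHomeomorph.prod_apply]
        simp only [chartZero_coe, chartInfty_apply, sinv_infty]
      · ext x
        rw [Set.mem_union, mem_E1, mem_E2, Set.mem_preimage, OpenPartialHomeomorph.prod_source,
          Set.mem_prod, mem_chartZero, mem_chartInfty]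
        constructor
        · rintro ⟨h1, h2⟩
          by_cases hz : pz x = infty
          · exact Or.inl ⟨by rw [hz]; exact OnePoint.infty_ne_coe _, h1⟩
          · exact Or.inr ⟨h2, hz⟩
        · rintro (⟨h1, h2⟩ | ⟨h1, h2⟩)
          · exact ⟨h2, (rel x).rot.ne_infty h1 h2⟩
          · exact ⟨(rel x).rot.rot.ne_zero h1 h2, h1⟩
      · rw [E_target, OpenPartialHomeomorph.prod_target, chartZero_target, chartInfty_target]
        simp
      · rw [E_target, OpenPartialHomeomorph.prod_target, chartZero_target, chartInfty_target]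
        simp
      · intro x hx
        have h := eq_E_symm hx 5 (by norm_num)
        have hpx : px x = sinv ((E 1 x 0 : ℂ) : S1) := by
          conv_lhs => rw [h]
          simp only [iter5, px_T, py_T, pz_T, px_io, py_io, pz_io, sinv_sinv]
        have hpy : py x = ((E 1 x 0 * E 1 x 1 : ℂ) : S1) := by
          conv_lhs => rw [h]
          simp only [iter5, px_T, py_T, pz_T, px_io, py_io, pz_io, sinv_sinv]
        rw [OpenPartialHomeomorph.prod_apply]
        simp only [bd]
        rw [hpx, hpy, chartZero_coe, chartInfty_apply, sinv_sinv, chartZero_coe]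
      · intro x hx
        have h := eq_E_symm hx 4 (by norm_num)
        have hpx : px x = sinv ((E 2 x 0 * E 2 x 1 : ℂ) : S1) := by
          conv_lhs => rw [h]
          simp only [iter4, px_T, py_T, pz_T, px_io, py_io, pz_io, sinv_sinv]
        have hpy : py x = ((E 2 x 1 : ℂ) : S1) := by
          conv_lhs => rw [h]
          simp only [iter4, px_T, py_T, pz_T, px_io, py_io, pz_io, sinv_sinv]
        rw [OpenPartialHomeomorph.prod_apply]
        simp only [bd]
        rw [hpx, hpy, chartZero_coe, chartInfty_apply, sinv_sinv, chartZero_coe]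
      · intro x hx
        rw [mem_E1] at hx
        rw [mem_E2, E1_apply]
        simp only [Matrix.cons_val_one, Matrix.cons_val_fin_one]
        rw [chartZero_ne_zero (sinv_ne_infty'.2 hx.1)]
        have e1 : sinv (pz x) ≠ ((0 : ℂ) : S1) ↔ pz x ≠ infty := by
          rw [← sinv_infty]
          constructor
          · intro h h'
            exact h (by rw [h'])
          · intro h h'
            exact h (by rw [← sinv_sinv (pz x), h', sinv_sinv])
        rw [e1]
        exact ⟨fun h => h.2, fun h => ⟨(rel x).rot.ne_infty hx.1 hx.2, h⟩⟩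
      · intro x hx
        rw [mem_E2] at hx
        rw [mem_E1, E2_apply]
        simp only [Matrix.cons_val_zero]
        rw [chartZero_ne_zero hx.2]
        exact ⟨fun h => h.1, fun h => ⟨h, (rel x).rot.rot.ne_zero hx.1 hx.2⟩⟩
      · rintro x ⟨hx, hx'⟩
        rw [mem_E1] at hx
        rw [mem_E2] at hx'
        rw [E1_apply, E2_apply]
        simp only [Matrix.cons_val_zero, Matrix.cons_val_one, Matrix.cons_val_fin_one]
        rw [mul_comm]
        exact chart_mul hx.1 hx'.2

end Pool.Agent.Q44.HS
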