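import Pool.Agent.Q44.HS.Poly

/-! The certificate. -/

set_option autoImplicit false
set_option maxRecDepth 100000

namespace Pool.Agent.Q44.HS

/-- The form `a A² + b A m + d m² + c A B + e m B + f B²` is positive definite. -/
def posd (a b d c e f : ℤ) : Bool :=
  decide (0 < a) && (decide (b * b < 4 * (a * d)) &&
    decide (a * (e * e) + (d * (c * c) + f * (b * b)) < 4 * (a * (d * f)) + b * (c * e)))

/-- the base -/
def bigM : ℕ := 2 ^ 128

/-- half of the base -/
def bigB : ℕ := 2 ^ 127

/-- the number with all digits equal to `bigB` -/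
def off : ℕ := bigB * ((bigM ^ 2401 - 1) / (bigM - 1))

/-- The value of the polynomial at a large integer, shifted so that all digits are nonnegative. -/
def nv (k : ℕ) : ℕ := (Ex.val bigM (bigM ^ 49) (ce k) + off).toNat

/-- the last digit, shifted back -/
def dg (n : ℕ) : ℤ := (n % bigM : ℕ) - (bigB : ℤ)

/-- the test of all the digits -/
def loop : ℕ → ℕ → ℕ → ℕ → ℕ → ℕ → ℕ → ℕ → Bool
  | 0, _, _, _, _, _, _, _ => true
  | n + 1, a, b, d, c, e, f, l =>
    posd (dg a) (dg b) (dg d) (dg c) (dg e) (dg f) && (decide (0 ≤ dg l) &&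
      loop n (a / bigM) (b / bigM) (d / bigM) (c / bigM) (e / bigM) (f / bigM) (l / bigM))

theorem loop_nv : loop 2401 (nv 0) (nv 1) (nv 2) (nv 3) (nv 4) (nv 5) (nv 6) = true := by
  decide +kernel

/-- the test of the size of the coefficients and of the degrees -/
def size (k : ℕ) : Bool :=
  decide ((ce k).nrm < 2 ^ 127) && (decide ((ce k).dx < 49) && decide ((ce k).dy < 49))

theorem size_ok : (size 0 && (size 1 && (size 2 && (size 3 && (size 4 && (size 5 && size 6))))))
    = true := by
  decide +kernel

end Pool.Agent.Q44.HS
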