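import Pool.Agent.Q44.HS.Cert

/-! Consequences of the certificate. -/

set_option autoImplicit false

namespace Pool.Agent.Q44.HS

theorem bigM_eq : bigM = 2 * bigB := by
  unfold bigM bigB
  norm_num

/-- sum over a rectangle -/
theorem sum_rect {R : Type*} [CommRing R] (g : ℕ → R) (m n : ℕ) :
    ∑ k ∈ Finset.range (n * m), g k =
      ∑ j ∈ Finset.range n, ∑ i ∈ Finset.range m, g (j * m + i) := by
  induction n with
  | zero => simp
  | succ n ih => rw [Nat.succ_mul, Finset.sum_range_add, Finset.sum_range_succ, ih]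

/-- the coefficient with flat index -/
noncomputable def cof (e : Ex) (n : ℕ) : ℤ := Ex.co e (n % 49) (n / 49)

/-- the digit with flat index -/
noncomputable def dig (e : Ex) (n : ℕ) : ℕ := (cof e n + bigB).toNat

theorem size_spec {k : ℕ} (hk : k < 7) :
    (ce k).nrm < bigB ∧ (ce k).dx < 49 ∧ (ce k).dy < 49 := by
  have h := size_ok
  simp only [Bool.and_eq_true, size, decide_eq_true_eq] at h
  unfold bigB
  obtain ⟨h0, h1, h2, h3, h4, h5, h6⟩ := h
  interval_cases k
  · exact h0
  · exact h1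
  · exact h2
  · exact h3
  · exact h4
  · exact h5
  · exact h6

theorem abs_cof_lt {k : ℕ} (hk : k < 7) (n : ℕ) : |cof (ce k) n| < bigB :=
  lt_of_le_of_lt (Ex.abs_co_le_nrm _ _ _) (by exact_mod_cast (size_spec hk).1)

theorem dig_cast {k : ℕ} (hk : k < 7) (n : ℕ) : (dig (ce k) n : ℤ) = cof (ce k) n + bigB := by
  unfold dig
  rw [Int.toNat_of_nonneg]
  have := neg_lt_of_abs_lt (abs_cof_lt hk n)
  linarith

theorem dig_lt {k : ℕ} (hk : k < 7) (n : ℕ) : dig (ce k) n < bigM := by
  have h1 := dig_cast hk n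
  have h2 := lt_of_abs_lt (abs_cof_lt hk n)
  have h3 : (dig (ce k) n : ℤ) < bigM := by
    rw [h1, bigM_eq]
    push_cast
    linarith
  exact_mod_cast h3

theorem nv_eq {k : ℕ} (hk : k < 7) :
    nv k = ∑ n ∈ Finset.range 2401, dig (ce k) n * bigM ^ n := by
  have h0 : off = ∑ n ∈ Finset.range 2401, bigB * bigM ^ n := by
    unfold off
    rw [← Nat.geomSum_eq (by unfold bigM; norm_num), Finset.mul_sum]
  have h1 : Ex.val bigM (bigM ^ 49) (ce k) =
      ∑ n ∈ Finset.range (49 * 49), cof (ce k) n * (bigM : ℤ) ^ n := by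
    rw [Ex.val_eq, Ex.ev_eq_sum _ _ _ (size_spec hk).2.1 (size_spec hk).2.2, sum_rect]
    refine Finset.sum_congr rfl fun j _ => Finset.sum_congr rfl fun i hi => ?_
    have hi' : i < 49 := Finset.mem_range.1 hi
    have e1 : (j * 49 + i) % 49 = i := by omega
    have e2 : (j * 49 + i) / 49 = j := by omega
    unfold cof
    rw [e1, e2, pow_add, pow_mul', Int.cast_id]
    ring
  have h2 : (Ex.val bigM (bigM ^ 49) (ce k) + off : ℤ) =
      ((∑ n ∈ Finset.range 2401, dig (ce k) n * bigM ^ n : ℕ) : ℤ) := by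
    rw [h1, h0]
    push_cast
    rw [← Finset.sum_add_distrib]
    refine Finset.sum_congr rfl fun n _ => ?_
    rw [dig_cast hk]
    ring
  unfold nv
  rw [h2, Int.toNat_natCast]

/-- what the loop tests -/
theorem loop_spec (m : ℕ) : ∀ (a b d c e f l : ℕ → ℕ), (∀ n, a n < bigM) → (∀ n, b n < bigM) →
    (∀ n, d n < bigM) → (∀ n, c n < bigM) → (∀ n, e n < bigM) → (∀ n, f n < bigM) →
    (∀ n, l n < bigM) →
    loop m (∑ n ∈ Finset.range m, a n * bigM ^ n) (∑ n ∈ Finset.range m, b n * bigM ^ n)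
      (∑ n ∈ Finset.range m, d n * bigM ^ n) (∑ n ∈ Finset.range m, c n * bigM ^ n)
      (∑ n ∈ Finset.range m, e n * bigM ^ n) (∑ n ∈ Finset.range m, f n * bigM ^ n)
      (∑ n ∈ Finset.range m, l n * bigM ^ n) = true →
    ∀ n < m, posd (a n - bigB) (b n - bigB) (d n - bigB) (c n - bigB) (e n - bigB) (f n - bigB)
      = true ∧ 0 ≤ (l n - bigB : ℤ) := by
  induction m with
  | zero => intro a b d c e f l _ _ _ _ _ _ _ _ n hn; omega
  | succ m ih =>
    intro a b d c e f l ha hb hd hc he hf hl h n hn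
    rw [loop] at h
    simp only [Bool.and_eq_true, decide_eq_true_eq, dg, digit_zero _ ha, digit_zero _ hb,
      digit_zero _ hd, digit_zero _ hc, digit_zero _ he, digit_zero _ hf, digit_zero _ hl,
      digit_div _ ha, digit_div _ hb,
      digit_div _ hd, digit_div _ hc, digit_div _ he, digit_div _ hf, digit_div _ hl] at h
    obtain ⟨h1, h2, h3⟩ := h
    cases n with
    | zero => exact ⟨h1, h2⟩
    | succ n =>
      exact ih (fun n => a (n + 1)) (fun n => b (n + 1)) (fun n => d (n + 1)) (fun n => c (n + 1))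
        (fun n => e (n + 1)) (fun n => f (n + 1)) (fun n => l (n + 1)) (fun n => ha _)
        (fun n => hb _) (fun n => hd _) (fun n => hc _) (fun n => he _) (fun n => hf _)
        (fun n => hl _) h3 n (by omega)

/-- All the coefficient matrices are positive definite. -/
theorem co_spec {i j : ℕ} (hi : i < 49) (hj : j < 49) :
    posd (Ex.co (ce 0) i j) (Ex.co (ce 1) i j) (Ex.co (ce 2) i j) (Ex.co (ce 3) i j)
      (Ex.co (ce 4) i j) (Ex.co (ce 5) i j) = true ∧ 0 ≤ Ex.co (ce 6) i j := by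
  have h := loop_nv
  rw [nv_eq (by norm_num : 0 < 7), nv_eq (by norm_num : 1 < 7), nv_eq (by norm_num : 2 < 7),
    nv_eq (by norm_num : 3 < 7), nv_eq (by norm_num : 4 < 7), nv_eq (by norm_num : 5 < 7),
    nv_eq (by norm_num : 6 < 7)] at h
  have h2 := loop_spec 2401 _ _ _ _ _ _ _ (dig_lt (by norm_num : 0 < 7))
    (dig_lt (by norm_num : 1 < 7)) (dig_lt (by norm_num : 2 < 7)) (dig_lt (by norm_num : 3 < 7))
    (dig_lt (by norm_num : 4 < 7)) (dig_lt (by norm_num : 5 < 7)) (dig_lt (by norm_num : 6 < 7)) h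
    (j * 49 + i) (by omega)
  rw [dig_cast (by norm_num : 0 < 7), dig_cast (by norm_num : 1 < 7),
    dig_cast (by norm_num : 2 < 7), dig_cast (by norm_num : 3 < 7), dig_cast (by norm_num : 4 < 7),
    dig_cast (by norm_num : 5 < 7), dig_cast (by norm_num : 6 < 7)] at h2
  have e1 : (j * 49 + i) % 49 = i := by omega
  have e2 : (j * 49 + i) / 49 = j := by omega
  simp only [add_sub_cancel_right, cof, e1, e2] at h2
  exact h2

end Pool.Agent.Q44.HS
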