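import Pool.Agent.TH598.KG.Stmt
import Pool.Agent.Helper114.Sph

/-!
# Holomorphic sectional curvature, the Riemann sphere, blow-ups of complex surfaces

Hermitian metrics on a complex manifold of dimension `n` (`HermitianMetric n X`), the Wirtinger
derivatives `dz`, `dzbar` and the model space `Cn n = Fin n → ℂ` are those of
`Pool.Agent.W549.CYDefs`; `IsKahler` is defined in `Pool.Agent.TH598.KG.Stmt`.
-/

set_option autoImplicit false

open scoped Manifold ContDiff Topology ComplexConjugate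
open Pool.Agent.W549.CY (Cn dz dzbar)
open Pool.Agent.Helper114.Herman (sinvHomeo sinv_zero)

namespace Pool.Agent.Q44.HS

/-! ### Curvature -/

/-- The Chern curvature tensor of the Hermitian metric with coefficients `g = (g_{i j̄})` on an open
subset of `ℂ^n`:
`R_{i j̄ k l̄} = - ∂²g_{i j̄}/∂z_k ∂z̄_l + ∑_{p,q} g^{p q̄} (∂g_{i q̄}/∂z_k) (∂g_{p j̄}/∂z̄_l)`,
where `g^{p q̄}` is the entry `(q, p)` of the inverse of the matrix `g`. -/
noncomputable def chernCurvature {n : ℕ} (g : Cn n → Matrix (Fin n) (Fin n) ℂ) (z : Cn n)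
    (i j k l : Fin n) : ℂ :=
  -dz k (dzbar l fun w => g w i j) z +
    ∑ p, ∑ q, (g z)⁻¹ q p * dz k (fun w => g w i q) z * dzbar l (fun w => g w p j) z

/-- `R(v, v̄, v, v̄) = ∑ R_{i j̄ k l̄} v_i v̄_j v_k v̄_l` (a real number). -/
noncomputable def curvatureForm {n : ℕ} (g : Cn n → Matrix (Fin n) (Fin n) ℂ) (z v : Cn n) : ℝ :=
  (∑ i, ∑ j, ∑ k, ∑ l,
    chernCurvature g z i j k l * v i * conj (v j) * v k * conj (v l)).re

/-- The squared length `|v|² = ∑ g_{i j̄} v_i v̄_j`. -/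
noncomputable def normSqForm {n : ℕ} (g : Cn n → Matrix (Fin n) (Fin n) ℂ) (z v : Cn n) : ℝ :=
  (∑ i, ∑ j, g z i j * v i * conj (v j)).re

/-- The holomorphic sectional curvature `H(v) = R(v, v̄, v, v̄) / |v|⁴`. -/
noncomputable def holSec {n : ℕ} (g : Cn n → Matrix (Fin n) (Fin n) ℂ) (z v : Cn n) : ℝ :=
  curvatureForm g z v / normSqForm g z v ^ 2

/-! ### The Riemann sphere -/

/-- The chart `z` of the Riemann sphere `ℙ¹ = ℂ ∪ {∞}`, defined on `ℂ`. -/
noncomputable def chartZero : OpenPartialHomeomorph (OnePoint ℂ) ℂ :=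
  (OnePoint.isOpenEmbedding_coe.toOpenPartialHomeomorph ((↑) : ℂ → OnePoint ℂ)).symm

/-- The chart `1/z` of the Riemann sphere `ℙ¹ = ℂ ∪ {∞}`, defined on `ℙ¹ ∖ {0}`
(`sinvHomeo` is the inversion `z ↦ 1/z` of `ℙ¹`). -/
noncomputable def chartInfty : OpenPartialHomeomorph (OnePoint ℂ) ℂ :=
  sinvHomeo.toOpenPartialHomeomorph ≫ₕ chartZero

theorem mem_chartZero (x : OnePoint ℂ) : x ∈ chartZero.source ↔ x ≠ OnePoint.infty := by
  unfold chartZero
  rw [OnePoint.ne_infty_iff_exists]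
  simp

theorem mem_chartInfty (x : OnePoint ℂ) : x ∈ chartInfty.source ↔ x ≠ ((0 : ℂ) : OnePoint ℂ) := by
  unfold chartInfty
  rw [OpenPartialHomeomorph.trans_source]
  simp only [Homeomorph.toOpenPartialHomeomorph_source, Set.univ_inter, Set.mem_preimage,
    Homeomorph.toOpenPartialHomeomorph_apply, mem_chartZero]
  have h : sinvHomeo ((0 : ℂ) : OnePoint ℂ) = OnePoint.infty := sinv_zero
  rw [← h, sinvHomeo.injective.ne_iff]

/-- The Riemann sphere as a complex manifold. -/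
noncomputable instance : ChartedSpace ℂ (OnePoint ℂ) where
  atlas := {chartZero, chartInfty}
  chartAt x := open Classical in if x = OnePoint.infty then chartInfty else chartZero
  mem_chart_source x := by
    split_ifs with h
    · rw [mem_chartInfty, h]
      exact OnePoint.infty_ne_coe 0
    · exact (mem_chartZero x).2 h
  chart_mem_atlas x := by
    split_ifs
    · exact Set.mem_insert_of_mem _ rfl
    · exact Set.mem_insert _ _

/-! ### Blow-ups -/

/-- `π : X → Y` is the blow-up of the complex surface `Y` at the points of the finite set `S`: `π` is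
holomorphic, it has a holomorphic inverse `σ` over `Y ∖ S`, and around each point `p` of `S` there are
coordinates `e = (z₁, z₂)` of `Y` centred at `p` such that the preimage under `π` of their domain is
covered by the domains of two charts `e₁ = (a, m)` and `e₂ = (n, b)` of `X`, in which `π` is given by
`(z₁, z₂) = (a, a m)` and `(z₁, z₂) = (n b, b)`, each of them containing all the points `(a, m)` and
`(n, b)` for which this makes sense, and which are glued by `m n = 1`. In other words, that preimage is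
`{(z, ℓ) | z ∈ ℓ}`, where `ℓ = [1 : m] = [n : 1] ∈ ℙ¹` is a line through the origin of `ℂ²`. -/
structure IsBlowUp {X Y : Type} [TopologicalSpace X] [ChartedSpace (Cn 2) X] [TopologicalSpace Y]
    [ChartedSpace (ModelProd ℂ ℂ) Y] (π : X → Y) (S : Set Y) : Prop where
  finite : S.Finite
  holomorphic : MDifferentiable 𝓘(ℂ, Cn 2) (𝓘(ℂ, ℂ).prod 𝓘(ℂ, ℂ)) π
  outside : ∃ σ : Y → X, MDifferentiableOn (𝓘(ℂ, ℂ).prod 𝓘(ℂ, ℂ)) 𝓘(ℂ, Cn 2) σ Sᶜ ∧
    (∀ y ∉ S, π (σ y) = y) ∧ ∀ x, π x ∉ S → σ (π x) = x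
  centers : ∀ p ∈ S, ∃ e ∈ IsManifold.maximalAtlas (𝓘(ℂ, ℂ).prod 𝓘(ℂ, ℂ)) ω Y,
    ∃ e₁ ∈ IsManifold.maximalAtlas 𝓘(ℂ, Cn 2) ω X, ∃ e₂ ∈ IsManifold.maximalAtlas 𝓘(ℂ, Cn 2) ω X,
      p ∈ e.source ∧ e p = (0, 0) ∧ π ⁻¹' e.source = e₁.source ∪ e₂.source ∧
      e₁.target = {w | (w 0, w 0 * w 1) ∈ e.target} ∧
      e₂.target = {w | (w 0 * w 1, w 1) ∈ e.target} ∧
      (∀ x ∈ e₁.source, e (π x) = (e₁ x 0, e₁ x 0 * e₁ x 1)) ∧
      (∀ x ∈ e₂.source, e (π x) = (e₂ x 0 * e₂ x 1, e₂ x 1)) ∧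
      (∀ x ∈ e₁.source, x ∈ e₂.source ↔ e₁ x 1 ≠ 0) ∧
      (∀ x ∈ e₂.source, x ∈ e₁.source ↔ e₂ x 0 ≠ 0) ∧
      ∀ x ∈ e₁.source ∩ e₂.source, e₁ x 1 * e₂ x 0 = 1

end Pool.Agent.Q44.HS
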