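import Pool.Agent.Q44.HS.Herm
import Pool.Agent.Q44.HS.Defs

/-! The curvature form bounds the Laplacian of the squared speed of holomorphic curves. -/

set_option autoImplicit false

open scoped ComplexConjugate Topology ContDiff Matrix
open Pool.Agent.W549.CY (Cn dz dzbar)

namespace Pool.Agent.Q44.HS

/-- the squared speed of a curve `γ` with derivative `γ₁` -/
noncomputable def spd {n : ℕ} (g : Cn n → Matrix (Fin n) (Fin n) ℂ) (γ γ₁ : ℂ → Cn n) (t : ℂ) : ℂ :=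
  ∑ i, ∑ j, g (γ t) i j * γ₁ t i * conj (γ₁ t j)

theorem dzbar_conj' {n : ℕ} (j : Fin n) (f : Cn n → ℂ) (z : Cn n) :
    dzbar j (fun w => conj (f w)) z = conj (dz j f z) := by
  have h : ∀ v, fderiv ℝ (fun w => conj (f w)) z v = conj (fderiv ℝ f z v) := by
    intro v
    have h1 := Complex.conjCLE.comp_fderiv (f := f) (x := z)
    have h2 : (fun w => conj (f w)) = Complex.conjCLE ∘ f := rfl
    rw [h2, h1]
    rfl
  unfold dz dzbar
  rw [h, h]
  simp only [map_mul, map_sub, map_div₀, map_one, map_ofNat, Complex.conj_I]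
  ring

theorem hasDerivAt_apply {n : ℕ} {γ : ℂ → Cn n} {γ' : Cn n} {t : ℂ} (h : HasDerivAt γ γ' t)
    (i : Fin n) : HasDerivAt (fun s => γ s i) (γ' i) t := (hasDerivAt_pi.1 h) i

theorem differentiableAt_dzbar' {n : ℕ} {f : Cn n → ℂ} {z : Cn n} (hf : ContDiffAt ℝ ∞ f z)
    (k : Fin n) : DifferentiableAt ℝ (dzbar k f) z := by
  have h1 : DifferentiableAt ℝ (fderiv ℝ f) z :=
    (hf.fderiv_right (m := ∞) (by simp)).differentiableAt (by simp)
  unfold dzbar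
  exact ((h1.clm_apply (differentiableAt_const _)).add
    ((h1.clm_apply (differentiableAt_const _)).const_mul _)).const_mul _

/-- the value of `∂∂̄ |γ'|²` -/
theorem dt_db_spd {n : ℕ} {g : Cn n → Matrix (Fin n) (Fin n) ℂ} {z v w : Cn n}
    {γ γ₁ γ₂ : ℂ → Cn n} (hg : ∀ i j, ∀ᶠ x in 𝓝 z, ContDiffAt ℝ ∞ (fun w => g w i j) x)
    (h0 : γ 0 = z) (h1 : ∀ᶠ t in 𝓝 0, HasDerivAt γ (γ₁ t) t)
    (h2 : ∀ᶠ t in 𝓝 0, HasDerivAt γ₁ (γ₂ t) t) (h3 : DifferentiableAt ℂ γ₂ 0)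
    (hv : γ₁ 0 = v) (hw : γ₂ 0 = w) :
    dt (db (spd g γ γ₁)) 0 =
      (∑ i, ∑ j, ∑ l, ∑ k, dz k (dzbar l fun w => g w i j) z * v k * conj (v l) * v i * conj (v j))
      + (∑ i, ∑ j, ∑ l, dzbar l (fun w => g w i j) z * conj (v l) * w i * conj (v j))
      + (∑ i, ∑ j, ∑ k, dz k (fun w => g w i j) z * v k * v i * conj (w j))
      + ∑ i, ∑ j, g z i j * w i * conj (w j) := by
  have hγc : ContinuousAt γ 0 := (h1.self_of_nhds).continuousAt
  have hge : ∀ i j, ∀ᶠ t in 𝓝 (0 : ℂ), ContDiffAt ℝ ∞ (fun w => g w i j) (γ t) := by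
    intro i j
    have h4 : ∀ᶠ x in 𝓝 (γ 0), ContDiffAt ℝ ∞ (fun w => g w i j) x := by
      rw [h0]; exact hg i j
    exact hγc.eventually h4
  have hge' : ∀ᶠ t in 𝓝 (0 : ℂ), ∀ i j, ContDiffAt ℝ ∞ (fun w => g w i j) (γ t) := by
    rw [Filter.eventually_all]; intro i; rw [Filter.eventually_all]; exact hge i
  have hdb : db (spd g γ γ₁) =ᶠ[𝓝 0] fun t => ∑ i, ∑ j,
      ((∑ l, dzbar l (fun w => g w i j) (γ t) * conj (γ₁ t l)) * γ₁ t i * conj (γ₁ t j)
        + g (γ t) i j * γ₁ t i * conj (γ₂ t j)) := by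
    filter_upwards [h1, h2, hge'] with t e1 e2 e3
    have h5 : HasW (spd g γ γ₁) (∑ i, ∑ j,
        (((∑ l, dz l (fun w => g w i j) (γ t) * γ₁ t l) * γ₁ t i + g (γ t) i j * γ₂ t i)
          * conj (γ₁ t j) + (g (γ t) i j * γ₁ t i) * conj 0)) (∑ i, ∑ j,
        (((∑ l, dzbar l (fun w => g w i j) (γ t) * conj (γ₁ t l)) * γ₁ t i + g (γ t) i j * 0)
          * conj (γ₁ t j) + (g (γ t) i j * γ₁ t i) * conj (γ₂ t j))) t := by
      unfold spd
      refine HasW.sum fun i _ => HasW.sum fun j _ => ?_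
      have a1 := hasW_comp (u := fun w => g w i j) ((e3 i j).differentiableAt (by simp)) e1
      have a2 := hasW_of_hasDerivAt (hasDerivAt_apply e2 i)
      have a3 := (hasW_of_hasDerivAt (hasDerivAt_apply e2 j)).conj
      exact (a1.mul a2).mul a3
    rw [h5.db]
    refine Finset.sum_congr rfl fun i _ => Finset.sum_congr rfl fun j _ => ?_
    ring
  rw [dt_congr hdb]
  have e1 := h1.self_of_nhds
  have e2 := h2.self_of_nhds
  have e3 : HasDerivAt γ₂ (deriv γ₂ 0) 0 := h3.hasDerivAt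
  have h6 : HasW (fun t => ∑ i, ∑ j,
      ((∑ l, dzbar l (fun w => g w i j) (γ t) * conj (γ₁ t l)) * γ₁ t i * conj (γ₁ t j)
        + g (γ t) i j * γ₁ t i * conj (γ₂ t j)))
      (∑ i, ∑ j, ((((∑ l, ((∑ k, dz k (dzbar l fun w => g w i j) (γ 0) * γ₁ 0 k) * conj (γ₁ 0 l)
          + dzbar l (fun w => g w i j) (γ 0) * conj 0)) * γ₁ 0 i
          + (∑ l, dzbar l (fun w => g w i j) (γ 0) * conj (γ₁ 0 l)) * γ₂ 0 i) * conj (γ₁ 0 j)
          + ((∑ l, dzbar l (fun w => g w i j) (γ 0) * conj (γ₁ 0 l)) * γ₁ 0 i) * conj 0)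
        + (((∑ k, dz k (fun w => g w i j) (γ 0) * γ₁ 0 k) * γ₁ 0 i + g (γ 0) i j * γ₂ 0 i)
          * conj (γ₂ 0 j) + (g (γ 0) i j * γ₁ 0 i) * conj 0)))
      (∑ i, ∑ j, ((((∑ l, ((∑ k, dzbar k (dzbar l fun w => g w i j) (γ 0) * conj (γ₁ 0 k))
            * conj (γ₁ 0 l)
          + dzbar l (fun w => g w i j) (γ 0) * conj (γ₂ 0 l))) * γ₁ 0 i
          + (∑ l, dzbar l (fun w => g w i j) (γ 0) * conj (γ₁ 0 l)) * 0) * conj (γ₁ 0 j)
          + ((∑ l, dzbar l (fun w => g w i j) (γ 0) * conj (γ₁ 0 l)) * γ₁ 0 i) * conj (γ₂ 0 j))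
        + (((∑ k, dzbar k (fun w => g w i j) (γ 0) * conj (γ₁ 0 k)) * γ₁ 0 i
            + g (γ 0) i j * 0)
          * conj (γ₂ 0 j) + (g (γ 0) i j * γ₁ 0 i) * conj (deriv γ₂ 0 j)))) 0 := by
    refine HasW.sum fun i _ => HasW.sum fun j _ => ?_
    have hgz : ContDiffAt ℝ ∞ (fun w => g w i j) (γ 0) := by rw [h0]; exact (hg i j).self_of_nhds
    have a1 := hasW_comp (u := fun w => g w i j) (hgz.differentiableAt (by simp)) e1
    have a2 := hasW_of_hasDerivAt (hasDerivAt_apply e2 i)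
    have a3 := (hasW_of_hasDerivAt (hasDerivAt_apply e2 j)).conj
    have a4 := (hasW_of_hasDerivAt (hasDerivAt_apply e3 j)).conj
    have a5 : HasW (fun t => ∑ l, dzbar l (fun w => g w i j) (γ t) * conj (γ₁ t l))
        (∑ l, ((∑ k, dz k (dzbar l fun w => g w i j) (γ 0) * γ₁ 0 k) * conj (γ₁ 0 l)
          + dzbar l (fun w => g w i j) (γ 0) * conj 0))
        (∑ l, ((∑ k, dzbar k (dzbar l fun w => g w i j) (γ 0) * conj (γ₁ 0 k)) * conj (γ₁ 0 l)
          + dzbar l (fun w => g w i j) (γ 0) * conj (γ₂ 0 l))) 0 := by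
      refine HasW.sum fun l _ => ?_
      exact (hasW_comp (u := dzbar l fun w => g w i j) (differentiableAt_dzbar' hgz l) e1).mul
        (hasW_of_hasDerivAt (hasDerivAt_apply e2 l)).conj
    exact ((a5.mul a2).mul a3).add ((a1.mul a2).mul a4)
  rw [h6.dt, h0, hv, hw]
  simp only [map_zero, mul_zero, add_zero, Finset.sum_mul, add_mul, Finset.sum_add_distrib]
  have s1 : ∀ i j, ∑ l, ∑ k, dz k (dzbar l fun w => g w i j) z * v k * conj (v l) * v i * conj (v j)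
      = ∑ l, ∑ k, dz k (dzbar l fun w => g w i j) z * v k * conj (v l) * v i * conj (v j) :=
    fun _ _ => rfl
  have s2 : (∑ i, ∑ j, ∑ l, dzbar l (fun w => g w i j) z * conj (v l) * w i * conj (v j)) =
    ∑ i, ∑ j, ∑ l, dzbar l (fun w => g w i j) z * conj (v l) * w i * conj (v j) := rfl
  ring

open ComplexOrder in
/-- **Curvature and curves.** `R(v, v̄, v, v̄) ≥ -∂∂̄ |γ'|²` for every holomorphic curve `γ` with
`γ(0) = z`, `γ'(0) = v`. -/
theorem neg_le_curvatureForm {g : Cn 2 → Matrix (Fin 2) (Fin 2) ℂ} {z v : Cn 2}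
    {γ γ₁ γ₂ : ℂ → Cn 2} (hg : ∀ i j, ∀ᶠ x in 𝓝 z, ContDiffAt ℝ ∞ (fun w => g w i j) x)
    (hh : ∀ᶠ w in 𝓝 z, (g w).PosDef)
    (h0 : γ 0 = z) (h1 : ∀ᶠ t in 𝓝 0, HasDerivAt γ (γ₁ t) t)
    (h2 : ∀ᶠ t in 𝓝 0, HasDerivAt γ₁ (γ₂ t) t) (h3 : DifferentiableAt ℂ γ₂ 0)
    (hv : γ₁ 0 = v) :
    -(dt (db (spd g γ γ₁)) 0).re ≤ curvatureForm g z v := by
  set w : Cn 2 := γ₂ 0 with hw
  rw [dt_db_spd hg h0 h1 h2 h3 hv hw.symm]
  have hP := hh.self_of_nhds
  have hH := (posDef_iff_sf.1 hP).1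
  set a : Cn 2 := fun q => ∑ i, ∑ k, dz k (fun w => g w i q) z * v i * v k with ha
  have hconj : ∀ l p j, dzbar l (fun w => g w p j) z = conj (dz l (fun w => g w j p) z) := by
    intro l p j
    rw [← dzbar_conj']
    have : (fun w => g w p j) =ᶠ[𝓝 z] fun w => conj (g w j p) := by
      filter_upwards [hh] with x hx
      have h5 := (posDef_iff_sf.1 hx).1.apply p j
      rw [RCLike.star_def] at h5
      exact h5.symm
    unfold dzbar
    rw [this.fderiv_eq]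
  have key := complete_square hH ((Matrix.isUnit_iff_isUnit_det _).1 hP.isUnit) a w
  have hn := sf_nonneg hP (Matrix.vecMul a (g z)⁻¹ + w)
  rw [← key] at hn
  have e1 : (∑ i, ∑ j, ∑ k, ∑ l,
      chernCurvature g z i j k l * v i * conj (v j) * v k * conj (v l)) =
      -(∑ i, ∑ j, ∑ l, ∑ k, dz k (dzbar l fun w => g w i j) z * v k * conj (v l) * v i * conj (v j))
      + ∑ p, ∑ q, (g z)⁻¹ q p * a q * conj (a p) := by
    simp only [ha, chernCurvature, hconj, map_mul, map_add, Fin.sum_univ_two]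
    ring
  have e2 : (∑ i, ∑ j, ∑ l, dzbar l (fun w => g w i j) z * conj (v l) * w i * conj (v j)) =
      ∑ p, w p * conj (a p) := by
    simp only [ha, hconj, map_mul, map_add, Fin.sum_univ_two]
    ring
  have e3 : (∑ i, ∑ j, ∑ k, dz k (fun w => g w i j) z * v k * v i * conj (w j)) =
      ∑ p, a p * conj (w p) := by
    simp only [ha, Fin.sum_univ_two]
    ring
  have e4 : (∑ i, ∑ j, g z i j * w i * conj (w j)) = sf (g z) w w := rfl
  unfold curvatureForm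
  rw [e1, e2, e3, e4]
  simp only [Complex.add_re, Complex.neg_re] at hn ⊢
  linarith

end Pool.Agent.Q44.HS
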