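import Mathlib

/-! Polynomial expressions in two variables with integer coefficients, and the values of their
coefficients read off from one value at a large integer point. -/

set_option autoImplicit false

namespace Pool.Agent.Q44.HS

/-- Polynomial expressions in two variables. -/
inductive Ex : Type
  | lit : ℤ → Ex
  | x : Ex
  | y : Ex
  | add : Ex → Ex → Ex
  | sub : Ex → Ex → Ex
  | mul : Ex → Ex → Ex

namespace Ex

/-- value in the integers -/
def val (a b : ℤ) : Ex → ℤ
  | lit z => z
  | x => a
  | y => b
  | add e f => Int.add (val a b e) (val a b f)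
  | sub e f => Int.sub (val a b e) (val a b f)
  | mul e f => Int.mul (val a b e) (val a b f)

/-- a bound for the sum of the absolute values of the coefficients -/
def nrm : Ex → ℕ
  | lit z => z.natAbs
  | x => 1
  | y => 1
  | add e f => Nat.add (nrm e) (nrm f)
  | sub e f => Nat.add (nrm e) (nrm f)
  | mul e f => Nat.mul (nrm e) (nrm f)

/-- a bound for the degree in `x` -/
def dx : Ex → ℕ
  | lit _ => 0
  | x => 1
  | y => 0
  | add e f => Nat.max (dx e) (dx f)
  | sub e f => Nat.max (dx e) (dx f)
  | mul e f => Nat.add (dx e) (dx f)

/-- a bound for the degree in `y` -/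
def dy : Ex → ℕ
  | lit _ => 0
  | x => 0
  | y => 1
  | add e f => Nat.max (dy e) (dy f)
  | sub e f => Nat.max (dy e) (dy f)
  | mul e f => Nat.add (dy e) (dy f)

/-- value in a commutative ring -/
def ev {R : Type*} [CommRing R] (a b : R) : Ex → R
  | lit z => (z : R)
  | x => a
  | y => b
  | add e f => ev a b e + ev a b f
  | sub e f => ev a b e - ev a b f
  | mul e f => ev a b e * ev a b f

end Ex

end Pool.Agent.Q44.HS
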