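import Pool.Agent.Q44.HS.Ex

/-! The quadratic form of the certificate, as a formula over any type with `+`, `-`, `*`. -/

set_option autoImplicit false

namespace Pool.Agent.Q44.HS

section

variable {R : Type*} [Add R] [Sub R] [Mul R]

/-- power by repeated multiplication (`c` is the embedding of the integers) -/
def pw (c : ℤ → R) (a : R) : ℕ → R
  | 0 => c 1
  | n + 1 => a * pw c a n

/-- a monomial `k X^a X₁^b Y^d Y₁^e` -/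
def mon (c : ℤ → R) (X X₁ Y Y₁ : R) (k : ℤ) (a b d e : ℕ) : R :=
  c k * ((pw c X a * pw c X₁ b) * (pw c Y d * pw c Y₁ e))

/-- The vector `F = (x^i y^j)` (index `0`) and its derivatives `F_x, F_y, F_xx, F_xy, F_yy`
(indices `1, ..., 5`), homogenised: `x = X / X₁`, `y = Y / Y₁`, multiplied by `X₁^6 Y₁^6`. -/
def fam (c : ℤ → R) (X X₁ Y Y₁ : R) (i j : ℕ) : ℕ → R
  | 0 => mon c X X₁ Y Y₁ 1 i (6 - i) j (6 - j)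
  | 1 => mon c X X₁ Y Y₁ i (i - 1) (min 6 (7 - i)) j (6 - j)
  | 2 => mon c X X₁ Y Y₁ j i (6 - i) (j - 1) (min 6 (7 - j))
  | 3 => mon c X X₁ Y Y₁ (i * (i - 1)) (i - 2) (min 6 (8 - i)) j (6 - j)
  | 4 => mon c X X₁ Y Y₁ (i * j) (i - 1) (min 6 (7 - i)) (j - 1) (min 6 (7 - j))
  | _ => mon c X X₁ Y Y₁ (j * (j - 1)) i (6 - i) (j - 2) (min 6 (8 - j))

/-- The exponents and the weights. -/
def wts : List (ℕ × ℕ × ℤ) :=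
  [(0, 0, 1), (0, 1, 4), (0, 2, 4), (0, 3, 1),
   (1, 0, 4), (1, 1, 23), (1, 2, 40), (1, 3, 23), (1, 4, 4),
   (2, 0, 4), (2, 1, 40), (2, 2, 87), (2, 3, 87), (2, 4, 40), (2, 5, 4),
   (3, 0, 1), (3, 1, 23), (3, 2, 87), (3, 3, 119), (3, 4, 87), (3, 5, 23), (3, 6, 1),
   (4, 1, 4), (4, 2, 40), (4, 3, 87), (4, 4, 87), (4, 5, 40), (4, 6, 4),
   (5, 2, 4), (5, 3, 23), (5, 4, 40), (5, 5, 23), (5, 6, 4),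
   (6, 3, 1), (6, 4, 4), (6, 5, 4), (6, 6, 1)]

/-- sum over the list -/
def lsum (c : ℤ → R) (f : ℕ → ℕ → R) : List (ℕ × ℕ × ℤ) → R
  | [] => c 0
  | m :: l => c m.2.2 * f m.1 m.2.1 + lsum c f l

/-- The Gram matrix of the six vectors. -/
def gram (c : ℤ → R) (X X₁ Y Y₁ : R) (a b : ℕ) : R :=
  lsum c (fun i j => fam c X X₁ Y Y₁ i j a * fam c X X₁ Y Y₁ i j b) wts

/-- the monomial `k x^a y^b`, homogenised to degree 12 -/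
def hm (c : ℤ → R) (X X₁ Y Y₁ : R) (k : ℤ) (a b : ℕ) : R :=
  mon c X X₁ Y Y₁ k a (12 - a) b (12 - b)

/-- `-x (5 + 10 y² + 50 y⁴ + 5 x⁴ + 700 x⁴ y⁴)` -/
def alx (c : ℤ → R) (X X₁ Y Y₁ : R) : R :=
  hm c X X₁ Y Y₁ (-5) 1 0 + (hm c X X₁ Y Y₁ (-10) 1 2 + (hm c X X₁ Y Y₁ (-50) 1 4 +
    (hm c X X₁ Y Y₁ (-5) 5 0 + hm c X X₁ Y Y₁ (-700) 5 4)))

/-- `-y (5 + 10 x² + 50 x⁴ + 5 y⁴ + 700 x⁴ y⁴)` -/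
def aly (c : ℤ → R) (X X₁ Y Y₁ : R) : R :=
  hm c X X₁ Y Y₁ (-5) 0 1 + (hm c X X₁ Y Y₁ (-10) 2 1 + (hm c X X₁ Y Y₁ (-50) 4 1 +
    (hm c X X₁ Y Y₁ (-5) 0 5 + hm c X X₁ Y Y₁ (-700) 4 5)))

/-- `y (2 + 2 y² + 30 x⁴)` -/
def gay (c : ℤ → R) (X X₁ Y Y₁ : R) : R :=
  hm c X X₁ Y Y₁ 2 0 1 + (hm c X X₁ Y Y₁ 2 0 3 + hm c X X₁ Y Y₁ 30 4 1)

/-- `x (2 + 2 x² + 30 y⁴)` -/
def gax (c : ℤ → R) (X X₁ Y Y₁ : R) : R :=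
  hm c X X₁ Y Y₁ 2 1 0 + (hm c X X₁ Y Y₁ 2 3 0 + hm c X X₁ Y Y₁ 30 1 4)

/-- `p μ_{ab} - μ_{a0} μ_{b0}` -/
def dd (μ : ℕ → ℕ → R) (a b : ℕ) : R := μ 0 0 * μ a b - μ a 0 * μ b 0

/-- The pairing of two vectors `p F_i - t₁ F_x - t₂ F_y`, `p F_j - u₁ F_x - u₂ F_y`. -/
def qq (μ : ℕ → ℕ → R) (i j : ℕ) (t₁ t₂ u₁ u₂ : R) : R :=
  (μ 0 0 * μ 0 0) * dd μ i j
    - μ 0 0 * ((u₁ * dd μ i 1 + u₂ * dd μ i 2) + (t₁ * dd μ j 1 + t₂ * dd μ j 2))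
    + ((t₁ * u₁) * dd μ 1 1 + ((t₁ * u₂ + t₂ * u₁) * dd μ 1 2 + (t₂ * u₂) * dd μ 2 2))

/-- the determinant of the metric -/
def lam (μ : ℕ → ℕ → R) : R := dd μ 1 1 * dd μ 2 2 - dd μ 1 2 * dd μ 1 2

/-- The seven polynomials of the certificate. -/
def cf (c : ℤ → R) (μ : ℕ → ℕ → R) (ax ay gx gy : R) : ℕ → R
  | 0 => c 20 * (c 2 * (dd μ 1 1 * dd μ 1 1) -
      qq μ 3 3 (μ 1 0 + μ 1 0 + ax) (c 0) (μ 1 0 + μ 1 0 + ax) (c 0))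
  | 1 => c 20 * (c 8 * (dd μ 1 1 * dd μ 1 2) -
      c 4 * qq μ 3 4 (μ 1 0 + μ 1 0 + ax) (c 0) (μ 2 0 + gy) (μ 1 0 + gx))
  | 2 => c 20 * (c 8 * (dd μ 1 2 * dd μ 1 2) -
      c 4 * qq μ 3 5 (μ 1 0 + μ 1 0 + ax) (c 0) (c 0) (μ 2 0 + μ 2 0 + ay)) + lam μ
  | 3 => c 20 * (c 4 * (dd μ 1 1 * dd μ 2 2) -
      c 4 * qq μ 4 4 (μ 2 0 + gy) (μ 1 0 + gx) (μ 2 0 + gy) (μ 1 0 + gx) +
      c 2 * qq μ 3 5 (μ 1 0 + μ 1 0 + ax) (c 0) (c 0) (μ 2 0 + μ 2 0 + ay)) - lam μ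
  | 4 => c 20 * (c 8 * (dd μ 1 2 * dd μ 2 2) -
      c 4 * qq μ 4 5 (μ 2 0 + gy) (μ 1 0 + gx) (c 0) (μ 2 0 + μ 2 0 + ay))
  | 5 => c 20 * (c 2 * (dd μ 2 2 * dd μ 2 2) -
      qq μ 5 5 (c 0) (μ 2 0 + μ 2 0 + ay) (c 0) (μ 2 0 + μ 2 0 + ay))
  | _ => lam μ

/-- The seven polynomials, as functions of `X, X₁, Y, Y₁`. -/
def cc (c : ℤ → R) (X X₁ Y Y₁ : R) (k : ℕ) : R :=
  cf c (gram c X X₁ Y Y₁) (alx c X X₁ Y Y₁) (aly c X X₁ Y Y₁) (gax c X X₁ Y Y₁)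
    (gay c X X₁ Y Y₁) k

end

instance : Add Ex := ⟨Ex.add⟩
instance : Sub Ex := ⟨Ex.sub⟩
instance : Mul Ex := ⟨Ex.mul⟩

/-- The polynomials as expressions. -/
def ce (k : ℕ) : Ex := cc Ex.lit Ex.x (Ex.x + Ex.lit 1) Ex.y (Ex.y + Ex.lit 1) k

end Pool.Agent.Q44.HS
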