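import Pool.Agent.Q44.HS.CertB

/-! The quadratic form of the certificate is positive definite on the closed unit square. -/

set_option autoImplicit false

namespace Pool.Agent.Q44.HS

/-- `φ` respects the operations. -/
structure Hm {R S : Type*} [Add R] [Sub R] [Mul R] [Add S] [Sub S] [Mul S] (φ : R → S) (c : ℤ → R)
    (c' : ℤ → S) : Prop where
  add : ∀ a b, φ (a + b) = φ a + φ b
  sub : ∀ a b, φ (a - b) = φ a - φ b
  mul : ∀ a b, φ (a * b) = φ a * φ b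
  lit : ∀ z, φ (c z) = c' z

namespace Hm

variable {R S : Type*} [Add R] [Sub R] [Mul R] [Add S] [Sub S] [Mul S] {φ : R → S} {c : ℤ → R}
  {c' : ℤ → S}

theorem pw (h : Hm φ c c') (a : R) (n : ℕ) : φ (pw c a n) = HS.pw c' (φ a) n := by
  induction n with
  | zero => exact h.lit 1
  | succ n ih => unfold HS.pw; rw [h.mul, ih]

theorem mon (h : Hm φ c c') (X X₁ Y Y₁ : R) (k : ℤ) (a b d e : ℕ) :
    φ (mon c X X₁ Y Y₁ k a b d e) = HS.mon c' (φ X) (φ X₁) (φ Y) (φ Y₁) k a b d e := by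
  unfold HS.mon
  rw [h.mul, h.mul, h.mul, h.mul, h.lit, h.pw, h.pw, h.pw, h.pw]

theorem fam (h : Hm φ c c') (X X₁ Y Y₁ : R) (i j : ℕ) (k : ℕ) :
    φ (fam c X X₁ Y Y₁ i j k) = HS.fam c' (φ X) (φ X₁) (φ Y) (φ Y₁) i j k := by
  unfold HS.fam
  split <;> exact h.mon _ _ _ _ _ _ _ _ _

theorem lsum (h : Hm φ c c') (f : ℕ → ℕ → R) (l : List (ℕ × ℕ × ℤ)) :
    φ (lsum c f l) = HS.lsum c' (fun i j => φ (f i j)) l := by
  induction l with
  | nil => exact h.lit 0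
  | cons m l ih => unfold HS.lsum; rw [h.add, h.mul, h.lit, ih]

theorem gram (h : Hm φ c c') (X X₁ Y Y₁ : R) (a b : ℕ) :
    φ (gram c X X₁ Y Y₁ a b) = HS.gram c' (φ X) (φ X₁) (φ Y) (φ Y₁) a b := by
  unfold HS.gram
  rw [h.lsum]
  congr 1
  funext i j
  rw [h.mul, h.fam, h.fam]

theorem hm (h : Hm φ c c') (X X₁ Y Y₁ : R) (k : ℤ) (a b : ℕ) :
    φ (hm c X X₁ Y Y₁ k a b) = HS.hm c' (φ X) (φ X₁) (φ Y) (φ Y₁) k a b :=
  h.mon _ _ _ _ _ _ _ _ _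

theorem cf (h : Hm φ c c') (μ : ℕ → ℕ → R) (ax ay gx gy : R) (k : ℕ) :
    φ (cf c μ ax ay gx gy k) =
      HS.cf c' (fun a b => φ (μ a b)) (φ ax) (φ ay) (φ gx) (φ gy) k := by
  unfold HS.cf
  split <;> simp only [h.add, h.sub, h.mul, h.lit, qq, dd, lam]

theorem cc (h : Hm φ c c') (X X₁ Y Y₁ : R) (k : ℕ) :
    φ (cc c X X₁ Y Y₁ k) = HS.cc c' (φ X) (φ X₁) (φ Y) (φ Y₁) k := by
  unfold HS.cc
  rw [h.cf]
  have h1 : (fun a b => φ (HS.gram c X X₁ Y Y₁ a b)) =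
      fun a b => HS.gram c' (φ X) (φ X₁) (φ Y) (φ Y₁) a b := by
    funext a b; exact h.gram _ _ _ _ _ _
  rw [h1]
  unfold alx aly gax gay
  simp only [h.add, h.hm]

end Hm

section homog

variable {R : Type*} [CommRing R]

theorem pw_cast (a : R) (n : ℕ) : pw (Int.cast : ℤ → R) a n = a ^ n := by
  induction n with
  | zero => simp [pw]
  | succ n ih => unfold pw; rw [ih, pow_succ']

theorem mon_cast (X X₁ Y Y₁ : R) (k : ℤ) (a b d e : ℕ) :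
    mon (Int.cast : ℤ → R) X X₁ Y Y₁ k a b d e = k * ((X ^ a * X₁ ^ b) * (Y ^ d * Y₁ ^ e)) := by
  unfold mon
  rw [pw_cast, pw_cast, pw_cast, pw_cast]

theorem mon_scale (s t X X₁ Y Y₁ : R) (k : ℤ) (a b d e : ℕ) :
    mon (Int.cast : ℤ → R) (s * X) (s * X₁) (t * Y) (t * Y₁) k a b d e =
      s ^ (a + b) * t ^ (d + e) * mon (Int.cast : ℤ → R) X X₁ Y Y₁ k a b d e := by
  rw [mon_cast, mon_cast]
  simp only [mul_pow, pow_add]
  ring

theorem fam_scale (s t X X₁ Y Y₁ : R) {i j : ℕ} (hi : i ≤ 6) (hj : j ≤ 6) (k : ℕ) :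
    fam (Int.cast : ℤ → R) (s * X) (s * X₁) (t * Y) (t * Y₁) i j k =
      s ^ 6 * t ^ 6 * fam (Int.cast : ℤ → R) X X₁ Y Y₁ i j k := by
  unfold fam
  split <;> rw [mon_scale] <;> congr 3 <;> first | rfl | omega

theorem lsum_scale (r : R) (f g : ℕ → ℕ → R) (l : List (ℕ × ℕ × ℤ))
    (h : ∀ m ∈ l, f m.1 m.2.1 = r * g m.1 m.2.1) :
    lsum (Int.cast : ℤ → R) f l = r * lsum (Int.cast : ℤ → R) g l := by
  induction l with
  | nil => simp [lsum]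
  | cons m l ih =>
    unfold lsum
    rw [h m List.mem_cons_self, ih fun m' hm' => h m' (List.mem_cons_of_mem _ hm')]
    ring

theorem wts_le : ∀ m ∈ wts, m.1 ≤ 6 ∧ m.2.1 ≤ 6 := by decide

theorem gram_scale (s t X X₁ Y Y₁ : R) (a b : ℕ) :
    gram (Int.cast : ℤ → R) (s * X) (s * X₁) (t * Y) (t * Y₁) a b =
      (s ^ 12 * t ^ 12) * gram (Int.cast : ℤ → R) X X₁ Y Y₁ a b := by
  unfold gram
  refine lsum_scale _ _ _ _ fun m hm => ?_
  obtain ⟨h1, h2⟩ := wts_le m hm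
  rw [fam_scale s t X X₁ Y Y₁ h1 h2, fam_scale s t X X₁ Y Y₁ h1 h2]
  ring

theorem hm_scale (s t X X₁ Y Y₁ : R) (k : ℤ) {a b : ℕ} (ha : a ≤ 12) (hb : b ≤ 12) :
    hm (Int.cast : ℤ → R) (s * X) (s * X₁) (t * Y) (t * Y₁) k a b =
      (s ^ 12 * t ^ 12) * hm (Int.cast : ℤ → R) X X₁ Y Y₁ k a b := by
  unfold hm
  rw [mon_scale]
  congr 3 <;> omega

theorem alx_scale (s t X X₁ Y Y₁ : R) :
    alx (Int.cast : ℤ → R) (s * X) (s * X₁) (t * Y) (t * Y₁) =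
      (s ^ 12 * t ^ 12) * alx (Int.cast : ℤ → R) X X₁ Y Y₁ := by
  unfold alx
  simp only [hm_scale s t X X₁ Y Y₁ _ (by norm_num : 1 ≤ 12) (by norm_num : 0 ≤ 12),
    hm_scale s t X X₁ Y Y₁ _ (by norm_num : 1 ≤ 12) (by norm_num : 2 ≤ 12),
    hm_scale s t X X₁ Y Y₁ _ (by norm_num : 1 ≤ 12) (by norm_num : 4 ≤ 12),
    hm_scale s t X X₁ Y Y₁ _ (by norm_num : 5 ≤ 12) (by norm_num : 0 ≤ 12),
    hm_scale s t X X₁ Y Y₁ _ (by norm_num : 5 ≤ 12) (by norm_num : 4 ≤ 12), mul_add]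

theorem aly_scale (s t X X₁ Y Y₁ : R) :
    aly (Int.cast : ℤ → R) (s * X) (s * X₁) (t * Y) (t * Y₁) =
      (s ^ 12 * t ^ 12) * aly (Int.cast : ℤ → R) X X₁ Y Y₁ := by
  unfold aly
  simp only [hm_scale s t X X₁ Y Y₁ _ (by norm_num : 0 ≤ 12) (by norm_num : 1 ≤ 12),
    hm_scale s t X X₁ Y Y₁ _ (by norm_num : 2 ≤ 12) (by norm_num : 1 ≤ 12),
    hm_scale s t X X₁ Y Y₁ _ (by norm_num : 4 ≤ 12) (by norm_num : 1 ≤ 12),
    hm_scale s t X X₁ Y Y₁ _ (by norm_num : 0 ≤ 12) (by norm_num : 5 ≤ 12),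
    hm_scale s t X X₁ Y Y₁ _ (by norm_num : 4 ≤ 12) (by norm_num : 5 ≤ 12), mul_add]

theorem gax_scale (s t X X₁ Y Y₁ : R) :
    gax (Int.cast : ℤ → R) (s * X) (s * X₁) (t * Y) (t * Y₁) =
      (s ^ 12 * t ^ 12) * gax (Int.cast : ℤ → R) X X₁ Y Y₁ := by
  unfold gax
  simp only [hm_scale s t X X₁ Y Y₁ _ (by norm_num : 1 ≤ 12) (by norm_num : 0 ≤ 12),
    hm_scale s t X X₁ Y Y₁ _ (by norm_num : 3 ≤ 12) (by norm_num : 0 ≤ 12),
    hm_scale s t X X₁ Y Y₁ _ (by norm_num : 1 ≤ 12) (by norm_num : 4 ≤ 12), mul_add]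

theorem gay_scale (s t X X₁ Y Y₁ : R) :
    gay (Int.cast : ℤ → R) (s * X) (s * X₁) (t * Y) (t * Y₁) =
      (s ^ 12 * t ^ 12) * gay (Int.cast : ℤ → R) X X₁ Y Y₁ := by
  unfold gay
  simp only [hm_scale s t X X₁ Y Y₁ _ (by norm_num : 0 ≤ 12) (by norm_num : 1 ≤ 12),
    hm_scale s t X X₁ Y Y₁ _ (by norm_num : 0 ≤ 12) (by norm_num : 3 ≤ 12),
    hm_scale s t X X₁ Y Y₁ _ (by norm_num : 4 ≤ 12) (by norm_num : 1 ≤ 12), mul_add]

theorem dd_scale (r : R) (μ : ℕ → ℕ → R) (a b : ℕ) :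
    dd (fun a b => r * μ a b) a b = r ^ 2 * dd μ a b := by
  unfold dd; ring

theorem qq_scale (r : R) (μ : ℕ → ℕ → R) (i j : ℕ) (t₁ t₂ u₁ u₂ : R) :
    qq (fun a b => r * μ a b) i j (r * t₁) (r * t₂) (r * u₁) (r * u₂) =
      r ^ 4 * qq μ i j t₁ t₂ u₁ u₂ := by
  unfold qq
  simp only [dd_scale]
  ring

theorem lam_scale (r : R) (μ : ℕ → ℕ → R) :
    lam (fun a b => r * μ a b) = r ^ 4 * lam μ := by
  unfold lam
  simp only [dd_scale]
  ring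

theorem cf_scale (r : R) (μ : ℕ → ℕ → R) (ax ay gx gy : R) (k : ℕ) :
    cf (Int.cast : ℤ → R) (fun a b => r * μ a b) (r * ax) (r * ay) (r * gx) (r * gy) k =
      r ^ 4 * cf (Int.cast : ℤ → R) μ ax ay gx gy k := by
  have e0 : ((0 : ℤ) : R) = r * ((0 : ℤ) : R) := by simp
  have e1 : r * μ 1 0 + r * μ 1 0 + r * ax = r * (μ 1 0 + μ 1 0 + ax) := by ring
  have e2 : r * μ 2 0 + r * μ 2 0 + r * ay = r * (μ 2 0 + μ 2 0 + ay) := by ring
  have e3 : r * μ 2 0 + r * gy = r * (μ 2 0 + gy) := by ring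
  have e4 : r * μ 1 0 + r * gx = r * (μ 1 0 + gx) := by ring
  unfold cf
  split
  · rw [e1, e0, qq_scale, dd_scale, ← e0]; ring
  · rw [e1, e3, e4, e0, qq_scale, dd_scale, dd_scale, ← e0]; ring
  · rw [e1, e2, e0, qq_scale, dd_scale, lam_scale, ← e0]; ring
  · rw [e1, e2, e3, e4, e0, qq_scale, qq_scale, dd_scale, dd_scale, lam_scale, ← e0]; ring
  · rw [e2, e3, e4, e0, qq_scale, dd_scale, dd_scale, ← e0]; ring
  · rw [e2, e0, qq_scale, dd_scale, ← e0]; ring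
  · rw [lam_scale]

theorem cc_scale (s t X X₁ Y Y₁ : R) (k : ℕ) :
    cc (Int.cast : ℤ → R) (s * X) (s * X₁) (t * Y) (t * Y₁) k =
      (s ^ 48 * t ^ 48) * cc (Int.cast : ℤ → R) X X₁ Y Y₁ k := by
  unfold cc
  rw [alx_scale, aly_scale, gax_scale, gay_scale]
  have h1 : gram (Int.cast : ℤ → R) (s * X) (s * X₁) (t * Y) (t * Y₁) =
      fun a b => (s ^ 12 * t ^ 12) * gram (Int.cast : ℤ → R) X X₁ Y Y₁ a b := by
    funext a b; exact gram_scale _ _ _ _ _ _ _ _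
  rw [h1, cf_scale]
  ring

theorem ev_ce (a b : R) (k : ℕ) :
    Ex.ev a b (ce k) = cc (Int.cast : ℤ → R) a (a + 1) b (b + 1) k := by
  have h : Hm (Ex.ev a b) Ex.lit (Int.cast : ℤ → R) :=
    ⟨fun _ _ => rfl, fun _ _ => rfl, fun _ _ => rfl, fun _ => rfl⟩
  unfold ce
  rw [h.cc]
  have e1 : Ex.ev a b (Ex.x + Ex.lit 1) = a + 1 := by
    rw [Ex.ev_add]; simp [Ex.ev]
  have e2 : Ex.ev a b (Ex.y + Ex.lit 1) = b + 1 := by
    rw [Ex.ev_add]; simp [Ex.ev]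
  rw [e1, e2]
  rfl

end homog

/-! ### the Bernstein form -/

/-- the polynomials of the certificate on the square -/
noncomputable def cr (x y : ℝ) (k : ℕ) : ℝ := cc (Int.cast : ℤ → ℝ) x 1 y 1 k

theorem continuous_cr (k : ℕ) : Continuous fun p : ℝ × ℝ => cr p.1 p.2 k := by
  set X : C(ℝ × ℝ, ℝ) := ⟨Prod.fst, continuous_fst⟩
  set Y : C(ℝ × ℝ, ℝ) := ⟨Prod.snd, continuous_snd⟩
  have h : (fun p : ℝ × ℝ => cr p.1 p.2 k) =
      fun p => cc (Int.cast : ℤ → C(ℝ × ℝ, ℝ)) X 1 Y 1 k p := by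
    funext p
    have h1 : Hm (fun f : C(ℝ × ℝ, ℝ) => f p) (Int.cast : ℤ → C(ℝ × ℝ, ℝ)) (Int.cast : ℤ → ℝ) :=
      ⟨fun _ _ => rfl, fun _ _ => rfl, fun _ _ => rfl, fun z => by simp⟩
    exact (h1.cc X 1 Y 1 k).symm
  rw [h]
  exact (cc (Int.cast : ℤ → C(ℝ × ℝ, ℝ)) X 1 Y 1 k).continuous

/-- the Bernstein polynomials -/
noncomputable def bern (x y : ℝ) (i j : ℕ) : ℝ :=
  x ^ i * (1 - x) ^ (48 - i) * (y ^ j * (1 - y) ^ (48 - j))

theorem cr_eq {k : ℕ} (hk : k < 7) (x y : ℝ) :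
    cr x y k = ∑ j ∈ Finset.range 49, ∑ i ∈ Finset.range 49,
      (Ex.co (ce k) i j : ℝ) * bern x y i j := by
  have h1 : ∀ x y : ℝ, x ≠ 1 → y ≠ 1 → cr x y k = ∑ j ∈ Finset.range 49,
      ∑ i ∈ Finset.range 49, (Ex.co (ce k) i j : ℝ) * bern x y i j := by
    intro x y hx hy
    have hx' : 1 - x ≠ 0 := sub_ne_zero.2 hx.symm
    have hy' : 1 - y ≠ 0 := sub_ne_zero.2 hy.symm
    have e1 := ev_ce (x / (1 - x)) (y / (1 - y)) k
    have e2 : x / (1 - x) = (1 / (1 - x)) * x := by ring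
    have e3 : (1 / (1 - x)) * x + 1 = (1 / (1 - x)) * 1 := by field_simp; ring
    have e4 : y / (1 - y) = (1 / (1 - y)) * y := by ring
    have e5 : (1 / (1 - y)) * y + 1 = (1 / (1 - y)) * 1 := by field_simp; ring
    have e6 : cc (Int.cast : ℤ → ℝ) (x / (1 - x)) (x / (1 - x) + 1) (y / (1 - y))
        (y / (1 - y) + 1) k = ((1 / (1 - x)) ^ 48 * (1 / (1 - y)) ^ 48) * cr x y k := by
      rw [e2, e3, e4, e5, cc_scale]
      rfl
    rw [e6, Ex.ev_eq_sum _ _ _ (size_spec hk).2.1 (size_spec hk).2.2] at e1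
    have e7 : cr x y k = ((1 - x) ^ 48 * (1 - y) ^ 48) *
        (((1 / (1 - x)) ^ 48 * (1 / (1 - y)) ^ 48) * cr x y k) := by
      field_simp
    rw [e7, ← e1, Finset.mul_sum]
    refine Finset.sum_congr rfl fun j hj => ?_
    rw [Finset.mul_sum]
    refine Finset.sum_congr rfl fun i hi => ?_
    have hi' : i ≤ 48 := Nat.lt_succ_iff.1 (Finset.mem_range.1 hi)
    have hj' : j ≤ 48 := Nat.lt_succ_iff.1 (Finset.mem_range.1 hj)
    unfold bern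
    have f1 : (1 - x) ^ 48 = (1 - x) ^ (48 - i) * (1 - x) ^ i := by
      rw [← pow_add, Nat.sub_add_cancel hi']
    have f2 : (1 - y) ^ 48 = (1 - y) ^ (48 - j) * (1 - y) ^ j := by
      rw [← pow_add, Nat.sub_add_cancel hj']
    rw [f1, f2, div_pow, div_pow]
    field_simp
  have h2 : Set.EqOn (fun p : ℝ × ℝ => cr p.1 p.2 k) (fun p => ∑ j ∈ Finset.range 49,
      ∑ i ∈ Finset.range 49, (Ex.co (ce k) i j : ℝ) * bern p.1 p.2 i j)
      (({1} : Set ℝ)ᶜ ×ˢ ({1} : Set ℝ)ᶜ) := fun p hp => h1 p.1 p.2 hp.1 hp.2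
  have h3 := Continuous.ext_on
    ((dense_compl_singleton (1 : ℝ)).prod (dense_compl_singleton (1 : ℝ)))
    (continuous_cr k) (by unfold bern; fun_prop) h2
  exact congrFun h3 (x, y)

theorem posd_pos {a b d c e f : ℤ} (h : posd a b d c e f = true) {A m B : ℝ}
    (hne : A ≠ 0 ∨ m ≠ 0 ∨ B ≠ 0) :
    0 < a * A ^ 2 + b * (A * m) + d * m ^ 2 + c * (A * B) + e * (m * B) + (f : ℝ) * B ^ 2 := by
  unfold posd at h
  simp only [Bool.and_eq_true, decide_eq_true_eq] at h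
  obtain ⟨h1, h2, h3⟩ := h
  have h1' : (0 : ℝ) < a := by exact_mod_cast h1
  have h2' : (0 : ℝ) < 4 * (a * d) - b * b := by
    rw [sub_pos]; exact_mod_cast h2
  have h3' : (0 : ℝ) < 4 * (a * (d * f)) + b * (c * e) -
      (a * (e * e) + (d * (c * c) + f * (b * b))) := by
    rw [sub_pos]; exact_mod_cast h3
  set D : ℝ := 4 * (a * d) - b * b with hD
  set Δ : ℝ := 4 * (a * (d * f)) + b * (c * e) - (a * (e * e) + (d * (c * c) + f * (b * b)))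
    with hΔ
  have key : 4 * a * D * (a * A ^ 2 + b * (A * m) + d * m ^ 2 + c * (A * B) + e * (m * B) +
      (f : ℝ) * B ^ 2) = D * (2 * a * A + b * m + c * B) ^ 2 + (D * m + (2 * a * e - b * c) * B) ^ 2
      + 4 * a * Δ * B ^ 2 := by
    rw [hD, hΔ]; ring
  have hpos : 0 < D * (2 * a * A + b * m + c * B) ^ 2 + (D * m + (2 * a * e - b * c) * B) ^ 2
      + 4 * a * Δ * B ^ 2 := by
    by_cases hB : B = 0
    · subst hB
      by_cases hm : m = 0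
      · subst hm
        have hA : A ≠ 0 := by tauto
        have : 0 < (2 * a * A) ^ 2 := by positivity
        have := mul_pos h2' this
        nlinarith
      · have : 0 < (D * m) ^ 2 := by positivity
        have := mul_nonneg h2'.le (sq_nonneg (2 * a * A + b * m))
        nlinarith
    · have : 0 < 4 * a * Δ * B ^ 2 := by positivity
      have := mul_nonneg h2'.le (sq_nonneg (2 * a * A + b * m + c * B))
      have := sq_nonneg (D * m + (2 * a * e - b * c) * B)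
      linarith
  rw [← key] at hpos
  exact pos_of_mul_pos_right hpos (by positivity)

theorem bern_nonneg {x y : ℝ} (hx : x ∈ Set.Icc (0 : ℝ) 1) (hy : y ∈ Set.Icc (0 : ℝ) 1) (i j : ℕ) :
    0 ≤ bern x y i j := by
  have h1 := hx.1
  have h2 := hy.1
  have h3 : 0 ≤ 1 - x := sub_nonneg.2 hx.2
  have h4 : 0 ≤ 1 - y := sub_nonneg.2 hy.2
  unfold bern
  positivity

theorem exists_bern_pos {x y : ℝ} (hx : x ∈ Set.Icc (0 : ℝ) 1) (hy : y ∈ Set.Icc (0 : ℝ) 1) :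
    ∃ i ∈ Finset.range 49, ∃ j ∈ Finset.range 49, 0 < bern x y i j := by
  have key : ∀ x ∈ Set.Icc (0 : ℝ) 1, ∃ i ∈ Finset.range 49, 0 < x ^ i * (1 - x) ^ (48 - i) := by
    intro x hx
    rcases eq_or_lt_of_le hx.2 with h | h
    · exact ⟨48, by simp, by rw [h]; norm_num⟩
    · refine ⟨0, by simp, ?_⟩
      have : 0 < 1 - x := sub_pos.2 h
      simp only [pow_zero, one_mul]
      positivity
  obtain ⟨i, hi, h1⟩ := key x hx
  obtain ⟨j, hj, h2⟩ := key y hy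
  exact ⟨i, hi, j, hj, mul_pos h1 h2⟩

/-- **The certificate.** -/
theorem cert {x y : ℝ} (hx : x ∈ Set.Icc (0 : ℝ) 1) (hy : y ∈ Set.Icc (0 : ℝ) 1) {A m B : ℝ}
    (hne : A ≠ 0 ∨ m ≠ 0 ∨ B ≠ 0) :
    0 < cr x y 0 * A ^ 2 + cr x y 1 * (A * m) + cr x y 2 * m ^ 2 + cr x y 3 * (A * B) +
      cr x y 4 * (m * B) + cr x y 5 * B ^ 2 := by
  have h : cr x y 0 * A ^ 2 + cr x y 1 * (A * m) + cr x y 2 * m ^ 2 + cr x y 3 * (A * B) +
      cr x y 4 * (m * B) + cr x y 5 * B ^ 2 = ∑ j ∈ Finset.range 49, ∑ i ∈ Finset.range 49,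
      (Ex.co (ce 0) i j * A ^ 2 + Ex.co (ce 1) i j * (A * m) + Ex.co (ce 2) i j * m ^ 2 +
        Ex.co (ce 3) i j * (A * B) + Ex.co (ce 4) i j * (m * B) + (Ex.co (ce 5) i j : ℝ) * B ^ 2)
        * bern x y i j := by
    rw [cr_eq (by norm_num : 0 < 7), cr_eq (by norm_num : 1 < 7), cr_eq (by norm_num : 2 < 7),
      cr_eq (by norm_num : 3 < 7), cr_eq (by norm_num : 4 < 7), cr_eq (by norm_num : 5 < 7)]
    simp only [Finset.sum_mul, ← Finset.sum_add_distrib]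
    refine Finset.sum_congr rfl fun j _ => Finset.sum_congr rfl fun i _ => ?_
    ring
  rw [h]
  have hnn : ∀ j ∈ Finset.range 49, ∀ i ∈ Finset.range 49, 0 ≤
      (Ex.co (ce 0) i j * A ^ 2 + Ex.co (ce 1) i j * (A * m) + Ex.co (ce 2) i j * m ^ 2 +
        Ex.co (ce 3) i j * (A * B) + Ex.co (ce 4) i j * (m * B) + (Ex.co (ce 5) i j : ℝ) * B ^ 2)
        * bern x y i j := fun j hj i hi =>
    mul_nonneg (posd_pos (co_spec (Finset.mem_range.1 hi) (Finset.mem_range.1 hj)).1 hne).le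
      (bern_nonneg hx hy i j)
  obtain ⟨i, hi, j, hj, hij⟩ := exists_bern_pos hx hy
  refine Finset.sum_pos' (fun j hj => Finset.sum_nonneg (hnn j hj)) ⟨j, hj, ?_⟩
  refine Finset.sum_pos' (hnn j hj) ⟨i, hi, ?_⟩
  exact mul_pos (posd_pos (co_spec (Finset.mem_range.1 hi) (Finset.mem_range.1 hj)).1 hne) hij

theorem lam_nonneg {x y : ℝ} (hx : x ∈ Set.Icc (0 : ℝ) 1) (hy : y ∈ Set.Icc (0 : ℝ) 1) :
    0 ≤ cr x y 6 := by
  rw [cr_eq (by norm_num : 6 < 7)]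
  refine Finset.sum_nonneg fun j hj => Finset.sum_nonneg fun i hi => ?_
  refine mul_nonneg ?_ (bern_nonneg hx hy i j)
  exact_mod_cast (co_spec (Finset.mem_range.1 hi) (Finset.mem_range.1 hj)).2

end Pool.Agent.Q44.HS
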