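import Pool.Agent.Q44.HS.Wirt

/-! Hermitian forms. -/

set_option autoImplicit false

open scoped ComplexConjugate Topology ContDiff Matrix
open Pool.Agent.W549.CY (Cn dz dzbar)

namespace Pool.Agent.Q44.HS

/-- the sesquilinear form of a matrix -/
noncomputable def sf {n : ℕ} (A : Matrix (Fin n) (Fin n) ℂ) (v w : Cn n) : ℂ :=
  ∑ j, ∑ k, A j k * v j * conj (w k)

theorem sf_add_left {n : ℕ} (A : Matrix (Fin n) (Fin n) ℂ) (v v' w : Cn n) :
    sf A (v + v') w = sf A v w + sf A v' w := by
  unfold sf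
  simp only [Pi.add_apply, mul_add, add_mul, Finset.sum_add_distrib]

theorem sf_add_right {n : ℕ} (A : Matrix (Fin n) (Fin n) ℂ) (v w w' : Cn n) :
    sf A v (w + w') = sf A v w + sf A v w' := by
  unfold sf
  simp only [Pi.add_apply, map_add, mul_add, Finset.sum_add_distrib]

theorem sf_smul_left {n : ℕ} (A : Matrix (Fin n) (Fin n) ℂ) (c : ℂ) (v w : Cn n) :
    sf A (c • v) w = c * sf A v w := by
  unfold sf
  simp only [Pi.smul_apply, smul_eq_mul, Finset.mul_sum]
  refine Finset.sum_congr rfl fun j _ => Finset.sum_congr rfl fun k _ => ?_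
  ring

theorem sf_smul_right {n : ℕ} (A : Matrix (Fin n) (Fin n) ℂ) (c : ℂ) (v w : Cn n) :
    sf A v (c • w) = conj c * sf A v w := by
  unfold sf
  simp only [Pi.smul_apply, smul_eq_mul, Finset.mul_sum, map_mul]
  refine Finset.sum_congr rfl fun j _ => Finset.sum_congr rfl fun k _ => ?_
  ring

theorem sf_single {n : ℕ} (A : Matrix (Fin n) (Fin n) ℂ) (j k : Fin n) :
    sf A (Pi.single j 1) (Pi.single k 1) = A j k := by
  unfold sf
  rw [Finset.sum_eq_single j, Finset.sum_eq_single k]
  · simp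
  · intro b _ hb
    rw [Pi.single_eq_of_ne hb]
    simp
  · simp
  · intro b _ hb
    rw [Pi.single_eq_of_ne hb]
    simp
  · simp

/-- polarisation -/
theorem sf_eq_hf {n : ℕ} (A : Matrix (Fin n) (Fin n) ℂ) (v w : Cn n) :
    4 * sf A v w = sf A (v + w) (v + w) - sf A (v + (-1 : ℂ) • w) (v + (-1 : ℂ) • w) +
      Complex.I * (sf A (v + Complex.I • w) (v + Complex.I • w) -
        sf A (v + (-Complex.I) • w) (v + (-Complex.I) • w)) := by
  simp only [sf_add_left, sf_add_right, sf_smul_left, sf_smul_right, map_neg, map_one,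
    Complex.conj_I]
  linear_combination (sf A v w * 2 - sf A w v * 2) * Complex.I_sq

/-- equality of sesquilinear forms, along a linear map. -/
theorem sf_pull {n : ℕ} {A B : Matrix (Fin n) (Fin n) ℂ} {L : Cn n →L[ℂ] Cn n}
    (h : ∀ v, sf A v v = sf B (L v) (L v)) (v w : Cn n) : sf A v w = sf B (L v) (L w) := by
  have h1 := sf_eq_hf A v w
  have h2 := sf_eq_hf B (L v) (L w)
  simp only [h, map_add, map_smul] at h1
  rw [← h2] at h1
  exact mul_left_cancel₀ (by norm_num) h1

theorem sf_right_sum {n : ℕ} (B : Matrix (Fin n) (Fin n) ℂ) (v w : Cn n) :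
    sf B v w = ∑ a, ∑ b, v a * conj (w b) * B a b := by
  unfold sf
  refine Finset.sum_congr rfl fun j _ => Finset.sum_congr rfl fun k _ => ?_
  ring

theorem sf_of_transform {n : ℕ} {A B : Matrix (Fin n) (Fin n) ℂ} {L : Cn n →L[ℂ] Cn n}
    (h : ∀ j k, A j k = ∑ a, ∑ b, L (Pi.single j 1) a * conj (L (Pi.single k 1) b) * B a b)
    (v : Cn n) : sf A v v = sf B (L v) (L v) := by
  have h1 : ∀ j k, A j k = sf B (L (Pi.single j 1)) (L (Pi.single k 1)) := fun j k => by
    rw [sf_right_sum, h]
  have h2 : v = ∑ j, v j • (Pi.single j 1 : Cn n) := by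
    funext i
    simp [Finset.sum_apply, Pi.single_apply]
  have hl : ∀ (s : Finset (Fin n)) (f : Fin n → Cn n) (w : Cn n),
      sf B (∑ j ∈ s, f j) w = ∑ j ∈ s, sf B (f j) w := by
    intro s f w
    induction s using Finset.induction_on with
    | empty => simp [sf]
    | insert a s ha ih => rw [Finset.sum_insert ha, Finset.sum_insert ha, sf_add_left, ih]
  have hr : ∀ (s : Finset (Fin n)) (f : Fin n → Cn n) (w : Cn n),
      sf B w (∑ j ∈ s, f j) = ∑ j ∈ s, sf B w (f j) := by
    intro s f w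
    induction s using Finset.induction_on with
    | empty => simp [sf]
    | insert a s ha ih => rw [Finset.sum_insert ha, Finset.sum_insert ha, sf_add_right, ih]
  have h3 : L v = ∑ j, v j • L (Pi.single j 1) := by
    conv_lhs => rw [h2]
    rw [map_sum]
    simp only [map_smul]
  have h5 : sf A v v = ∑ j, ∑ k, A j k * v j * conj (v k) := rfl
  rw [h3, hl, h5]
  refine Finset.sum_congr rfl fun j _ => ?_
  rw [hr]
  refine Finset.sum_congr rfl fun k _ => ?_
  rw [sf_smul_left, sf_smul_right, ← h1]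
  ring

open ComplexOrder in
theorem posDef_iff_sf {n : ℕ} {A : Matrix (Fin n) (Fin n) ℂ} :
    A.PosDef ↔ A.IsHermitian ∧ ∀ v : Cn n, v ≠ 0 → 0 < (sf A v v).re := by
  have hb : ∀ v : Cn n, star v ⬝ᵥ (A *ᵥ v) = sf A (star v) (star v) := by
    intro v
    unfold sf dotProduct Matrix.mulVec dotProduct
    simp only [Finset.mul_sum]
    refine Finset.sum_congr rfl fun j _ => Finset.sum_congr rfl fun k _ => ?_
    simp only [Pi.star_apply, RCLike.star_def, Complex.conj_conj]
    ring
  rw [Matrix.posDef_iff_dotProduct_mulVec]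
  constructor
  · rintro ⟨h1, h2⟩
    refine ⟨h1, fun v hv => ?_⟩
    have h3 := h2 (x := star v) (by rwa [ne_eq, star_eq_zero])
    rw [hb, star_star] at h3
    exact (Complex.pos_iff.1 h3).1
  · rintro ⟨h1, h2⟩
    refine ⟨h1, fun v hv => ?_⟩
    rw [hb, Complex.pos_iff]
    refine ⟨h2 _ (by rwa [ne_eq, star_eq_zero]), ?_⟩
    have h4 : conj (sf A (star v) (star v)) = sf A (star v) (star v) := by
      unfold sf
      simp only [map_sum, map_mul, Complex.conj_conj]
      rw [Finset.sum_comm]
      refine Finset.sum_congr rfl fun j _ => Finset.sum_congr rfl fun k _ => ?_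
      have := h1.apply j k
      rw [RCLike.star_def] at this
      rw [this]
      ring
    exact (Complex.conj_eq_iff_im.1 h4).symm

theorem sf_zero_left {n : ℕ} (A : Matrix (Fin n) (Fin n) ℂ) (w : Cn n) : sf A 0 w = 0 := by
  unfold sf; simp

open ComplexOrder in
theorem sf_nonneg {n : ℕ} {A : Matrix (Fin n) (Fin n) ℂ} (hA : A.PosDef) (v : Cn n) :
    0 ≤ (sf A v v).re := by
  by_cases hv : v = 0
  · rw [hv, sf_zero_left]; simp
  · exact ((posDef_iff_sf.1 hA).2 v hv).le

/-- Completing the square. -/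
theorem complete_square {n : ℕ} {G : Matrix (Fin n) (Fin n) ℂ} (hG : G.IsHermitian)
    (hu : IsUnit G.det) (a w : Cn n) :
    (∑ p, ∑ q, G⁻¹ q p * a q * conj (a p)) + ∑ p, w p * conj (a p) + ∑ p, a p * conj (w p)
      + sf G w w = sf G (Matrix.vecMul a G⁻¹ + w) (Matrix.vecMul a G⁻¹ + w) := by
  set b : Cn n := Matrix.vecMul a G⁻¹ with hb
  have ha : a = Matrix.vecMul b G := by
    rw [hb, Matrix.vecMul_vecMul, Matrix.nonsing_inv_mul _ hu, Matrix.vecMul_one]
  have h1 : ∀ x : Cn n, sf G b x = ∑ p, a p * conj (x p) := by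
    intro x
    conv_rhs => rw [ha]
    unfold sf Matrix.vecMul dotProduct
    simp only [Finset.sum_mul]
    rw [Finset.sum_comm]
    refine Finset.sum_congr rfl fun p _ => Finset.sum_congr rfl fun q _ => ?_
    ring
  have h2 : ∀ x : Cn n, sf G x b = ∑ p, x p * conj (a p) := by
    intro x
    have h3 : ∀ p, conj (a p) = ∑ q, G p q * conj (b q) := by
      intro p
      conv_lhs => rw [ha]
      unfold Matrix.vecMul dotProduct
      rw [map_sum]
      refine Finset.sum_congr rfl fun q _ => ?_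
      rw [map_mul]
      have := hG.apply p q
      rw [RCLike.star_def] at this
      rw [this]
      ring
    unfold sf
    refine Finset.sum_congr rfl fun p _ => ?_
    rw [h3, Finset.mul_sum]
    refine Finset.sum_congr rfl fun q _ => ?_
    ring
  have h4 : ∑ p, ∑ q, G⁻¹ q p * a q * conj (a p) = ∑ p, b p * conj (a p) := by
    refine Finset.sum_congr rfl fun p _ => ?_
    rw [hb]
    unfold Matrix.vecMul dotProduct
    rw [Finset.sum_mul]
    refine Finset.sum_congr rfl fun q _ => ?_
    ring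
  rw [h4, ← h2 b, ← h2 w, ← h1 w, sf_add_left, sf_add_right, sf_add_right]
  ring

end Pool.Agent.Q44.HS
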