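import Pool.Agent.Q44.HS.SurfB

/-! The metric on the surface has positive holomorphic sectional curvature. -/

set_option autoImplicit false

open scoped ComplexConjugate Topology ContDiff Manifold
open OnePoint (infty)
open Pool.Agent.W549.CY (Cn dz dzbar HermitianMetric)
open Pool.Agent.TH598 (IsKahler)

namespace Pool.Agent.Q44.HS

/-- The metric. -/
noncomputable def met : HermitianMetric 2 Surf where
  g _ := G
  smooth _ _ j k := (contDiff_G j k).contDiffOn
  posDef _ _ z _ := G_posDef z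
  transform := by
    rintro e ⟨j, rfl⟩ e' ⟨k, rfl⟩ x hx a b
    have hd : (T ^ (k - j)) (io (E j x)) ∈ E0.source := by
      refine mem_dom ?_
      rw [(E j).left_inv hx.1]
      exact hx.2
    have h1 : trans (k - j) (E j x) = E k x := by
      rw [← E_comp_symm, Function.comp_apply, (E j).left_inv hx.1]
    have h2 := (trans_good hd).transform a b
    rw [h1] at h2
    rw [E_comp_symm]
    exact h2

theorem isKahler_met : IsKahler met := fun _ _ z _ i j k => G_kahler i j k z

theorem fderiv_trans {k : ℤ} {z : Cn 2} (h : (T ^ k) (io z) ∈ E0.source) (v : Cn 2) :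
    fderiv ℂ (trans (-k)) (trans k z) (fderiv ℂ (trans k) z v) = v := by
  have h' : (T ^ (-k)) (io (trans k z)) ∈ E0.source := by
    unfold trans
    rw [io_E0 h, ← Homeomorph.mul_apply, ← zpow_add, neg_add_cancel, zpow_zero,
      Homeomorph.one_apply]
    exact io_mem z
  have d1 : DifferentiableAt ℂ (trans k) z := (trans_good h).contDiff.differentiableAt (by simp)
  have d2 : DifferentiableAt ℂ (trans (-k)) (trans k z) :=
    (trans_good h').contDiff.differentiableAt (by simp)
  have d3 := d2.hasFDerivAt.comp z d1.hasFDerivAt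
  have h3 : (trans (-k) ∘ trans k) =ᶠ[𝓝 z] fun w => w := by
    filter_upwards [(isOpen_dom k).mem_nhds h] with w hw
    exact trans_neg hw
  have h4 := (hasFDerivAt_id (𝕜 := ℂ) z).congr_of_eventuallyEq h3
  have h5 := d3.unique h4
  have h6 := congrArg (fun L : Cn 2 →L[ℂ] Cn 2 => L v) h5
  simpa using h6

/-- Positivity of the curvature. -/
theorem curvatureForm_pos (z : Cn 2) {v : Cn 2} (hv : v ≠ 0) : 0 < curvatureForm G z v := by
  obtain ⟨n, _, w, hw, hw0, hw1⟩ := exists_bidisc (io z)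
  set k : ℤ := (n : ℤ)
  have h : (T ^ k) (io z) ∈ E0.source := by rw [hw]; exact io_mem w
  have hkz : trans k z = w := by unfold trans; rw [hw, E0_io]
  have h' : (T ^ (-k)) (io w) ∈ E0.source := by
    rw [← hw, ← Homeomorph.mul_apply, ← zpow_add, neg_add_cancel, zpow_zero,
      Homeomorph.one_apply]
    exact io_mem z
  have hkw : trans (-k) w = z := by rw [← hkz]; exact trans_neg h
  set u : Cn 2 := fderiv ℂ (trans k) z v with hu
  have hu1 : fderiv ℂ (trans (-k)) w u = v := by rw [← hkz]; exact fderiv_trans h v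
  have hu0 : u ≠ 0 := by
    intro h0
    rw [h0, map_zero] at hu1
    exact hv hu1.symm
  obtain ⟨γ', γ₁', γ₂', c0, c1, c2, c3, c4, c5⟩ := exists_curve hw0 hw1 hu0
  set τ := trans (-k) with hτ
  set γ : ℂ → Cn 2 := fun t => τ (γ' t) with hγ
  set γ₁ : ℂ → Cn 2 := fun t => fderiv ℂ τ (γ' t) (γ₁' t) with hγ₁
  have hγ'c : ContinuousAt γ' 0 := (c2 0).continuousAt
  have hdom : ∀ᶠ t in 𝓝 (0 : ℂ), (T ^ (-k)) (io (γ' t)) ∈ E0.source := by
    have h5 : ∀ᶠ x in 𝓝 (γ' 0), (T ^ (-k)) (io x) ∈ E0.source := by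
      rw [c0]
      exact (isOpen_dom (-k)).mem_nhds h'
    exact hγ'c.eventually h5
  have e1 : ∀ᶠ t in 𝓝 (0 : ℂ), HasDerivAt γ (γ₁ t) t := by
    filter_upwards [hdom] with t ht
    have d1 : DifferentiableAt ℂ τ (γ' t) := (trans_good ht).contDiff.differentiableAt (by simp)
    exact d1.hasFDerivAt.comp_hasDerivAt t (c2 t)
  have hγ'a : AnalyticAt ℂ γ' 0 :=
    Differentiable.analyticAt (fun t => (c2 t).differentiableAt) 0
  have hτa : AnalyticAt ℂ τ (γ' 0) := by
    rw [c0]
    exact (trans_good h').contDiff.analyticAt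
  have hγa : AnalyticAt ℂ γ 0 := hτa.comp hγ'a
  have hγ₁a : AnalyticAt ℂ γ₁ 0 := by
    refine hγa.deriv.congr ?_
    filter_upwards [e1] with t ht
    exact ht.deriv
  have e2 : ∀ᶠ t in 𝓝 (0 : ℂ), HasDerivAt γ₁ (deriv γ₁ t) t := by
    filter_upwards [hγ₁a.eventually_analyticAt] with t ht
    exact ht.differentiableAt.hasDerivAt
  have key := neg_le_curvatureForm (g := G) (z := z) (v := v) (γ := γ) (γ₁ := γ₁) (γ₂ := deriv γ₁)
    (fun i j => Filter.Eventually.of_forall fun x => (contDiff_G i j).contDiffAt)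
    (Filter.Eventually.of_forall G_posDef) (by rw [hγ]; simp only [c0]; exact hkw) e1 e2
    hγ₁a.deriv.differentiableAt (by rw [hγ₁]; simp only [c0, c1]; exact hu1)
  have e3 : spd G γ γ₁ =ᶠ[𝓝 0] fun s => sp (fs 0 (γ' s)) (g1 (γ' s) (γ₁' s)) := by
    filter_upwards [hdom] with t ht
    have h1 := (trans_good ht).sf (γ₁' t)
    have h2 : spd G γ γ₁ t = sf (G (τ (γ' t))) (fderiv ℂ τ (γ' t) (γ₁' t))
      (fderiv ℂ τ (γ' t) (γ₁' t)) := rfl
    rw [h2, ← h1, sf_G]
  rw [dt_congr (eventually_db e3)] at key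
  linarith

theorem holSec_pos (z : Cn 2) {v : Cn 2} (hv : v ≠ 0) : 0 < holSec G z v := by
  unfold holSec
  refine div_pos (curvatureForm_pos z hv) (pow_pos ?_ 2)
  exact sf_G_pos z hv

end Pool.Agent.Q44.HS
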