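import Pool.Agent.Q44.HS.PtC

/-! The metric. -/

set_option autoImplicit false

open scoped ComplexConjugate Topology ContDiff
open Pool.Agent.W549.CY (Cn dz dzbar)

namespace Pool.Agent.Q44.HS

/-- The metric `i ∂∂̄ log P`. -/
noncomputable def G (z : Cn 2) : Matrix (Fin 2) (Fin 2) ℂ :=
  Matrix.of fun j k => gb (fs 0 z) (fs (j + 1) z) (fs (k + 1) z) / pair (fs 0 z) (fs 0 z) ^ 2

theorem G_apply (z : Cn 2) (j k : Fin 2) : G z j k =
    gb (fs 0 z) (fs (j + 1) z) (fs (k + 1) z) / pair (fs 0 z) (fs 0 z) ^ 2 := rfl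

theorem sf_G (z v : Cn 2) : sf (G z) v v = sp (fs 0 z) (g1 z v) := by
  unfold sf sp g1
  rw [gd_eq_gb]
  simp only [Fin.sum_univ_two, G_apply, Fin.val_zero, Fin.val_one, zero_add, Nat.reduceAdd,
    gb_add_left, gb_add_right, gb_smul_left, gb_smul_right]
  ring

theorem spd_G (γ γ₁ : ℂ → Cn 2) (t : ℂ) : spd G γ γ₁ t = sp (fs 0 (γ t)) (g1 (γ t) (γ₁ t)) := by
  rw [← sf_G]
  rfl

theorem gb_conj (f ξ η : V) : conj (gb f ξ η) = gb f η ξ := by
  unfold gb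
  simp only [map_sub, map_mul, conj_pair]
  ring

theorem G_isHermitian (z : Cn 2) : (G z).IsHermitian := by
  refine Matrix.IsHermitian.ext fun j k => ?_
  rw [RCLike.star_def, G_apply, G_apply, map_div₀, gb_conj, map_pow, conj_pair]

/-- strict Cauchy-Schwarz -/
theorem gd_pos (z : Cn 2) {v : Cn 2} (hv : v ≠ 0) :
    ∃ r : ℝ, 0 < r ∧ gd (fs 0 z) (g1 z v) = r := by
  set f := fs 0 z
  set g := g1 z v
  have hp := pair_self_pos (fs0_ne z)
  have hpf := pair_self f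
  set p : ℝ := ∑ m ∈ K, (m.2.2 : ℝ) * Complex.normSq (fs 0 z m) with hpdef
  have h1 := gd_mul f g
  set ξ := pair f f • g + (-pair g f) • f with hξ
  have h2 := pair_self ξ
  have h3 : ∃ m ∈ K, ξ m ≠ 0 := by
    by_contra hcon
    push Not at hcon
    have a0 := hcon _ mem_K0
    have a1 := hcon _ mem_K1
    have a2 := hcon _ mem_K2
    simp only [hξ, Pi.add_apply, Pi.smul_apply, smul_eq_mul] at a0 a1 a2
    have b0 : f (0, 0, 1) = 1 := by simp [f, fs0]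
    have b1 : g (0, 0, 1) = 0 := by simp [g, g1, fs1, fs2]
    have b2 : g (1, 0, 4) = v 0 := by simp [g, g1, fs1, fs2]
    have b3 : g (0, 1, 4) = v 1 := by simp [g, g1, fs1, fs2]
    rw [b0, b1] at a0
    have a3 : pair g f = 0 := by simpa using a0
    rw [b2, a3] at a1
    rw [b3, a3] at a2
    have hne : pair f f ≠ 0 := pair_fs0_ne z
    apply hv
    funext i
    fin_cases i
    · simpa [hne] using a1
    · simpa [hne] using a2
  have h4 := pair_self_pos h3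
  set q : ℝ := ∑ m ∈ K, (m.2.2 : ℝ) * Complex.normSq (ξ m)
  refine ⟨q / p, by positivity, ?_⟩
  rw [h2, hpf] at h1
  have hp0 : (p : ℂ) ≠ 0 := Complex.ofReal_ne_zero.2 hp.ne'
  push_cast
  field_simp
  rw [mul_comm, ← h1]

theorem sf_G_pos (z : Cn 2) {v : Cn 2} (hv : v ≠ 0) : 0 < (sf (G z) v v).re := by
  rw [sf_G]
  unfold sp
  obtain ⟨r, hr, h⟩ := gd_pos z hv
  have hp := pair_self_pos (fs0_ne z)
  rw [h, pair_self]
  set p : ℝ := ∑ m ∈ K, (m.2.2 : ℝ) * Complex.normSq (fs 0 z m) with hpdef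
  rw [← Complex.ofReal_pow, ← Complex.ofReal_div, Complex.ofReal_re]
  positivity

open ComplexOrder in
theorem G_posDef (z : Cn 2) : (G z).PosDef :=
  posDef_iff_sf.2 ⟨G_isHermitian z, fun _ hv => sf_G_pos z hv⟩

/-! ### smoothness -/

theorem contDiff_fs (k : ℕ) (m : ℕ × ℕ × ℤ) : ContDiff ℝ ∞ fun z : Cn 2 => fs k z m := by
  unfold fs fam
  split <;> simp only [mon_cast] <;> fun_prop

theorem contDiff_conj {f : Cn 2 → ℂ} (h : ContDiff ℝ ∞ f) : ContDiff ℝ ∞ fun z => conj (f z) :=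
  Complex.conjCLE.contDiff.comp h

theorem contDiff_pair (a b : ℕ) : ContDiff ℝ ∞ fun z : Cn 2 => pair (fs a z) (fs b z) := by
  unfold pair
  exact ContDiff.sum fun m _ => contDiff_const.mul
    ((contDiff_fs a m).mul (contDiff_conj (contDiff_fs b m)))

theorem contDiff_G (j k : Fin 2) : ContDiff ℝ ∞ fun z : Cn 2 => G z j k := by
  simp only [G_apply, gb, div_eq_mul_inv]
  refine ContDiff.mul ?_ (((contDiff_pair 0 0).pow 2).inv fun z => pow_ne_zero 2 (pair_fs0_ne z))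
  exact ((contDiff_pair 0 0).mul (contDiff_pair _ _)).sub
    ((contDiff_pair _ _).mul (contDiff_pair _ _))

/-! ### the Kähler condition -/

theorem dz_eq_dt {u : Cn 2 → ℂ} {z : Cn 2} (hu : DifferentiableAt ℝ u z) (i : Fin 2) :
    dz i u z = dt (fun τ => u (z + τ • (Pi.single i 1 : Cn 2))) 0 := by
  have h1 : HasDerivAt (fun τ : ℂ => z + τ • (Pi.single i 1 : Cn 2)) (Pi.single i 1) 0 := by
    have := ((hasDerivAt_id (0 : ℂ)).smul_const (Pi.single i 1 : Cn 2)).const_add z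
    rwa [one_smul] at this
  have h2 := hasW_comp (u := u) (γ := fun τ : ℂ => z + τ • (Pi.single i 1 : Cn 2)) (t := 0)
    (by simpa using hu) h1
  rw [h2.dt]
  simp [Pi.single_apply]

theorem dz_G (i j k : Fin 2) (z : Cn 2) : dz i (fun w => G w j k) z =
    (pair (fs (i + 1) z) (fs 0 z) * pair (fs (j + 1) z) (fs (k + 1) z) +
      pair (fs 0 z) (fs 0 z) * pair (fs (i + j + 3) z) (fs (k + 1) z) -
      (pair (fs (i + j + 3) z) (fs 0 z) * pair (fs 0 z) (fs (k + 1) z) +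
        pair (fs (j + 1) z) (fs 0 z) * pair (fs (i + 1) z) (fs (k + 1) z))) /
      pair (fs 0 z) (fs 0 z) ^ 2 -
    2 * gb (fs 0 z) (fs (j + 1) z) (fs (k + 1) z) * pair (fs (i + 1) z) (fs 0 z) /
      pair (fs 0 z) (fs 0 z) ^ 3 := by
  rw [dz_eq_dt ((contDiff_G j k).differentiable (by simp)).differentiableAt]
  set γ : ℂ → Cn 2 := fun τ => z + τ • (Pi.single i 1 : Cn 2) with hγ
  have h1 : HasDerivAt γ (Pi.single i 1) 0 := by
    have := ((hasDerivAt_id (0 : ℂ)).smul_const (Pi.single i 1 : Cn 2)).const_add z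
    rwa [one_smul] at this
  have hγ0 : γ 0 = z := by simp [hγ]
  have a0 : ∀ m ∈ K, HasDerivAt (fun s => fs 0 (γ s) m) (fs (i + 1) z m) 0 := by
    intro m _
    refine (hasDerivAt_fs0 h1 m).congr_deriv ?_
    rw [hγ0]
    fin_cases i <;> simp
  have a1 : ∀ l : Fin 2, ∀ m ∈ K,
      HasDerivAt (fun s => fs (l + 1) (γ s) m) (fs (i + l + 3) z m) 0 := by
    intro l m _
    fin_cases l
    · refine (hasDerivAt_fs1 h1 m).congr_deriv ?_
      rw [hγ0]
      fin_cases i <;> simp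
    · refine (hasDerivAt_fs2 h1 m).congr_deriv ?_
      rw [hγ0]
      fin_cases i <;> simp
  have w00 := hasW_pair (f := fun s => fs 0 (γ s)) (g := fun s => fs 0 (γ s)) a0 a0
  have wjk := hasW_pair (f := fun s => fs (j + 1) (γ s)) (g := fun s => fs (k + 1) (γ s))
    (a1 j) (a1 k)
  have wj0 := hasW_pair (f := fun s => fs (j + 1) (γ s)) (g := fun s => fs 0 (γ s)) (a1 j) a0
  have w0k := hasW_pair (f := fun s => fs 0 (γ s)) (g := fun s => fs (k + 1) (γ s)) a0 (a1 k)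
  have hne : pair (fs 0 (γ 0)) (fs 0 (γ 0)) ≠ 0 := pair_fs0_ne _
  have h2 := ((w00.mul wjk).sub (wj0.mul w0k)).div (w00.mul w00) (mul_ne_zero hne hne)
  have h3 : (fun τ => G (γ τ) j k) = fun s => (pair (fs 0 (γ s)) (fs 0 (γ s)) *
      pair (fs (j + 1) (γ s)) (fs (k + 1) (γ s)) - pair (fs (j + 1) (γ s)) (fs 0 (γ s)) *
      pair (fs 0 (γ s)) (fs (k + 1) (γ s))) /
      (pair (fs 0 (γ s)) (fs 0 (γ s)) * pair (fs 0 (γ s)) (fs 0 (γ s))) := by
    funext s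
    rw [G_apply, gb, sq]
  rw [h3, h2.dt]
  simp only [hγ0] at hne ⊢
  unfold gb
  field_simp
  ring

theorem G_kahler (i j k : Fin 2) (z : Cn 2) :
    dz i (fun w => G w j k) z = dz j (fun w => G w i k) z := by
  rw [dz_G, dz_G, add_comm (j : ℕ) (i : ℕ)]
  unfold gb
  have hne := pair_fs0_ne z
  field_simp
  ring

/-! ### the transformation law -/

theorem pair_congr {f f' g g' : V} (hf : ∀ m ∈ K, f m = f' m) (hg : ∀ m ∈ K, g m = g' m) :
    pair f g = pair f' g' := by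
  unfold pair
  refine Finset.sum_congr rfl fun m hm => ?_
  rw [hf m hm, hg m hm]

theorem sp_congr {f f' g g' : V} (hf : ∀ m ∈ K, f m = f' m) (hg : ∀ m ∈ K, g m = g' m) :
    sp f g = sp f' g' := by
  unfold sp gd
  rw [pair_congr hf hf, pair_congr hg hg, pair_congr hf hg, pair_congr hg hf]

/-- a permutation of the monomials which preserves the weights -/
structure Sym (ρ : ℕ × ℕ × ℤ → ℕ × ℕ × ℤ) : Prop where
  mem : ∀ m ∈ wts, ρ m ∈ wts
  wt : ∀ m ∈ wts, (ρ m).2.2 = m.2.2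
  surj : ∀ m ∈ wts, ∃ m' ∈ wts, ρ m' = m

theorem Sym.pair {ρ : ℕ × ℕ × ℤ → ℕ × ℕ × ℤ} (h : Sym ρ) (f g : V) :
    pair (fun m => f (ρ m)) (fun m => g (ρ m)) = HS.pair f g := by
  have hmem : ∀ m ∈ K, ρ m ∈ K := fun m hm => List.mem_toFinset.2 (h.mem m (List.mem_toFinset.1 hm))
  have hsurj : Set.SurjOn ρ K K := by
    intro m hm
    obtain ⟨m', hm', e⟩ := h.surj m (List.mem_toFinset.1 hm)
    exact ⟨m', List.mem_toFinset.2 hm', e⟩
  have hinj : Set.InjOn ρ K := Finset.injOn_of_surjOn_of_card_le ρ hmem hsurj le_rfl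
  unfold HS.pair
  refine Finset.sum_bij (fun m _ => ρ m) hmem (fun a ha b hb => hinj ha hb)
    (fun b hb => ?_) (fun m hm => ?_)
  · obtain ⟨a, ha, e⟩ := hsurj hb
    exact ⟨a, ha, e⟩
  · rw [h.wt m (List.mem_toFinset.1 hm)]

theorem Sym.sp {ρ : ℕ × ℕ × ℤ → ℕ × ℕ × ℤ} (h : Sym ρ) (f g : V) :
    sp (fun m => f (ρ m)) (fun m => g (ρ m)) = HS.sp f g := by
  unfold HS.sp gd
  simp only [h.pair]

/-- `τ` preserves the metric at `w`. -/
structure Good (τ : Cn 2 → Cn 2) (w : Cn 2) : Prop where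
  contDiff : ContDiffAt ℂ ω τ w
  inv : ∃ ρ : ℕ × ℕ × ℤ → ℕ × ℕ × ℤ, Sym ρ ∧ ∃ μ : Cn 2 → ℂ, DifferentiableAt ℂ μ w ∧ μ w ≠ 0 ∧
    ∀ᶠ z in 𝓝 w, ∀ m ∈ K, fs 0 (τ z) (ρ m) = μ z * fs 0 z m

theorem Good.sf {τ : Cn 2 → Cn 2} {w : Cn 2} (h : Good τ w) (v : Cn 2) :
    sf (G w) v v = HS.sf (G (τ w)) (fderiv ℂ τ w v) (fderiv ℂ τ w v) := by
  obtain ⟨ρ, hρ, μ, hμ, hμ0, hev⟩ := h.inv
  have hτ : DifferentiableAt ℂ τ w := h.contDiff.differentiableAt (by simp)
  rw [sf_G, sf_G]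
  have hc : HasDerivAt (fun s : ℂ => w + s • v) v 0 := by
    have := ((hasDerivAt_id (0 : ℂ)).smul_const v).const_add w
    rwa [one_smul] at this
  have hc0 : w + (0 : ℂ) • v = w := by simp
  have hτc : HasDerivAt (fun s : ℂ => τ (w + s • v)) (fderiv ℂ τ w v) 0 := by
    have h1 : HasFDerivAt τ (fderiv ℂ τ w) (w + (0 : ℂ) • v) := by
      rw [hc0]; exact hτ.hasFDerivAt
    exact h1.comp_hasDerivAt (0 : ℂ) hc
  have hμc : HasDerivAt (fun s : ℂ => μ (w + s • v)) (fderiv ℂ μ w v) 0 := by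
    have h1 : HasFDerivAt μ (fderiv ℂ μ w) (w + (0 : ℂ) • v) := by
      rw [hc0]; exact hμ.hasFDerivAt
    exact h1.comp_hasDerivAt (0 : ℂ) hc
  have e0 : ∀ m ∈ K, fs 0 (τ w) (ρ m) = (μ w • fs 0 w) m := fun m hm => hev.self_of_nhds m hm
  have e1 : ∀ m ∈ K, g1 (τ w) (fderiv ℂ τ w v) (ρ m) =
      (μ w • g1 w v + fderiv ℂ μ w v • fs 0 w) m := by
    intro m hm
    have d1 := hasDerivAt_fs0 hτc (ρ m)
    have d2 := hμc.mul (hasDerivAt_fs0 hc m)
    have hcont : Filter.Tendsto (fun s : ℂ => w + s • v) (𝓝 0) (𝓝 w) := by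
      have := hc.continuousAt.tendsto
      rwa [hc0] at this
    have d3 : (fun s : ℂ => fs 0 (τ (w + s • v)) (ρ m)) =ᶠ[𝓝 0]
        fun s => μ (w + s • v) * fs 0 (w + s • v) m := by
      filter_upwards [hcont.eventually hev] with s hs using hs m hm
    have d4 := (d2.congr_of_eventuallyEq d3).unique d1
    rw [hc0] at d4
    simp only [Pi.add_apply, Pi.smul_apply, smul_eq_mul] at d4
    simp only [g1, Pi.add_apply, Pi.smul_apply, smul_eq_mul]
    rw [← d4]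
    ring
  rw [← hρ.sp (fs 0 (τ w)), sp_congr e0 e1, sp_transform hμ0]

theorem Good.transform {τ : Cn 2 → Cn 2} {w : Cn 2} (h : Good τ w) (j k : Fin 2) :
    G w j k = ∑ a, ∑ b, fderiv ℂ τ w (Pi.single j 1) a * conj (fderiv ℂ τ w (Pi.single k 1) b) *
      G (τ w) a b := by
  rw [← sf_single (G w) j k, sf_pull (fun v => h.sf v), sf_right_sum]

end Pool.Agent.Q44.HS
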