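import Pool.Agent.Q44.HS.CurvA
import Pool.Agent.Q44.HS.FormB

/-! The Hermitian pairing of the vectors of monomials, and the second derivative of the squared
speed. -/

set_option autoImplicit false

open scoped ComplexConjugate Topology ContDiff
open Pool.Agent.W549.CY (Cn dz dzbar)

namespace Pool.Agent.Q44.HS

/-- The set of monomials. -/
def K : Finset (ℕ × ℕ × ℤ) := wts.toFinset

/-- vectors -/
abbrev V : Type := ℕ × ℕ × ℤ → ℂ

/-- the Hermitian pairing -/
noncomputable def pair (f g : V) : ℂ := ∑ m ∈ K, (m.2.2 : ℂ) * (f m * conj (g m))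

theorem pair_add_left (f f' g : V) : pair (f + f') g = pair f g + pair f' g := by
  unfold pair
  rw [← Finset.sum_add_distrib]
  refine Finset.sum_congr rfl fun m _ => ?_
  simp only [Pi.add_apply]; ring

theorem pair_add_right (f g g' : V) : pair f (g + g') = pair f g + pair f g' := by
  unfold pair
  rw [← Finset.sum_add_distrib]
  refine Finset.sum_congr rfl fun m _ => ?_
  simp only [Pi.add_apply, map_add]; ring

theorem pair_smul_left (c : ℂ) (f g : V) : pair (c • f) g = c * pair f g := by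
  unfold pair
  rw [Finset.mul_sum]
  refine Finset.sum_congr rfl fun m _ => ?_
  simp only [Pi.smul_apply, smul_eq_mul]; ring

theorem pair_smul_right (c : ℂ) (f g : V) : pair f (c • g) = conj c * pair f g := by
  unfold pair
  rw [Finset.mul_sum]
  refine Finset.sum_congr rfl fun m _ => ?_
  simp only [Pi.smul_apply, smul_eq_mul, map_mul]; ring

theorem conj_pair (f g : V) : conj (pair f g) = pair g f := by
  unfold pair
  rw [map_sum]
  refine Finset.sum_congr rfl fun m _ => ?_
  simp only [map_mul, Complex.conj_conj, map_intCast]; ring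

theorem K_pos : ∀ m ∈ K, 0 < m.2.2 := by
  unfold K
  intro m hm
  rw [List.mem_toFinset] at hm
  revert m
  decide

theorem pair_self (f : V) : pair f f = ((∑ m ∈ K, (m.2.2 : ℝ) * Complex.normSq (f m) : ℝ) : ℂ) := by
  unfold pair
  push_cast
  refine Finset.sum_congr rfl fun m _ => ?_
  rw [Complex.mul_conj]

theorem pair_self_pos {f : V} (h : ∃ m ∈ K, f m ≠ 0) :
    0 < ∑ m ∈ K, (m.2.2 : ℝ) * Complex.normSq (f m) := by
  obtain ⟨m, hm, hf⟩ := h
  refine Finset.sum_pos' (fun m hm => ?_) ⟨m, hm, ?_⟩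
  · have : (0 : ℝ) < m.2.2 := by exact_mod_cast K_pos m hm
    exact mul_nonneg this.le (Complex.normSq_nonneg _)
  · have : (0 : ℝ) < m.2.2 := by exact_mod_cast K_pos m hm
    exact mul_pos this (Complex.normSq_pos.2 hf)

theorem pair_self_re_pos {f : V} (h : ∃ m ∈ K, f m ≠ 0) : 0 < (pair f f).re := by
  rw [pair_self, Complex.ofReal_re]; exact pair_self_pos h

theorem pair_self_ne {f : V} (h : ∃ m ∈ K, f m ≠ 0) : pair f f ≠ 0 := by
  intro h0
  have := pair_self_re_pos h
  rw [h0] at this
  simp at this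

/-- the Gram determinant -/
noncomputable def gd (f g : V) : ℂ := pair f f * pair g g - pair g f * pair f g

theorem gd_transform (c d : ℂ) (f g : V) :
    gd (c • f) (c • g + d • f) = (c * conj c) ^ 2 * gd f g := by
  unfold gd
  simp only [pair_add_left, pair_add_right, pair_smul_left, pair_smul_right]
  ring

/-- the squared speed -/
noncomputable def sp (f g : V) : ℂ := gd f g / pair f f ^ 2

theorem sp_transform {c : ℂ} (hc : c ≠ 0) (d : ℂ) (f g : V) :
    sp (c • f) (c • g + d • f) = sp f g := by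
  unfold sp
  rw [gd_transform, pair_smul_left, pair_smul_right]
  have hc' : conj c ≠ 0 := by simpa using hc
  have e : (c * (conj c * pair f f)) ^ 2 = (c * conj c) ^ 2 * pair f f ^ 2 := by ring
  rw [e, mul_div_mul_left _ _ (pow_ne_zero 2 (mul_ne_zero hc hc'))]

theorem gd_mul (f g : V) :
    pair f f * gd f g = pair (pair f f • g + (-pair g f) • f) (pair f f • g + (-pair g f) • f) := by
  unfold gd
  simp only [pair_add_left, pair_add_right, pair_smul_left, pair_smul_right, map_neg, conj_pair]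
  ring

theorem hasW_pair {f g : ℂ → V} {f' g' : V} {t : ℂ}
    (hf : ∀ m ∈ K, HasDerivAt (fun s => f s m) (f' m) t)
    (hg : ∀ m ∈ K, HasDerivAt (fun s => g s m) (g' m) t) :
    HasW (fun s => pair (f s) (g s)) (pair f' (g t)) (pair (f t) g') t := by
  have h : HasW (fun s => ∑ m ∈ K, (m.2.2 : ℂ) * (f s m * conj (g s m)))
      (∑ m ∈ K, (m.2.2 : ℂ) * (f' m * conj (g t m) + f t m * conj 0))
      (∑ m ∈ K, (m.2.2 : ℂ) * (0 * conj (g t m) + f t m * conj (g' m))) t :=
    HasW.sum fun m hm => (((hasW_of_hasDerivAt (hf m hm)).mul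
      (hasW_of_hasDerivAt (hg m hm)).conj).const_mul _)
  refine HasW.of_eq h ?_ ?_
  · unfold pair
    refine Finset.sum_congr rfl fun m _ => ?_
    simp
  · unfold pair
    refine Finset.sum_congr rfl fun m _ => ?_
    simp

/-- The Wirtinger derivatives of the squared speed. -/
theorem hasW_sp {f g : ℂ → V} {g' : V} {t : ℂ}
    (hf : ∀ m ∈ K, HasDerivAt (fun s => f s m) (g t m) t)
    (hg : ∀ m ∈ K, HasDerivAt (fun s => g s m) (g' m) t) (h0 : pair (f t) (f t) ≠ 0) :
    HasW (fun s => sp (f s) (g s))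
      ((pair (f t) (f t) * pair g' (g t) - pair g' (f t) * pair (f t) (g t)) / pair (f t) (f t) ^ 2
        - 2 * gd (f t) (g t) * pair (g t) (f t) / pair (f t) (f t) ^ 3)
      ((pair (f t) (f t) * pair (g t) g' - pair (g t) (f t) * pair (f t) g') / pair (f t) (f t) ^ 2
        - 2 * gd (f t) (g t) * pair (f t) (g t) / pair (f t) (f t) ^ 3) t := by
  have a1 := hasW_pair hf hf
  have a2 := hasW_pair hg hg
  have a3 := hasW_pair hg hf
  have a4 := hasW_pair hf hg
  have h := ((a1.mul a2).sub (a3.mul a4)).div (a1.mul a1) (mul_ne_zero h0 h0)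
  have e : (fun s => (pair (f s) (f s) * pair (g s) (g s) - pair (g s) (f s) * pair (f s) (g s)) /
      (pair (f s) (f s) * pair (f s) (f s))) = fun s => sp (f s) (g s) := by
    funext s
    unfold sp gd
    rw [sq]
  rw [e] at h
  refine HasW.of_eq h ?_ ?_
  · unfold gd
    field_simp
    ring
  · unfold gd
    field_simp
    ring

/-- The second derivative of the squared speed. -/
theorem dt_db_sp {f g k : ℂ → V} {k' : V}
    (hf : ∀ᶠ t in 𝓝 (0 : ℂ), ∀ m ∈ K, HasDerivAt (fun s => f s m) (g t m) t)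
    (hg : ∀ᶠ t in 𝓝 (0 : ℂ), ∀ m ∈ K, HasDerivAt (fun s => g s m) (k t m) t)
    (hk : ∀ m ∈ K, HasDerivAt (fun s => k s m) (k' m) 0)
    (h0 : ∀ᶠ t in 𝓝 (0 : ℂ), pair (f t) (f t) ≠ 0) :
    -dt (db fun s => sp (f s) (g s)) 0 * pair (f 0) (f 0) ^ 4 = 2 * gd (f 0) (g 0) ^ 2 -
      gd (f 0) (pair (f 0) (f 0) • k 0 + (-2 * pair (g 0) (f 0)) • g 0) := by
  have h1 : (db fun s => sp (f s) (g s)) =ᶠ[𝓝 0] fun t =>
      (pair (f t) (f t) * pair (g t) (k t) - pair (g t) (f t) * pair (f t) (k t)) /
        (pair (f t) (f t) * pair (f t) (f t))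
        - 2 * (pair (f t) (f t) * pair (g t) (g t) - pair (g t) (f t) * pair (f t) (g t)) *
          pair (f t) (g t) / (pair (f t) (f t) * (pair (f t) (f t) * pair (f t) (f t))) := by
    filter_upwards [hf, hg, h0] with t e1 e2 e3
    rw [(hasW_sp e1 e2 e3).db]
    unfold gd
    rw [sq, pow_succ, sq, mul_assoc (pair (f t) (f t))]
  rw [dt_congr h1]
  have e1 := hf.self_of_nhds
  have e2 := hg.self_of_nhds
  have e3 := h0.self_of_nhds
  have a00 := hasW_pair e1 e1
  have a01 := hasW_pair e1 e2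
  have a10 := hasW_pair e2 e1
  have a11 := hasW_pair e2 e2
  have a12 := hasW_pair e2 hk
  have a02 := hasW_pair e1 hk
  have h2 := ((((a00.mul a12).sub (a10.mul a02)).div (a00.mul a00) (mul_ne_zero e3 e3))).sub
    (((((a00.mul a11).sub (a10.mul a01)).const_mul 2).mul a01).div (a00.mul (a00.mul a00))
      (mul_ne_zero e3 (mul_ne_zero e3 e3)))
  rw [h2.dt]
  unfold gd
  simp only [pair_add_left, pair_add_right, pair_smul_left, pair_smul_right, map_neg, map_mul,
    map_ofNat, conj_pair]
  field_simp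
  ring

end Pool.Agent.Q44.HS
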