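import Pool.Agent.Q44.HS.Form

/-! Coefficients of polynomial expressions. -/

set_option autoImplicit false

open Polynomial

namespace Pool.Agent.Q44.HS

namespace Ex

theorem ev_add {R : Type*} [CommRing R] (a b : R) (e f : Ex) :
    ev a b (e + f) = ev a b e + ev a b f := rfl

theorem ev_sub {R : Type*} [CommRing R] (a b : R) (e f : Ex) :
    ev a b (e - f) = ev a b e - ev a b f := rfl

theorem ev_mul {R : Type*} [CommRing R] (a b : R) (e f : Ex) :
    ev a b (e * f) = ev a b e * ev a b f := rfl

theorem val_eq (a b : ℤ) (e : Ex) : val a b e = ev a b e := by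
  induction e with
  | lit z => simp [val, ev]
  | x => rfl
  | y => rfl
  | add e f h1 h2 => simp only [val, ev, h1, h2]; rfl
  | sub e f h1 h2 => simp only [val, ev, h1, h2]; rfl
  | mul e f h1 h2 => simp only [val, ev, h1, h2]; rfl

theorem map_ev {R S : Type*} [CommRing R] [CommRing S] (φ : R →+* S) (a b : R) (e : Ex) :
    φ (ev a b e) = ev (φ a) (φ b) e := by
  induction e with
  | lit z => simp [ev]
  | x => rfl
  | y => rfl
  | add e f h1 h2 => simp only [ev, map_add, h1, h2]
  | sub e f h1 h2 => simp only [ev, map_sub, h1, h2]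
  | mul e f h1 h2 => simp only [ev, map_mul, h1, h2]

/-- the polynomial -/
noncomputable def pol (e : Ex) : ℤ[X][X] := ev (C X) X e

/-- the dominating polynomial -/
noncomputable def dom : Ex → ℕ[X][X]
  | lit z => C (C z.natAbs)
  | x => C X
  | y => X
  | add e f => dom e + dom f
  | sub e f => dom e + dom f
  | mul e f => dom e * dom f

/-- the coefficients -/
noncomputable def co (e : Ex) (i j : ℕ) : ℤ := ((pol e).coeff j).coeff i

theorem abs_co_le (e : Ex) : ∀ i j, |co e i j| ≤ (((dom e).coeff j).coeff i : ℤ) := by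
  induction e with
  | lit z =>
    intro i j
    have h : pol (lit z) = C (C z) := by
      simp [pol, ev]
    unfold co
    rw [h]
    simp only [dom, coeff_C]
    split_ifs
    · simp only [coeff_C]
      split_ifs
      · simp
      · simp
    · simp
  | x =>
    intro i j
    have h : pol x = C X := rfl
    unfold co
    rw [h]
    simp only [dom, coeff_C]
    split_ifs
    · simp only [coeff_X]
      split_ifs
      · simp
      · simp
    · simp
  | y =>
    intro i j
    have h : pol y = X := rfl
    unfold co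
    rw [h]
    simp only [dom, coeff_X]
    split_ifs
    · simp only [coeff_one]
      split_ifs
      · simp
      · simp
    · simp
  | add e f h1 h2 =>
    intro i j
    have h : pol (add e f) = pol e + pol f := rfl
    unfold co at *
    rw [h]
    simp only [dom, coeff_add, Nat.cast_add]
    exact (abs_add_le _ _).trans (add_le_add (h1 i j) (h2 i j))
  | sub e f h1 h2 =>
    intro i j
    have h : pol (sub e f) = pol e - pol f := rfl
    unfold co at *
    rw [h]
    simp only [dom, coeff_add, coeff_sub, Nat.cast_add]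
    exact (abs_sub _ _).trans (add_le_add (h1 i j) (h2 i j))
  | mul e f h1 h2 =>
    intro i j
    have h : pol (mul e f) = pol e * pol f := rfl
    unfold co at *
    rw [h]
    simp only [dom, coeff_mul, finsetSum_coeff, Nat.cast_sum, Nat.cast_mul]
    refine (Finset.abs_sum_le_sum_abs _ _).trans (Finset.sum_le_sum fun p _ => ?_)
    refine (Finset.abs_sum_le_sum_abs _ _).trans (Finset.sum_le_sum fun q _ => ?_)
    rw [abs_mul]
    exact mul_le_mul (h1 _ _) (h2 _ _) (abs_nonneg _) (by positivity)

theorem coeff_le_eval_one (p : ℕ[X]) (i : ℕ) : p.coeff i ≤ p.eval 1 := by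
  by_cases hi : i ∈ p.support
  · rw [eval_eq_sum, Polynomial.sum]
    simp only [one_pow, mul_one]
    exact Finset.single_le_sum (f := fun i => p.coeff i) (fun _ _ => Nat.zero_le _) hi
  · rw [Polynomial.notMem_support_iff.1 hi]
    exact Nat.zero_le _

theorem dom_coeff_le (Q : ℕ[X][X]) (i j : ℕ) : (Q.coeff j).coeff i ≤ (Q.eval 1).eval 1 := by
  refine (coeff_le_eval_one _ _).trans ?_
  by_cases hj : j ∈ Q.support
  · rw [eval_eq_sum (p := Q), Polynomial.sum]
    simp only [one_pow, mul_one]
    rw [eval_finsetSum]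
    exact Finset.single_le_sum (f := fun j => (Q.coeff j).eval 1) (fun _ _ => Nat.zero_le _) hj
  · rw [Polynomial.notMem_support_iff.1 hj]
    simp

theorem dom_eval (e : Ex) : ((dom e).eval 1).eval 1 = nrm e := by
  induction e with
  | lit z => simp [dom, nrm]
  | x => simp [dom, nrm]
  | y => simp [dom, nrm]
  | add e f h1 h2 => simp only [dom, nrm, eval_add, h1, h2]; rfl
  | sub e f h1 h2 => simp only [dom, nrm, eval_add, h1, h2]; rfl
  | mul e f h1 h2 => simp only [dom, nrm, eval_mul, h1, h2]; rfl

theorem abs_co_le_nrm (e : Ex) (i j : ℕ) : |co e i j| ≤ nrm e := by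
  refine (abs_co_le e i j).trans ?_
  rw [← dom_eval]
  exact_mod_cast dom_coeff_le _ _ _

theorem natDegree_pol (e : Ex) : (pol e).natDegree ≤ dy e := by
  induction e with
  | lit z =>
    have h : pol (lit z) = C (C z) := by simp [pol, ev]
    rw [h, natDegree_C]
    exact Nat.zero_le _
  | x =>
    have h : pol x = C X := rfl
    rw [h, natDegree_C]
    exact Nat.zero_le _
  | y =>
    have h : pol y = X := rfl
    rw [h]
    exact natDegree_X_le
  | add e f h1 h2 =>
    exact (natDegree_add_le _ _).trans (max_le_max h1 h2)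
  | sub e f h1 h2 =>
    exact (natDegree_sub_le _ _).trans (max_le_max h1 h2)
  | mul e f h1 h2 =>
    exact natDegree_mul_le.trans (add_le_add h1 h2)

theorem natDegree_coeff_pol (e : Ex) : ∀ j, ((pol e).coeff j).natDegree ≤ dx e := by
  induction e with
  | lit z =>
    intro j
    have h : pol (lit z) = C (C z) := by simp [pol, ev]
    rw [h, coeff_C]
    split_ifs <;> simp
  | x =>
    intro j
    have h : pol x = C X := rfl
    rw [h, coeff_C]
    split_ifs
    · exact natDegree_X_le
    · simp
  | y =>
    intro j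
    have h : pol y = X := rfl
    rw [h, coeff_X]
    split_ifs <;> simp
  | add e f h1 h2 =>
    intro j
    have h : pol (add e f) = pol e + pol f := rfl
    rw [h, coeff_add]
    exact (natDegree_add_le _ _).trans (max_le_max (h1 j) (h2 j))
  | sub e f h1 h2 =>
    intro j
    have h : pol (sub e f) = pol e - pol f := rfl
    rw [h, coeff_sub]
    exact (natDegree_sub_le _ _).trans (max_le_max (h1 j) (h2 j))
  | mul e f h1 h2 =>
    intro j
    have h : pol (mul e f) = pol e * pol f := rfl
    rw [h, coeff_mul]
    refine natDegree_sum_le_of_forall_le _ _ fun p _ => ?_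
    exact natDegree_mul_le.trans (add_le_add (h1 _) (h2 _))

/-- The expression is the sum of its monomials. -/
theorem ev_eq_sum {R : Type*} [CommRing R] (a b : R) (e : Ex) {m n : ℕ} (hm : dx e < m)
    (hn : dy e < n) :
    ev a b e = ∑ j ∈ Finset.range n, ∑ i ∈ Finset.range m, (co e i j : R) * a ^ i * b ^ j := by
  have h1 : (eval₂RingHom (eval₂RingHom (Int.castRingHom R) a) b) (pol e) = ev a b e := by
    unfold pol
    rw [map_ev]
    simp
  rw [← h1, coe_eval₂RingHom, eval₂_eq_sum_range' _ (lt_of_le_of_lt (natDegree_pol e) hn)]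
  refine Finset.sum_congr rfl fun j _ => ?_
  rw [coe_eval₂RingHom, eval₂_eq_sum_range' _ (lt_of_le_of_lt (natDegree_coeff_pol e j) hm),
    Finset.sum_mul]
  rfl

end Ex

/-! ### digits -/

/-- The digits of a number. -/
theorem digit_zero {M : ℕ} (d : ℕ → ℕ) (hd : ∀ n, d n < M) (m : ℕ) :
    (∑ n ∈ Finset.range (m + 1), d n * M ^ n) % M = d 0 := by
  rw [Finset.sum_range_succ']
  have h1 : ∑ n ∈ Finset.range m, d (n + 1) * M ^ (n + 1) =
      M * ∑ n ∈ Finset.range m, d (n + 1) * M ^ n := by
    rw [Finset.mul_sum]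
    refine Finset.sum_congr rfl fun n _ => ?_
    rw [pow_succ]
    ring
  rw [h1, pow_zero, mul_one, Nat.mul_add_mod, Nat.mod_eq_of_lt (hd 0)]

theorem digit_div {M : ℕ} (d : ℕ → ℕ) (hd : ∀ n, d n < M) (m : ℕ) :
    (∑ n ∈ Finset.range (m + 1), d n * M ^ n) / M = ∑ n ∈ Finset.range m, d (n + 1) * M ^ n := by
  rw [Finset.sum_range_succ']
  have h1 : ∑ n ∈ Finset.range m, d (n + 1) * M ^ (n + 1) =
      M * ∑ n ∈ Finset.range m, d (n + 1) * M ^ n := by
    rw [Finset.mul_sum]
    refine Finset.sum_congr rfl fun n _ => ?_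
    rw [pow_succ]
    ring
  have hM : 0 < M := lt_of_le_of_lt (Nat.zero_le _) (hd 0)
  rw [h1, pow_zero, mul_one, Nat.mul_add_div hM, Nat.div_eq_of_lt (hd 0), add_zero]

end Pool.Agent.Q44.HS
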