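import Pool.Agent.Q44.HS.Pair

/-! The curvature at the points with nonnegative real coordinates. -/

set_option autoImplicit false

open scoped ComplexConjugate Topology ContDiff
open Pool.Agent.W549.CY (Cn dz dzbar)

namespace Pool.Agent.Q44.HS

/-- The monomials `u^i v^j` (`k = 0`) and their derivatives (`k = 1, ..., 5`) -/
noncomputable def fs (k : ℕ) (z : Cn 2) : V := fun m =>
  fam (Int.cast : ℤ → ℂ) (z 0) 1 (z 1) 1 m.1 m.2.1 k

theorem fs0 (z : Cn 2) (m : ℕ × ℕ × ℤ) : fs 0 z m = z 0 ^ m.1 * z 1 ^ m.2.1 := by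
  simp [fs, fam, mon_cast]

theorem fs1 (z : Cn 2) (m : ℕ × ℕ × ℤ) : fs 1 z m = (m.1 * z 0 ^ (m.1 - 1)) * z 1 ^ m.2.1 := by
  simp [fs, fam, mon_cast, mul_assoc]

theorem fs2 (z : Cn 2) (m : ℕ × ℕ × ℤ) : fs 2 z m = z 0 ^ m.1 * (m.2.1 * z 1 ^ (m.2.1 - 1)) := by
  simp [fs, fam, mon_cast]
  ring

theorem fs3 (z : Cn 2) (m : ℕ × ℕ × ℤ) :
    fs 3 z m = (m.1 * (m.1 - 1) * z 0 ^ (m.1 - 2)) * z 1 ^ m.2.1 := by
  simp [fs, fam, mon_cast, mul_assoc]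

theorem fs4 (z : Cn 2) (m : ℕ × ℕ × ℤ) :
    fs 4 z m = (m.1 * z 0 ^ (m.1 - 1)) * (m.2.1 * z 1 ^ (m.2.1 - 1)) := by
  simp [fs, fam, mon_cast]
  ring

theorem fs5 (z : Cn 2) (m : ℕ × ℕ × ℤ) :
    fs 5 z m = z 0 ^ m.1 * (m.2.1 * (m.2.1 - 1) * z 1 ^ (m.2.1 - 2)) := by
  simp [fs, fam, mon_cast]
  ring

theorem deriv_pow1 {u : ℂ → ℂ} {u' t : ℂ} (hu : HasDerivAt u u' t) (i : ℕ) :
    HasDerivAt (fun s => (i : ℂ) * u s ^ (i - 1)) ((i * (i - 1) * u t ^ (i - 2)) * u') t := by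
  have h := (hu.fun_pow (i - 1)).const_mul (i : ℂ)
  refine h.congr_deriv ?_
  rcases i with _ | i
  · simp
  · simp only [Nat.add_sub_cancel, Nat.cast_add, Nat.cast_one, add_sub_cancel_right]
    have : i + 1 - 2 = i - 1 := by omega
    rw [this]
    ring

theorem deriv_pow0 {u : ℂ → ℂ} {u' t : ℂ} (hu : HasDerivAt u u' t) (i : ℕ) :
    HasDerivAt (fun s => u s ^ i) ((i * u t ^ (i - 1)) * u') t := hu.fun_pow i

section curve

variable {γ : ℂ → Cn 2} {γ' : Cn 2} {t : ℂ}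

theorem hasDerivAt_fs0 (h : HasDerivAt γ γ' t) (m : ℕ × ℕ × ℤ) :
    HasDerivAt (fun s => fs 0 (γ s) m) ((γ' 0 • fs 1 (γ t) + γ' 1 • fs 2 (γ t)) m) t := by
  simp only [Pi.add_apply, Pi.smul_apply, smul_eq_mul, fs0, fs1, fs2]
  have h1 := (deriv_pow0 (hasDerivAt_apply h 0) m.1).mul (deriv_pow0 (hasDerivAt_apply h 1) m.2.1)
  refine HasDerivAt.congr_deriv h1 ?_
  ring

theorem hasDerivAt_fs1 (h : HasDerivAt γ γ' t) (m : ℕ × ℕ × ℤ) :
    HasDerivAt (fun s => fs 1 (γ s) m) ((γ' 0 • fs 3 (γ t) + γ' 1 • fs 4 (γ t)) m) t := by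
  simp only [Pi.add_apply, Pi.smul_apply, smul_eq_mul, fs1, fs3, fs4]
  have h1 := (deriv_pow1 (hasDerivAt_apply h 0) m.1).mul (deriv_pow0 (hasDerivAt_apply h 1) m.2.1)
  refine HasDerivAt.congr_deriv h1 ?_
  ring

theorem hasDerivAt_fs2 (h : HasDerivAt γ γ' t) (m : ℕ × ℕ × ℤ) :
    HasDerivAt (fun s => fs 2 (γ s) m) ((γ' 0 • fs 4 (γ t) + γ' 1 • fs 5 (γ t)) m) t := by
  simp only [Pi.add_apply, Pi.smul_apply, smul_eq_mul, fs2, fs4, fs5]
  have h1 := (deriv_pow0 (hasDerivAt_apply h 0) m.1).mul (deriv_pow1 (hasDerivAt_apply h 1) m.2.1)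
  refine HasDerivAt.congr_deriv h1 ?_
  ring

theorem differentiable_fs (k : ℕ) (hγ : DifferentiableAt ℂ γ t) (m : ℕ × ℕ × ℤ) :
    DifferentiableAt ℂ (fun s => fs k (γ s) m) t := by
  have h0 : DifferentiableAt ℂ (fun s => γ s 0) t := (differentiableAt_pi.1 hγ) 0
  have h1 : DifferentiableAt ℂ (fun s => γ s 1) t := (differentiableAt_pi.1 hγ) 1
  unfold fs fam
  split <;> simp only [mon_cast] <;> fun_prop

/-- the first derivative of the vector of monomials -/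
noncomputable def g1 (z v : Cn 2) : V := v 0 • fs 1 z + v 1 • fs 2 z

/-- the second derivative of the vector of monomials -/
noncomputable def g2 (z v w : Cn 2) : V :=
  (v 0 ^ 2) • fs 3 z + (2 * (v 0 * v 1)) • fs 4 z + (v 1 ^ 2) • fs 5 z + (w 0 • fs 1 z + w 1 • fs 2 z)

theorem hasDerivAt_g1 {γ₁ : ℂ → Cn 2} {γ₂ : Cn 2} (h : HasDerivAt γ (γ₁ t) t)
    (h' : HasDerivAt γ₁ γ₂ t) (m : ℕ × ℕ × ℤ) :
    HasDerivAt (fun s => g1 (γ s) (γ₁ s) m) (g2 (γ t) (γ₁ t) γ₂ m) t := by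
  unfold g1 g2
  simp only [Pi.add_apply, Pi.smul_apply, smul_eq_mul]
  have h1 := ((hasDerivAt_apply h' 0).mul (hasDerivAt_fs1 h m)).add
    ((hasDerivAt_apply h' 1).mul (hasDerivAt_fs2 h m))
  refine HasDerivAt.congr_deriv h1 ?_
  simp only [Pi.add_apply, Pi.smul_apply, smul_eq_mul]
  ring

end curve

theorem mem_K0 : ((0, 0, 1) : ℕ × ℕ × ℤ) ∈ K := by
  unfold K
  rw [List.mem_toFinset]
  decide

theorem mem_K1 : ((1, 0, 4) : ℕ × ℕ × ℤ) ∈ K := by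
  unfold K
  rw [List.mem_toFinset]
  decide

theorem mem_K2 : ((0, 1, 4) : ℕ × ℕ × ℤ) ∈ K := by
  unfold K
  rw [List.mem_toFinset]
  decide

theorem fs0_ne (z : Cn 2) : ∃ m ∈ K, fs 0 z m ≠ 0 :=
  ⟨(0, 0, 1), mem_K0, by simp [fs0]⟩

theorem pair_fs0_ne (z : Cn 2) : pair (fs 0 z) (fs 0 z) ≠ 0 := pair_self_ne (fs0_ne z)

/-- The second derivative of the squared speed along a curve. -/
theorem dt_db_curve {γ γ₁ γ₂ : ℂ → Cn 2} (h1 : ∀ᶠ t in 𝓝 0, HasDerivAt γ (γ₁ t) t)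
    (h2 : ∀ᶠ t in 𝓝 0, HasDerivAt γ₁ (γ₂ t) t) (h3 : DifferentiableAt ℂ γ₂ 0) :
    -dt (db fun s => sp (fs 0 (γ s)) (g1 (γ s) (γ₁ s))) 0 * pair (fs 0 (γ 0)) (fs 0 (γ 0)) ^ 4 =
      2 * gd (fs 0 (γ 0)) (g1 (γ 0) (γ₁ 0)) ^ 2 -
      gd (fs 0 (γ 0)) (pair (fs 0 (γ 0)) (fs 0 (γ 0)) • g2 (γ 0) (γ₁ 0) (γ₂ 0) +
        (-2 * pair (g1 (γ 0) (γ₁ 0)) (fs 0 (γ 0))) • g1 (γ 0) (γ₁ 0)) := by
  have d1 : DifferentiableAt ℂ γ 0 := h1.self_of_nhds.differentiableAt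
  have d2 : DifferentiableAt ℂ γ₁ 0 := h2.self_of_nhds.differentiableAt
  have c0 : DifferentiableAt ℂ (fun s => γ₁ s 0) 0 := (differentiableAt_pi.1 d2) 0
  have c1 : DifferentiableAt ℂ (fun s => γ₁ s 1) 0 := (differentiableAt_pi.1 d2) 1
  have b0 : DifferentiableAt ℂ (fun s => γ₂ s 0) 0 := (differentiableAt_pi.1 h3) 0
  have b1 : DifferentiableAt ℂ (fun s => γ₂ s 1) 0 := (differentiableAt_pi.1 h3) 1
  refine dt_db_sp (f := fun s => fs 0 (γ s)) (g := fun s => g1 (γ s) (γ₁ s))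
    (k := fun s => g2 (γ s) (γ₁ s) (γ₂ s))
    (k' := fun m => deriv (fun s => g2 (γ s) (γ₁ s) (γ₂ s) m) 0) ?_ ?_ ?_ ?_
  · filter_upwards [h1] with t ht m _
    exact hasDerivAt_fs0 ht m
  · filter_upwards [h1, h2] with t ht ht' m _
    exact hasDerivAt_g1 ht ht' m
  · intro m _
    refine DifferentiableAt.hasDerivAt ?_
    have e1 := differentiable_fs 1 d1 m
    have e2 := differentiable_fs 2 d1 m
    have e3 := differentiable_fs 3 d1 m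
    have e4 := differentiable_fs 4 d1 m
    have e5 := differentiable_fs 5 d1 m
    unfold g2
    simp only [Pi.add_apply, Pi.smul_apply, smul_eq_mul]
    fun_prop
  · exact Filter.Eventually.of_forall fun t => pair_fs0_ne _

/-- the sesquilinear version of the Gram determinant -/
noncomputable def gb (f ξ η : V) : ℂ := pair f f * pair ξ η - pair ξ f * pair f η

theorem gd_eq_gb (f ξ : V) : gd f ξ = gb f ξ ξ := rfl

theorem gb_add_left (f ξ ξ' η : V) : gb f (ξ + ξ') η = gb f ξ η + gb f ξ' η := by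
  unfold gb; simp only [pair_add_left]; ring

theorem gb_add_right (f ξ η η' : V) : gb f ξ (η + η') = gb f ξ η + gb f ξ η' := by
  unfold gb; simp only [pair_add_right]; ring

theorem gb_smul_left (f ξ η : V) (c : ℂ) : gb f (c • ξ) η = c * gb f ξ η := by
  unfold gb; simp only [pair_smul_left]; ring

theorem gb_smul_right (f ξ η : V) (c : ℂ) : gb f ξ (c • η) = conj c * gb f ξ η := by
  unfold gb; simp only [pair_smul_right]; ring

theorem lsum_eq (f : ℕ → ℕ → ℝ) (l : List (ℕ × ℕ × ℤ)) :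
    lsum (Int.cast : ℤ → ℝ) f l = (l.map fun m => (m.2.2 : ℝ) * f m.1 m.2.1).sum := by
  induction l with
  | nil => simp [lsum]
  | cons m l ih => unfold lsum; rw [ih, List.map_cons, List.sum_cons]

theorem wts_nodup : wts.Nodup := by decide

theorem lsum_wts (f : ℕ → ℕ → ℝ) :
    lsum (Int.cast : ℤ → ℝ) f wts = ∑ m ∈ K, (m.2.2 : ℝ) * f m.1 m.2.1 := by
  rw [lsum_eq]
  unfold K
  rw [List.sum_toFinset _ wts_nodup]

/-- the point with real coordinates -/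
noncomputable def rp (x y : ℝ) : Cn 2 := ![(x : ℂ), (y : ℂ)]

theorem fs_real (x y : ℝ) (k : ℕ) (m : ℕ × ℕ × ℤ) :
    fs k (rp x y) m = ((fam (Int.cast : ℤ → ℝ) x 1 y 1 m.1 m.2.1 k : ℝ) : ℂ) := by
  have h : Hm (Complex.ofReal : ℝ → ℂ) (Int.cast : ℤ → ℝ) (Int.cast : ℤ → ℂ) :=
    ⟨Complex.ofReal_add, Complex.ofReal_sub, Complex.ofReal_mul, fun z => by simp⟩
  rw [h.fam]
  simp [fs, rp]

theorem pair_real (x y : ℝ) (a b : ℕ) :
    pair (fs a (rp x y)) (fs b (rp x y)) = ((gram (Int.cast : ℤ → ℝ) x 1 y 1 a b : ℝ) : ℂ) := by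
  unfold pair gram
  rw [lsum_wts]
  push_cast
  refine Finset.sum_congr rfl fun m _ => ?_
  rw [fs_real, fs_real, Complex.conj_ofReal]

end Pool.Agent.Q44.HS
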