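import Pool.Agent.Q44.HS.Pt

/-! The curvature at the points with nonnegative real coordinates: use of the certificate. -/

set_option autoImplicit false

open scoped ComplexConjugate Topology ContDiff
open Pool.Agent.W549.CY (Cn dz dzbar)

namespace Pool.Agent.Q44.HS

section

variable (x y : ℝ)

/-- the Gram matrix at a real point -/
noncomputable def mu (a b : ℕ) : ℝ := gram (Int.cast : ℤ → ℝ) x 1 y 1 a b

theorem mu_comm (a b : ℕ) : mu x y a b = mu x y b a := by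
  unfold mu gram
  congr 1
  funext i j
  ring

theorem dd_mu_comm (a b : ℕ) : dd (mu x y) a b = dd (mu x y) b a := by
  unfold dd
  rw [mu_comm x y a b]
  ring

theorem pair_mu (a b : ℕ) : pair (fs a (rp x y)) (fs b (rp x y)) = (mu x y a b : ℂ) :=
  pair_real x y a b

theorem gb_mu (a b : ℕ) :
    gb (fs 0 (rp x y)) (fs a (rp x y)) (fs b (rp x y)) = ((dd (mu x y) a b : ℝ) : ℂ) := by
  unfold gb dd
  simp only [pair_mu]
  rw [mu_comm x y 0 b]
  push_cast
  ring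

/-- the vector `p F_i - t₁ F_x - t₂ F_y` -/
noncomputable def xv (i : ℕ) (t₁ t₂ : ℝ) : V :=
  (mu x y 0 0 : ℂ) • fs i (rp x y) + ((-t₁ : ℝ) : ℂ) • fs 1 (rp x y) +
    ((-t₂ : ℝ) : ℂ) • fs 2 (rp x y)

theorem gb_xv (i j : ℕ) (t₁ t₂ u₁ u₂ : ℝ) :
    gb (fs 0 (rp x y)) (xv x y i t₁ t₂) (xv x y j u₁ u₂) =
      ((qq (mu x y) i j t₁ t₂ u₁ u₂ : ℝ) : ℂ) := by
  unfold xv qq
  simp only [gb_add_left, gb_add_right, gb_smul_left, gb_smul_right, Complex.conj_ofReal, gb_mu]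
  rw [dd_mu_comm x y 1 j, dd_mu_comm x y 2 j, dd_mu_comm x y 2 1]
  push_cast
  ring

theorem qq_comm (i j : ℕ) (t₁ t₂ u₁ u₂ : ℝ) :
    qq (mu x y) i j t₁ t₂ u₁ u₂ = qq (mu x y) j i u₁ u₂ t₁ t₂ := by
  unfold qq
  rw [dd_mu_comm x y i j]
  ring

/-- the correction terms -/
noncomputable def qax : ℝ := alx (Int.cast : ℤ → ℝ) x 1 y 1
/-- the correction terms -/
noncomputable def qay : ℝ := aly (Int.cast : ℤ → ℝ) x 1 y 1
/-- the correction terms -/
noncomputable def qgx : ℝ := gax (Int.cast : ℤ → ℝ) x 1 y 1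
/-- the correction terms -/
noncomputable def qgy : ℝ := gay (Int.cast : ℤ → ℝ) x 1 y 1

theorem cr_eq_cf (k : ℕ) :
    cr x y k = cf (Int.cast : ℤ → ℝ) (mu x y) (qax x y) (qay x y) (qgx x y) (qgy x y) k := rfl

/-- the second derivative of the curve (up to sign) -/
noncomputable def wv (v : Cn 2) : Cn 2 :=
  ![(v 0 ^ 2 * qax x y + 2 * (v 0 * v 1) * qgy x y) / mu x y 0 0,
    (2 * (v 0 * v 1) * qgx x y + v 1 ^ 2 * qay x y) / mu x y 0 0]

/-- the form at a real point -/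
noncomputable def ef (v w : Cn 2) (z : Cn 2) : ℂ :=
  2 * gd (fs 0 z) (g1 z v) ^ 2 -
      gd (fs 0 z) (pair (fs 0 z) (fs 0 z) • g2 z v w +
        (-2 * pair (g1 z v) (fs 0 z)) • g1 z v)

theorem mu_ne : (mu x y 0 0 : ℂ) ≠ 0 := by
  rw [← pair_mu]
  exact pair_fs0_ne _

theorem two_re (a b : ℂ) : (((a * conj b).re : ℝ) : ℂ) = (a * conj b + b * conj a) / 2 := by
  have := Complex.add_conj (a * conj b)
  simp only [map_mul, Complex.conj_conj] at this
  have e : (((a * conj b).re : ℝ) : ℂ) = ((2 * (a * conj b).re : ℝ) : ℂ) / 2 := by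
    push_cast; ring
  rw [e, ← this]
  ring

theorem gd_g1 (v : Cn 2) : gd (fs 0 (rp x y)) (g1 (rp x y) v) =
    ((Complex.normSq (v 0) * dd (mu x y) 1 1 + 2 * (v 0 * conj (v 1)).re * dd (mu x y) 1 2
      + Complex.normSq (v 1) * dd (mu x y) 2 2 : ℝ) : ℂ) := by
  rw [gd_eq_gb]
  unfold g1
  simp only [gb_add_left, gb_add_right, gb_smul_left, gb_smul_right, gb_mu]
  rw [dd_mu_comm x y 2 1]
  push_cast
  rw [two_re, ← Complex.mul_conj, ← Complex.mul_conj]
  ring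

theorem xv_eq (v : Cn 2) :
    pair (fs 0 (rp x y)) (fs 0 (rp x y)) • g2 (rp x y) v (-wv x y v) +
        (-2 * pair (g1 (rp x y) v) (fs 0 (rp x y))) • g1 (rp x y) v =
    (v 0 ^ 2) • xv x y 3 (mu x y 1 0 + mu x y 1 0 + qax x y) 0 +
      (2 * (v 0 * v 1)) • xv x y 4 (mu x y 2 0 + qgy x y) (mu x y 1 0 + qgx x y) +
      (v 1 ^ 2) • xv x y 5 0 (mu x y 2 0 + mu x y 2 0 + qay x y) := by
  have h1 : pair (g1 (rp x y) v) (fs 0 (rp x y)) = v 0 * mu x y 1 0 + v 1 * mu x y 2 0 := by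
    unfold g1
    simp only [pair_add_left, pair_smul_left, pair_mu]
  have h0 := mu_ne x y
  rw [h1, pair_mu]
  unfold g1 g2 xv wv
  funext m
  simp only [Pi.add_apply, Pi.smul_apply, Pi.neg_apply, smul_eq_mul, Matrix.cons_val_zero,
    Matrix.cons_val_one]
  push_cast
  field_simp
  ring

theorem gd_xv (v : Cn 2) (s₁ s₂ t₁ t₂ u₁ u₂ : ℝ) :
    gd (fs 0 (rp x y)) ((v 0 ^ 2) • xv x y 3 s₁ s₂ + (2 * (v 0 * v 1)) • xv x y 4 t₁ t₂ +
      (v 1 ^ 2) • xv x y 5 u₁ u₂) =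
    ((Complex.normSq (v 0) ^ 2 * qq (mu x y) 3 3 s₁ s₂ s₁ s₂ +
      4 * (Complex.normSq (v 0) * Complex.normSq (v 1)) * qq (mu x y) 4 4 t₁ t₂ t₁ t₂ +
      Complex.normSq (v 1) ^ 2 * qq (mu x y) 5 5 u₁ u₂ u₁ u₂ +
      4 * (Complex.normSq (v 0) * (v 0 * conj (v 1)).re) * qq (mu x y) 3 4 s₁ s₂ t₁ t₂ +
      (4 * (v 0 * conj (v 1)).re ^ 2 - 2 * (Complex.normSq (v 0) * Complex.normSq (v 1))) *
        qq (mu x y) 3 5 s₁ s₂ u₁ u₂ +
      4 * ((v 0 * conj (v 1)).re * Complex.normSq (v 1)) * qq (mu x y) 4 5 t₁ t₂ u₁ u₂ : ℝ) : ℂ) := by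
  rw [gd_eq_gb]
  simp only [gb_add_left, gb_add_right, gb_smul_left, gb_smul_right, gb_xv]
  rw [qq_comm x y 4 3, qq_comm x y 5 3, qq_comm x y 5 4]
  push_cast
  rw [two_re, ← Complex.mul_conj, ← Complex.mul_conj]
  simp only [map_mul, map_pow, map_ofNat]
  ring

/-- The form at a real point is real, and it is given by the seven polynomials. -/
theorem ef_eq (v : Cn 2) : 20 * ef v (-wv x y v) (rp x y) =
    ((cr x y 0 * Complex.normSq (v 0) ^ 2 + cr x y 1 * (Complex.normSq (v 0) *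
        (v 0 * conj (v 1)).re) + cr x y 2 * (v 0 * conj (v 1)).re ^ 2 +
      cr x y 3 * (Complex.normSq (v 0) * Complex.normSq (v 1)) +
      cr x y 4 * ((v 0 * conj (v 1)).re * Complex.normSq (v 1)) +
      cr x y 5 * Complex.normSq (v 1) ^ 2 +
      cr x y 6 * (Complex.normSq (v 0) * Complex.normSq (v 1) - (v 0 * conj (v 1)).re ^ 2) : ℝ)
      : ℂ) := by
  unfold ef
  rw [xv_eq, gd_xv, gd_g1]
  norm_cast
  simp only [cr_eq_cf, cf]
  push_cast
  ring

end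

theorem normSq_mul_ge (a b : ℂ) : (a * conj b).re ^ 2 ≤ Complex.normSq a * Complex.normSq b := by
  have h : Complex.normSq (a * conj b) = Complex.normSq a * Complex.normSq b := by
    rw [Complex.normSq_mul, Complex.normSq_conj]
  rw [← h, Complex.normSq_apply]
  nlinarith [sq_nonneg (a * conj b).im]

/-- Positivity at a real point. -/
theorem ef_pos {x y : ℝ} (hx : x ∈ Set.Icc (0 : ℝ) 1) (hy : y ∈ Set.Icc (0 : ℝ) 1) {v : Cn 2}
    (hv : v ≠ 0) : 0 < (ef v (-wv x y v) (rp x y)).re := by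
  have h1 := ef_eq x y v
  have h2 := cert hx hy (A := Complex.normSq (v 0)) (m := (v 0 * conj (v 1)).re)
    (B := Complex.normSq (v 1)) (by
      by_contra hcon
      push Not at hcon
      apply hv
      funext i
      fin_cases i
      · exact Complex.normSq_eq_zero.1 hcon.1
      · exact Complex.normSq_eq_zero.1 hcon.2.2)
  have h3 := mul_nonneg (lam_nonneg hx hy) (sub_nonneg.2 (normSq_mul_ge (v 0) (v 1)))
  have h4 := congrArg Complex.re h1
  rw [Complex.ofReal_re, Complex.mul_re] at h4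
  simp only [Complex.re_ofNat, Complex.im_ofNat, zero_mul, sub_zero] at h4
  linarith

end Pool.Agent.Q44.HS
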