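import Pool.Agent.Q44.HS.PtB

/-! The curvature at all the points of the closed unit bidisc. -/

set_option autoImplicit false

open scoped ComplexConjugate Topology ContDiff
open Pool.Agent.W549.CY (Cn dz dzbar)

namespace Pool.Agent.Q44.HS

/-- phases -/
noncomputable def ph (α β : ℂ) : V := fun m => α ^ m.1 * β ^ m.2.1

theorem pair_ph {α β : ℂ} (hα : α * conj α = 1) (hβ : β * conj β = 1) (f g : V) :
    pair (ph α β * f) (ph α β * g) = pair f g := by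
  unfold pair ph
  refine Finset.sum_congr rfl fun m _ => ?_
  simp only [Pi.mul_apply, map_mul, map_pow]
  have h1 : α ^ m.1 * conj α ^ m.1 = 1 := by rw [← mul_pow, hα, one_pow]
  have h2 : β ^ m.2.1 * conj β ^ m.2.1 = 1 := by rw [← mul_pow, hβ, one_pow]
  linear_combination ((m.2.2 : ℂ) * f m * conj (g m)) * (β ^ m.2.1 * conj β ^ m.2.1) * h1
    + ((m.2.2 : ℂ) * f m * conj (g m)) * h2

theorem gd_ph {α β : ℂ} (hα : α * conj α = 1) (hβ : β * conj β = 1) (f g : V) :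
    gd (ph α β * f) (ph α β * g) = gd f g := by
  unfold gd
  simp only [pair_ph hα hβ]

theorem pow_aux1 (α : ℂ) (i : ℕ) : α * ((i : ℂ) * α ^ (i - 1)) = i * α ^ i := by
  rcases i with _ | i
  · simp
  · simp only [Nat.add_sub_cancel, pow_succ]; ring

theorem pow_aux2 (α : ℂ) (i : ℕ) :
    α ^ 2 * ((i : ℂ) * (i - 1) * α ^ (i - 2)) = i * (i - 1) * α ^ i := by
  rcases i with _ | _ | i
  · simp
  · simp
  · have : i + 1 + 1 - 2 = i := by omega
    rw [this, pow_succ, pow_succ]; ring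

theorem fs0_ph (α β : ℂ) (z : Cn 2) : fs 0 ![α * z 0, β * z 1] = ph α β * fs 0 z := by
  funext m
  simp only [Pi.mul_apply, fs0, ph, Matrix.cons_val_zero, Matrix.cons_val_one, mul_pow]
  ring

theorem g1_ph (α β : ℂ) (z v : Cn 2) :
    g1 ![α * z 0, β * z 1] ![α * v 0, β * v 1] = ph α β * g1 z v := by
  funext m
  simp only [g1, Pi.mul_apply, Pi.add_apply, Pi.smul_apply, smul_eq_mul, fs1, fs2, ph,
    Matrix.cons_val_zero, Matrix.cons_val_one, mul_pow]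
  linear_combination (v 0 * z 0 ^ (m.1 - 1) * β ^ m.2.1 * z 1 ^ m.2.1) * pow_aux1 α m.1 +
    (v 1 * z 1 ^ (m.2.1 - 1) * α ^ m.1 * z 0 ^ m.1) * pow_aux1 β m.2.1

theorem g2_ph (α β : ℂ) (z v w : Cn 2) :
    g2 ![α * z 0, β * z 1] ![α * v 0, β * v 1] ![α * w 0, β * w 1] = ph α β * g2 z v w := by
  funext m
  simp only [g2, Pi.mul_apply, Pi.add_apply, Pi.smul_apply, smul_eq_mul, fs1, fs2, fs3, fs4, fs5,
    ph, Matrix.cons_val_zero, Matrix.cons_val_one, mul_pow]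
  linear_combination
    (w 0 * z 0 ^ (m.1 - 1) * β ^ m.2.1 * z 1 ^ m.2.1) * pow_aux1 α m.1 +
    (w 1 * z 1 ^ (m.2.1 - 1) * α ^ m.1 * z 0 ^ m.1) * pow_aux1 β m.2.1 +
    (v 0 ^ 2 * z 0 ^ (m.1 - 2) * β ^ m.2.1 * z 1 ^ m.2.1) * pow_aux2 α m.1 +
    (v 1 ^ 2 * z 1 ^ (m.2.1 - 2) * α ^ m.1 * z 0 ^ m.1) * pow_aux2 β m.2.1 +
    (2 * v 0 * v 1 * z 0 ^ (m.1 - 1) * z 1 ^ (m.2.1 - 1) * β * m.2.1 * β ^ (m.2.1 - 1)) *
      pow_aux1 α m.1 +
    (2 * v 0 * v 1 * z 0 ^ (m.1 - 1) * z 1 ^ (m.2.1 - 1) * m.1 * α ^ m.1) * pow_aux1 β m.2.1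

theorem ef_ph {α β : ℂ} (hα : α * conj α = 1) (hβ : β * conj β = 1) (z v w : Cn 2) :
    ef ![α * v 0, β * v 1] ![α * w 0, β * w 1] ![α * z 0, β * z 1] = ef v w z := by
  unfold ef
  rw [fs0_ph, g1_ph, g2_ph, pair_ph hα hβ, pair_ph hα hβ, gd_ph hα hβ]
  have h : pair (fs 0 z) (fs 0 z) • (ph α β * g2 z v w) +
      (-2 * pair (g1 z v) (fs 0 z)) • (ph α β * g1 z v) =
      ph α β * (pair (fs 0 z) (fs 0 z) • g2 z v w + (-2 * pair (g1 z v) (fs 0 z)) • g1 z v) := by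
    rw [mul_add, mul_smul_comm, mul_smul_comm]
  rw [h, gd_ph hα hβ]

theorem exists_phase (a : ℂ) : ∃ α : ℂ, α * conj α = 1 ∧ a = α * ((‖a‖ : ℝ) : ℂ) := by
  by_cases ha : a = 0
  · exact ⟨1, by simp, by simp [ha]⟩
  · have h0 : ((‖a‖ : ℝ) : ℂ) ≠ 0 := by
      rw [Complex.ofReal_ne_zero]; exact norm_ne_zero_iff.2 ha
    refine ⟨a / (‖a‖ : ℝ), ?_, by field_simp⟩
    rw [map_div₀, Complex.conj_ofReal, div_mul_div_comm, Complex.mul_conj, Complex.normSq_eq_norm_sq]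
    push_cast
    field_simp

/-- Positivity at every point of the bidisc, for a suitable second derivative. -/
theorem exists_ef_pos {z v : Cn 2} (h0 : ‖z 0‖ ≤ 1) (h1 : ‖z 1‖ ≤ 1) (hv : v ≠ 0) :
    ∃ w : Cn 2, 0 < (ef v w z).re := by
  obtain ⟨α, hα, hzα⟩ := exists_phase (z 0)
  obtain ⟨β, hβ, hzβ⟩ := exists_phase (z 1)
  set x : ℝ := ‖z 0‖
  set y : ℝ := ‖z 1‖
  set v' : Cn 2 := ![conj α * v 0, conj β * v 1] with hv'
  have e1 : v = ![α * v' 0, β * v' 1] := by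
    rw [hv']
    funext i
    fin_cases i
    · simp only [Fin.zero_eta, Matrix.cons_val_zero]
      linear_combination (-v 0) * hα
    · simp only [Fin.mk_one, Matrix.cons_val_one, Matrix.cons_val_fin_one]
      linear_combination (-v 1) * hβ
  have e2 : z = ![α * rp x y 0, β * rp x y 1] := by
    funext i
    fin_cases i
    · simpa [rp] using hzα
    · simpa [rp] using hzβ
  have hv0 : v' ≠ 0 := by
    intro h
    apply hv
    rw [e1, h]
    funext i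
    fin_cases i <;> simp
  refine ⟨![α * (-wv x y v') 0, β * (-wv x y v') 1], ?_⟩
  rw [e1, e2, ef_ph hα hβ]
  exact ef_pos ⟨norm_nonneg _, h0⟩ ⟨norm_nonneg _, h1⟩ hv0

/-- The test curve. -/
theorem exists_curve {z v : Cn 2} (h0 : ‖z 0‖ ≤ 1) (h1 : ‖z 1‖ ≤ 1) (hv : v ≠ 0) :
    ∃ γ γ₁ γ₂ : ℂ → Cn 2, γ 0 = z ∧ γ₁ 0 = v ∧ (∀ t, HasDerivAt γ (γ₁ t) t) ∧
      (∀ t, HasDerivAt γ₁ (γ₂ t) t) ∧ Differentiable ℂ γ₂ ∧
      0 < -(dt (db fun s => sp (fs 0 (γ s)) (g1 (γ s) (γ₁ s))) 0).re := by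
  obtain ⟨w, hw⟩ := exists_ef_pos h0 h1 hv
  have a1 : ∀ t : ℂ, HasDerivAt (fun s : ℂ => z + s • v + (s ^ 2 / 2) • w) (v + t • w) t := by
    intro t
    have b1 : HasDerivAt (fun s : ℂ => s • v) ((1 : ℂ) • v) t := (hasDerivAt_id t).smul_const v
    have b2 : HasDerivAt (fun s : ℂ => s ^ 2 / 2) t t := by
      have := (hasDerivAt_pow 2 t).div_const 2
      refine this.congr_deriv ?_
      simp
    have b3 := b2.smul_const w
    have b4 := (b1.const_add z).add b3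
    rw [one_smul] at b4
    exact b4
  have a2 : ∀ t : ℂ, HasDerivAt (fun s : ℂ => v + s • w) w t := by
    intro t
    have b1 : HasDerivAt (fun s : ℂ => s • w) ((1 : ℂ) • w) t := (hasDerivAt_id t).smul_const w
    rw [one_smul] at b1
    exact b1.const_add v
  refine ⟨fun s => z + s • v + (s ^ 2 / 2) • w, fun s => v + s • w, fun _ => w, by simp, by simp,
    a1, a2, differentiable_const _, ?_⟩
  have a3 := dt_db_curve (γ := fun s => z + s • v + (s ^ 2 / 2) • w) (γ₁ := fun s => v + s • w)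
    (γ₂ := fun _ => w) (Filter.Eventually.of_forall a1) (Filter.Eventually.of_forall a2)
    (differentiableAt_const _)
  have e1 : z + (0 : ℂ) • v + ((0 : ℂ) ^ 2 / 2) • w = z := by simp
  have e2 : v + (0 : ℂ) • w = v := by simp
  simp only [e1, e2] at a3
  set D := dt (db fun s => sp (fs 0 (z + s • v + (s ^ 2 / 2) • w))
    (g1 (z + s • v + (s ^ 2 / 2) • w) (v + s • w))) 0 with hD
  have a4 : -D * pair (fs 0 z) (fs 0 z) ^ 4 = ef v w z := a3
  have hp := pair_self_pos (fs0_ne z)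
  rw [pair_self] at a4
  set p : ℝ := ∑ m ∈ K, (m.2.2 : ℝ) * Complex.normSq (fs 0 z m)
  rw [← a4, ← Complex.ofReal_pow, Complex.re_mul_ofReal, Complex.neg_re] at hw
  exact (pos_iff_pos_of_mul_pos hw).2 (by positivity)

end Pool.Agent.Q44.HS
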