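import Pool.Agent.Q44.HS.Trans
import Pool.Agent.Q44.HS.Defs

/-! The surface `{xyz = 1}` in `(ℙ¹)³`. -/

set_option autoImplicit false

open scoped ComplexConjugate Topology ContDiff Manifold
open OnePoint (infty)
open Pool.Agent.W549.CY (Cn dz dzbar)
open Pool.Agent.Helper114.Herman (sinv sinvHomeo sinv_zero sinv_infty sinv_coe sinv_sinv
  continuous_sinv pr pr_zero pr_ne)

namespace Pool.Agent.Q44.HS

/-- the Riemann sphere -/
abbrev S1 : Type := OnePoint ℂ

/-- first homogeneous coordinate -/
noncomputable def num (x : S1) : ℂ := x.elim 1 (fun z => z)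

/-- second homogeneous coordinate -/
noncomputable def den (x : S1) : ℂ := x.elim 0 (fun _ => 1)

@[simp] theorem num_infty : num infty = 1 := rfl
@[simp] theorem num_coe (z : ℂ) : num (z : S1) = z := rfl
@[simp] theorem den_infty : den infty = 0 := rfl
@[simp] theorem den_coe (z : ℂ) : den (z : S1) = 1 := rfl

theorem den_eq_zero {x : S1} : den x = 0 ↔ x = infty := by
  induction x using OnePoint.rec with
  | infty => simp
  | coe z => simp

theorem num_eq_zero {x : S1} : num x = 0 ↔ x = ((0 : ℂ) : S1) := by
  induction x using OnePoint.rec with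
  | infty => simp
  | coe z => simp

theorem num_den_sinv (x : S1) : ∃ k : ℂ, k ≠ 0 ∧ num (sinv x) = k * den x ∧
    den (sinv x) = k * num x := by
  induction x using OnePoint.rec with
  | infty => exact ⟨1, one_ne_zero, by simp [sinv_infty], by simp [sinv_infty]⟩
  | coe z =>
    by_cases hz : z = 0
    · subst hz
      exact ⟨1, one_ne_zero, by simp [sinv_zero], by simp [sinv_zero]⟩
    · exact ⟨z⁻¹, inv_ne_zero hz, by simp [sinv_coe hz], by simp [sinv_coe hz, hz]⟩

/-- the equation `xyz = 1` -/
def Rel (x y z : S1) : Prop := num x * num y * num z = den x * den y * den z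

theorem Rel.inv {x y z : S1} (h : Rel x y z) : Rel (sinv x) (sinv y) (sinv z) := by
  obtain ⟨a, _, h1, h2⟩ := num_den_sinv x
  obtain ⟨b, _, h3, h4⟩ := num_den_sinv y
  obtain ⟨c, _, h5, h6⟩ := num_den_sinv z
  unfold Rel at *
  rw [h1, h2, h3, h4, h5, h6]
  linear_combination (-(a * b * c)) * h

theorem Rel.rot {x y z : S1} (h : Rel x y z) : Rel z x y := by
  unfold Rel at *
  linear_combination h

/-- The surface. -/
def Surf : Type := {p : S1 × S1 × S1 // Rel p.1 p.2.1 p.2.2}

noncomputable instance : TopologicalSpace Surf := instTopologicalSpaceSubtype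

instance : T2Space Surf := inferInstanceAs (T2Space {p : S1 × S1 × S1 // Rel p.1 p.2.1 p.2.2})

/-- The point `(x, y, z)`. -/
def mk (x y z : S1) (h : Rel x y z) : Surf := ⟨(x, y, z), h⟩

/-- coordinates -/
def px (p : Surf) : S1 := p.1.1
/-- coordinates -/
def py (p : Surf) : S1 := p.1.2.1
/-- coordinates -/
def pz (p : Surf) : S1 := p.1.2.2

theorem continuous_px : Continuous px := continuous_fst.comp continuous_subtype_val
theorem continuous_py : Continuous py :=
  continuous_fst.comp (continuous_snd.comp continuous_subtype_val)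
theorem continuous_pz : Continuous pz :=
  continuous_snd.comp (continuous_snd.comp continuous_subtype_val)

theorem rel (p : Surf) : Rel (px p) (py p) (pz p) := p.2

theorem surf_ext {p q : Surf} (h1 : px p = px q) (h2 : py p = py q) (h3 : pz p = pz q) : p = q := by
  apply Subtype.ext
  exact Prod.ext h1 (Prod.ext h2 h3)

theorem continuous_mk {A : Type*} [TopologicalSpace A] {f g h : A → S1} (hf : Continuous f)
    (hg : Continuous g) (hh : Continuous h) (hr : ∀ a, Rel (f a) (g a) (h a)) :
    Continuous fun a => mk (f a) (g a) (h a) (hr a) :=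
  (hf.prodMk (hg.prodMk hh)).subtype_mk _

/-- The automorphism `(x, y, z) ↦ (1/z, 1/x, 1/y)`. -/
noncomputable def T : Surf ≃ₜ Surf where
  toFun p := mk (sinv (pz p)) (sinv (px p)) (sinv (py p)) (rel p).inv.rot
  invFun p := mk (sinv (py p)) (sinv (pz p)) (sinv (px p)) (rel p).inv.rot.rot
  left_inv _ := surf_ext (sinv_sinv _) (sinv_sinv _) (sinv_sinv _)
  right_inv _ := surf_ext (sinv_sinv _) (sinv_sinv _) (sinv_sinv _)
  continuous_toFun := continuous_mk (continuous_sinv.comp continuous_pz)
    (continuous_sinv.comp continuous_px) (continuous_sinv.comp continuous_py) _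
  continuous_invFun := continuous_mk (continuous_sinv.comp continuous_py)
    (continuous_sinv.comp continuous_pz) (continuous_sinv.comp continuous_px) _

@[simp] theorem px_T (p : Surf) : px (T p) = sinv (pz p) := rfl
@[simp] theorem py_T (p : Surf) : py (T p) = sinv (px p) := rfl
@[simp] theorem pz_T (p : Surf) : pz (T p) = sinv (py p) := rfl

theorem T_six (p : Surf) : T (T (T (T (T (T p))))) = p := by
  apply surf_ext <;> simp [sinv_sinv]

theorem T_pow_six : T ^ 6 = 1 := by
  ext p
  exact T_six p

/-- The inverse of the base chart. -/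
noncomputable def io (w : Cn 2) : Surf :=
  mk (w 1 : S1) (w 0 : S1) (sinv ((w 0 * w 1 : ℂ) : S1)) (by
    obtain ⟨k, _, h1, h2⟩ := num_den_sinv ((w 0 * w 1 : ℂ) : S1)
    unfold Rel
    rw [h1, h2]
    simp only [num_coe, den_coe]
    ring)

@[simp] theorem px_io (w : Cn 2) : px (io w) = (w 1 : S1) := rfl
@[simp] theorem py_io (w : Cn 2) : py (io w) = (w 0 : S1) := rfl
@[simp] theorem pz_io (w : Cn 2) : pz (io w) = sinv ((w 0 * w 1 : ℂ) : S1) := rfl

theorem continuous_io : Continuous io :=
  continuous_mk (OnePoint.continuous_coe.comp (continuous_apply 1))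
    (OnePoint.continuous_coe.comp (continuous_apply 0))
    (continuous_sinv.comp (OnePoint.continuous_coe.comp
      ((continuous_apply 0).mul (continuous_apply 1)))) _

theorem chartZero_coe (z : ℂ) : chartZero (z : S1) = z := by
  have h := (OnePoint.isOpenEmbedding_coe.toOpenPartialHomeomorph ((↑) : ℂ → S1)).left_inv
    (x := z) (by simp)
  exact h

theorem coe_chartZero {x : S1} (hx : x ≠ infty) : ((chartZero x : ℂ) : S1) = x := by
  obtain ⟨z, rfl⟩ := OnePoint.ne_infty_iff_exists.1 hx
  rw [chartZero_coe]

/-- On the domain of the base chart, the points are determined by two coordinates. -/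
theorem eq_io {p : Surf} (hx : px p ≠ infty) (hy : py p ≠ infty) :
    p = io ![chartZero (py p), chartZero (px p)] := by
  apply surf_ext
  · simp [coe_chartZero hx]
  · simp [coe_chartZero hy]
  · obtain ⟨a, ha⟩ := OnePoint.ne_infty_iff_exists.1 hx
    obtain ⟨b, hb⟩ := OnePoint.ne_infty_iff_exists.1 hy
    have h := rel p
    unfold Rel at h
    rw [← ha, ← hb] at h ⊢
    simp only [num_coe, den_coe, mul_one, one_mul] at h
    simp only [pz_io, Matrix.cons_val_zero, Matrix.cons_val_one, Matrix.cons_val_fin_one,
      chartZero_coe]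
    generalize pz p = z at h
    induction z using OnePoint.rec with
    | infty =>
      simp only [num_infty, den_infty, mul_one] at h
      rw [mul_comm b a, h, sinv_zero]
    | coe c =>
      simp only [num_coe, den_coe] at h
      have hne : b * a ≠ 0 := by
        intro h0
        rw [mul_comm a b, h0] at h
        simp at h
      rw [sinv_coe hne]
      congr 1
      rw [mul_comm a b] at h
      exact eq_inv_of_mul_eq_one_right h

/-- The base chart `(y, x)`, with domain `x ≠ infty`, `y ≠ infty`. -/
noncomputable def E0 : OpenPartialHomeomorph Surf (Cn 2) where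
  toFun p := ![chartZero (py p), chartZero (px p)]
  invFun := io
  source := {p | px p ≠ infty ∧ py p ≠ infty}
  target := Set.univ
  map_source' _ _ := Set.mem_univ _
  map_target' w _ := ⟨OnePoint.coe_ne_infty _, OnePoint.coe_ne_infty _⟩
  left_inv' p hp := (eq_io hp.1 hp.2).symm
  right_inv' w _ := by
    funext i
    fin_cases i
    · simp [chartZero_coe]
    · simp [chartZero_coe]
  open_source := (isOpen_ne_fun continuous_px continuous_const).inter
    (isOpen_ne_fun continuous_py continuous_const)
  open_target := isOpen_univ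
  continuousOn_toFun := by
    refine continuousOn_pi.2 fun i => ?_
    fin_cases i
    · exact chartZero.continuousOn.comp continuous_py.continuousOn
        fun p hp => (mem_chartZero _).2 hp.2
    · exact chartZero.continuousOn.comp continuous_px.continuousOn
        fun p hp => (mem_chartZero _).2 hp.1
  continuousOn_invFun := continuous_io.continuousOn

@[simp] theorem E0_apply (p : Surf) : E0 p = ![chartZero (py p), chartZero (px p)] := rfl
@[simp] theorem E0_symm (w : Cn 2) : E0.symm w = io w := rfl
theorem mem_E0 (p : Surf) : p ∈ E0.source ↔ px p ≠ infty ∧ py p ≠ infty := Iff.rfl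

/-- The charts, for `k` modulo 6. -/
noncomputable def E (k : ℤ) : OpenPartialHomeomorph Surf (Cn 2) :=
  (T ^ k).toOpenPartialHomeomorph ≫ₕ E0

theorem E_apply (k : ℤ) (p : Surf) : E k p = E0 ((T ^ k) p) := rfl

theorem mem_E (k : ℤ) (p : Surf) : p ∈ (E k).source ↔ (T ^ k) p ∈ E0.source := by
  unfold E
  rw [OpenPartialHomeomorph.trans_source]
  simp

theorem E_symm (k : ℤ) (w : Cn 2) : (E k).symm w = (T ^ (-k)) (io w) := by
  rw [zpow_neg]
  rfl

theorem E_target (k : ℤ) : (E k).target = Set.univ := by
  unfold E
  rw [OpenPartialHomeomorph.trans_target]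
  simp [E0]

end Pool.Agent.Q44.HS
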