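import Pool.Agent.Q44.HS.Surf

/-! The surface as a compact connected complex manifold. -/

set_option autoImplicit false
set_option linter.unusedSimpArgs false
set_option linter.unusedVariables false
set_option linter.style.haveILetI false

open scoped ComplexConjugate Topology ContDiff Manifold
open OnePoint (infty)
open Pool.Agent.W549.CY (Cn dz dzbar)
open Pool.Agent.Helper114.Herman (sinv sinvHomeo sinv_zero sinv_infty sinv_coe sinv_sinv
  continuous_sinv pr pr_zero pr_ne)

namespace Pool.Agent.Q44.HS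

theorem T_zpow_six_mul (q : ℤ) : T ^ (6 * q) = 1 := by
  rw [zpow_mul]
  have : T ^ (6 : ℤ) = 1 := by
    rw [show (6 : ℤ) = ((6 : ℕ) : ℤ) by norm_num, zpow_natCast, T_pow_six]
  rw [this, one_zpow]

theorem T_zpow_mod (n : ℤ) : T ^ n = T ^ (n % 6) := by
  conv_lhs => rw [← Int.mul_ediv_add_emod n 6, zpow_add, T_zpow_six_mul, one_mul]

theorem T_zpow_nat (n : ℕ) (p : Surf) : (T ^ (n : ℤ)) p = T^[n] p := by
  rw [zpow_natCast]
  induction n with
  | zero => rfl
  | succ n ih => rw [pow_succ', Homeomorph.mul_apply, ih, Function.iterate_succ_apply']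

/-- the six powers -/
theorem T_cases (n : ℤ) : ∃ r : ℕ, r < 6 ∧ ∀ p, (T ^ n) p = T^[r] p := by
  have h1 := Int.emod_nonneg n (show (6 : ℤ) ≠ 0 by norm_num)
  have h2 := Int.emod_lt_of_pos n (show (0 : ℤ) < 6 by norm_num)
  obtain ⟨r, hr⟩ := Int.eq_ofNat_of_zero_le h1
  refine ⟨r, by omega, fun p => ?_⟩
  rw [T_zpow_mod, hr]
  exact T_zpow_nat r p

/-- change of coordinates -/
noncomputable def trans (n : ℤ) (w : Cn 2) : Cn 2 := E0 ((T ^ n) (io w))

theorem io_E0 {p : Surf} (hp : p ∈ E0.source) : io (E0 p) = p := E0.left_inv hp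

theorem E0_io (w : Cn 2) : E0 (io w) = w := E0.right_inv (Set.mem_univ w)

theorem io_mem (w : Cn 2) : io w ∈ E0.source := ⟨OnePoint.coe_ne_infty _, OnePoint.coe_ne_infty _⟩

theorem trans_trans {m n : ℤ} {w : Cn 2} (h : (T ^ n) (io w) ∈ E0.source) :
    trans m (trans n w) = trans (m + n) w := by
  unfold trans
  rw [io_E0 h, zpow_add, Homeomorph.mul_apply]

theorem trans_neg {n : ℤ} {w : Cn 2} (h : (T ^ n) (io w) ∈ E0.source) :
    trans (-n) (trans n w) = w := by
  rw [trans_trans h, neg_add_cancel]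
  unfold trans
  rw [zpow_zero, Homeomorph.one_apply, E0_io]

theorem isOpen_dom (n : ℤ) : IsOpen {w | (T ^ n) (io w) ∈ E0.source} :=
  E0.open_source.preimage ((T ^ n).continuous.comp continuous_io)

theorem chartZero_sinv {z : ℂ} (hz : z ≠ 0) : chartZero (sinv (z : S1)) = z⁻¹ := by
  rw [sinv_coe hz, chartZero_coe]

theorem sinv_ne_infty {z : ℂ} : sinv (z : S1) ≠ infty ↔ z ≠ 0 := by
  constructor
  · intro h hz
    rw [hz, sinv_zero] at h
    exact h rfl
  · intro hz
    rw [sinv_coe hz]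
    exact OnePoint.coe_ne_infty _

theorem Good.congr {τ τ' : Cn 2 → Cn 2} {w : Cn 2} (h : Good τ' w) (he : τ =ᶠ[𝓝 w] τ') :
    Good τ w where
  contDiff := h.contDiff.congr_of_eventuallyEq he
  inv := by
    obtain ⟨ρ, hρ, μ, hμ, hμ0, hev⟩ := h.inv
    refine ⟨ρ, hρ, μ, hμ, hμ0, ?_⟩
    filter_upwards [hev, he] with z h1 h2 m hm
    rw [h2]
    exact h1 m hm

theorem iter1 (p : Surf) : T^[1] p = T p := rfl
theorem iter2 (p : Surf) : T^[2] p = T (T p) := rfl
theorem iter3 (p : Surf) : T^[3] p = T (T (T p)) := rfl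
theorem iter4 (p : Surf) : T^[4] p = T (T (T (T p))) := rfl
theorem iter5 (p : Surf) : T^[5] p = T (T (T (T (T p)))) := rfl

/-- The changes of coordinates are holomorphic and preserve the metric. -/
theorem trans_good {n : ℤ} {w : Cn 2} (h : (T ^ n) (io w) ∈ E0.source) : Good (trans n) w := by
  obtain ⟨r, hr, hT⟩ := T_cases n
  have ht : ∀ z, trans n z = E0 (T^[r] (io z)) := fun z => by unfold trans; rw [hT]
  rw [hT, mem_E0] at h
  have c0 : ∀ {a : ℂ}, w 0 ≠ a → ∀ᶠ z : Cn 2 in 𝓝 w, z 0 ≠ a := fun ha =>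
    (continuous_apply 0).continuousAt.eventually_ne ha
  have c1 : ∀ {a : ℂ}, w 1 ≠ a → ∀ᶠ z : Cn 2 in 𝓝 w, z 1 ≠ a := fun ha =>
    (continuous_apply 1).continuousAt.eventually_ne ha
  have c2 : ∀ {a : ℂ}, w 0 * w 1 ≠ a → ∀ᶠ z : Cn 2 in 𝓝 w, z 0 * z 1 ≠ a := fun ha =>
    ((continuous_apply 0).mul (continuous_apply 1)).continuousAt.eventually_ne ha
  interval_cases r
  · refine (good0 w).congr (Filter.Eventually.of_forall fun z => ?_)
    rw [ht]
    simp [chartZero_coe]
  · simp only [iter1, px_T, py_T, pz_T, px_io, py_io, pz_io, sinv_sinv, sinv_ne_infty] at h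
    refine (good1 h.2).congr ?_
    filter_upwards [c1 h.2] with z hz
    rw [ht]
    simp [iter1, sinv_sinv, chartZero_coe, chartZero_sinv hz]
  · simp only [iter2, px_T, py_T, pz_T, px_io, py_io, pz_io, sinv_sinv, sinv_ne_infty] at h
    refine (good2 h.2).congr ?_
    filter_upwards [c2 h.2] with z hz
    rw [ht]
    simp only [iter2, px_T, py_T, pz_T, px_io, py_io, pz_io, sinv_sinv, E0_apply, chartZero_coe,
      chartZero_sinv hz]
  · simp only [iter3, px_T, py_T, pz_T, px_io, py_io, pz_io, sinv_sinv, sinv_ne_infty] at h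
    refine (good3 h.2 h.1).congr ?_
    filter_upwards [c0 h.2, c1 h.1] with z hz hz'
    rw [ht]
    simp only [iter3, px_T, py_T, pz_T, px_io, py_io, pz_io, sinv_sinv, E0_apply, chartZero_coe,
      chartZero_sinv hz, chartZero_sinv hz']
  · simp only [iter4, px_T, py_T, pz_T, px_io, py_io, pz_io, sinv_sinv, sinv_ne_infty] at h
    refine (good4 h.1).congr ?_
    filter_upwards [c2 h.1] with z hz
    rw [ht]
    simp only [iter4, px_T, py_T, pz_T, px_io, py_io, pz_io, sinv_sinv, E0_apply, chartZero_coe,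
      chartZero_sinv hz]
  · simp only [iter5, px_T, py_T, pz_T, px_io, py_io, pz_io, sinv_sinv, sinv_ne_infty] at h
    refine (good5 h.1).congr ?_
    filter_upwards [c0 h.1] with z hz
    rw [ht]
    simp only [iter5, px_T, py_T, pz_T, px_io, py_io, pz_io, sinv_sinv, E0_apply, chartZero_coe,
      chartZero_sinv hz]

/-! ### the covering by six closed bidiscs -/

/-- the closed unit disc -/
def small (x : S1) : Prop := ∃ c : ℂ, x = (c : S1) ∧ ‖c‖ ≤ 1

theorem small_or (x : S1) : small x ∨ small (sinv x) := by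
  induction x using OnePoint.rec with
  | infty => exact Or.inr ⟨0, sinv_infty, by simp⟩
  | coe z =>
    by_cases h : ‖z‖ ≤ 1
    · exact Or.inl ⟨z, rfl, h⟩
    · push Not at h
      have hz : z ≠ 0 := by
        intro h0
        rw [h0, norm_zero] at h
        linarith
      refine Or.inr ⟨z⁻¹, sinv_coe hz, ?_⟩
      rw [norm_inv]
      exact inv_le_one_of_one_le₀ h.le

theorem exists_io {p : Surf} (hx : small (px p)) (hy : small (py p)) :
    ∃ w : Cn 2, p = io w ∧ ‖w 0‖ ≤ 1 ∧ ‖w 1‖ ≤ 1 := by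
  obtain ⟨a, ha, ha'⟩ := hx
  obtain ⟨b, hb, hb'⟩ := hy
  refine ⟨![b, a], ?_, by simpa using hb', by simpa using ha'⟩
  have h := eq_io (p := p) (by rw [ha]; exact OnePoint.coe_ne_infty _)
    (by rw [hb]; exact OnePoint.coe_ne_infty _)
  rw [ha, hb, chartZero_coe, chartZero_coe] at h
  exact h

theorem exists_bidisc (p : Surf) : ∃ k : ℕ, k < 6 ∧ ∃ w : Cn 2, (T ^ (k : ℤ)) p = io w ∧
    ‖w 0‖ ≤ 1 ∧ ‖w 1‖ ≤ 1 := by
  have key : ∃ k : ℕ, k < 6 ∧ small (px (T^[k] p)) ∧ small (py (T^[k] p)) := by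
    rcases small_or (px p) with hx | hx
    · rcases small_or (py p) with hy | hy
      · exact ⟨0, by norm_num, hx, hy⟩
      · rcases small_or (pz p) with hz | hz
        · exact ⟨4, by norm_num, by simpa [iter4, sinv_sinv] using hz,
            by simpa [iter4, sinv_sinv] using hx⟩
        · exact ⟨5, by norm_num, by simpa [iter5, sinv_sinv] using hy,
            by simpa [iter5, sinv_sinv] using hz⟩
    · rcases small_or (py p) with hy | hy
      · rcases small_or (pz p) with hz | hz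
        · exact ⟨2, by norm_num, by simpa [iter2, sinv_sinv] using hy,
            by simpa [iter2, sinv_sinv] using hz⟩
        · exact ⟨1, by norm_num, by simpa [iter1, sinv_sinv] using hz,
            by simpa [iter1, sinv_sinv] using hx⟩
      · exact ⟨3, by norm_num, by simpa [iter3, sinv_sinv] using hx,
          by simpa [iter3, sinv_sinv] using hy⟩
  obtain ⟨k, hk, h1, h2⟩ := key
  obtain ⟨w, hw, h3, h4⟩ := exists_io h1 h2
  exact ⟨k, hk, w, by rw [T_zpow_nat, hw], h3, h4⟩

theorem eq_symm {k : ℤ} {p : Surf} {w : Cn 2} (h : (T ^ k) p = io w) : p = (E k).symm w := by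
  rw [E_symm, ← h, ← Homeomorph.mul_apply, ← zpow_add, neg_add_cancel, zpow_zero,
    Homeomorph.one_apply]

instance : CompactSpace Surf := by
  refine ⟨?_⟩
  have h : (Set.univ : Set Surf) =
      ⋃ k ∈ Finset.range 6, (fun w => (T ^ (-(k : ℤ))) (io w)) '' Metric.closedBall 0 1 := by
    refine (Set.eq_univ_of_forall fun p => ?_).symm
    obtain ⟨k, hk, w, hw, h1, h2⟩ := exists_bidisc p
    refine Set.mem_iUnion₂.2 ⟨k, Finset.mem_range.2 hk, w, ?_, ?_⟩
    · rw [mem_closedBall_zero_iff, pi_norm_le_iff_of_nonneg zero_le_one]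
      intro i
      fin_cases i
      · exact h1
      · exact h2
    · have := eq_symm hw
      rw [E_symm] at this
      exact this.symm
  rw [h]
  exact (Finset.range 6).isCompact_biUnion fun k _ =>
    (isCompact_closedBall _ _).image ((T ^ (-(k : ℤ))).continuous.comp continuous_io)

theorem exists_chart (p : Surf) : ∃ k : ℤ, p ∈ (E k).source := by
  obtain ⟨k, _, w, hw, _, _⟩ := exists_bidisc p
  exact ⟨k, by rw [mem_E, hw]; exact io_mem w⟩

noncomputable instance : ChartedSpace (Cn 2) Surf where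
  atlas := Set.range E
  chartAt p := E (exists_chart p).choose
  mem_chart_source p := (exists_chart p).choose_spec
  chart_mem_atlas p := ⟨_, rfl⟩

theorem mem_atlas {e : OpenPartialHomeomorph Surf (Cn 2)} :
    e ∈ atlas (Cn 2) Surf ↔ ∃ k, E k = e := Iff.rfl

theorem E_mem (k : ℤ) : E k ∈ atlas (Cn 2) Surf := ⟨k, rfl⟩

theorem E_comp_symm (j k : ℤ) : (E k) ∘ (E j).symm = trans (k - j) := by
  funext w
  rw [Function.comp_apply, E_symm, E_apply, trans, ← Homeomorph.mul_apply, ← zpow_add,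
    sub_eq_add_neg]

theorem mem_dom {j k : ℤ} {w : Cn 2} (h : (E j).symm w ∈ (E k).source) :
    (T ^ (k - j)) (io w) ∈ E0.source := by
  rw [mem_E, E_symm, ← Homeomorph.mul_apply, ← zpow_add, ← sub_eq_add_neg] at h
  exact h

instance : IsManifold 𝓘(ℂ, Cn 2) ω Surf := by
  refine isManifold_of_contDiffOn _ _ _ ?_
  rintro e e' ⟨j, rfl⟩ ⟨k, rfl⟩
  simp only [modelWithCornersSelf_coe, modelWithCornersSelf_coe_symm, Function.id_comp,
    Function.comp_id, Set.preimage_id, Set.range_id, Set.inter_univ, id_eq]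
  intro w hw
  rw [OpenPartialHomeomorph.trans_source] at hw
  have h1 := mem_dom (j := j) (k := k) (w := w) hw.2
  have h2 := (trans_good h1).contDiff
  rw [OpenPartialHomeomorph.coe_trans, E_comp_symm]
  exact h2.contDiffWithinAt

theorem T_fixed : ∃ p : Surf, ∀ k : ℤ, (T ^ k) p = p := by
  refine ⟨mk ((1 : ℂ) : S1) ((1 : ℂ) : S1) ((1 : ℂ) : S1) (by unfold Rel; simp), fun k => ?_⟩
  have h1 : T (mk ((1 : ℂ) : S1) ((1 : ℂ) : S1) ((1 : ℂ) : S1) (by unfold Rel; simp)) =
      mk ((1 : ℂ) : S1) ((1 : ℂ) : S1) ((1 : ℂ) : S1) (by unfold Rel; simp) := by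
    have h : sinv ((1 : ℂ) : S1) = ((1 : ℂ) : S1) := by
      rw [sinv_coe one_ne_zero, inv_one]
    apply surf_ext
    · exact h
    · exact h
    · exact h
  obtain ⟨r, _, hT⟩ := T_cases k
  rw [hT]
  exact Function.iterate_fixed h1 r

instance : ConnectedSpace Surf := by
  obtain ⟨q, hq⟩ := T_fixed
  have hq0 : px q ≠ infty ∧ py q ≠ infty → q ∈ E0.source := fun h => h
  have hne : q ∈ E0.source := by
    obtain ⟨k, hk⟩ := exists_chart q
    rw [mem_E, hq] at hk
    exact hk
  have h : (Set.univ : Set Surf) = ⋃ k : ℤ, (E k).symm '' Set.univ := by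
    refine (Set.eq_univ_of_forall fun p => ?_).symm
    obtain ⟨k, _, w, hw, _, _⟩ := exists_bidisc p
    exact Set.mem_iUnion.2 ⟨k, w, Set.mem_univ _, (eq_symm hw).symm⟩
  have hpre : IsPreconnected (Set.univ : Set Surf) := by
    rw [h]
    refine isPreconnected_iUnion ⟨q, Set.mem_iInter.2 fun k => ⟨E0 q, Set.mem_univ _, ?_⟩⟩
      fun k => ?_
    · rw [E_symm, io_E0 hne, hq]
    · refine isPreconnected_univ.image _ ?_
      have : (fun w => (E k).symm w) = fun w => (T ^ (-k)) (io w) := by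
        funext w; exact E_symm k w
      exact (this ▸ ((T ^ (-k)).continuous.comp continuous_io) :
        Continuous fun w => (E k).symm w).continuousOn
  haveI : PreconnectedSpace Surf := ⟨hpre⟩
  exact ⟨⟨q⟩⟩

end Pool.Agent.Q44.HS
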