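import Pool.Agent.Q44.HS.Metric

/-! The six changes of coordinates. -/

set_option autoImplicit false

open scoped ComplexConjugate Topology ContDiff
open Pool.Agent.W549.CY (Cn dz dzbar)

namespace Pool.Agent.Q44.HS

theorem wts_bd : ∀ m ∈ wts, m.1 ≤ 6 ∧ m.2.1 ≤ 6 ∧ m.1 ≤ m.2.1 + 3 ∧ m.2.1 ≤ m.1 + 3 := by decide

theorem K_bd {m : ℕ × ℕ × ℤ} (hm : m ∈ K) :
    m.1 ≤ 6 ∧ m.2.1 ≤ 6 ∧ m.1 ≤ m.2.1 + 3 ∧ m.2.1 ≤ m.1 + 3 :=
  wts_bd m (List.mem_toFinset.1 hm)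

theorem inv_pow_mul_pow {x : ℂ} (hx : x ≠ 0) (k : ℕ) : (x⁻¹) ^ k * x ^ k = 1 := by
  rw [← mul_pow, inv_mul_cancel₀ hx, one_pow]

theorem pow_eq_of {x : ℂ} {a b c d : ℕ} (h : a + b = c + d) : x ^ a * x ^ b = x ^ c * x ^ d := by
  rw [← pow_add, ← pow_add, h]

theorem contDiffAt_vec {f g : Cn 2 → ℂ} {w : Cn 2} (hf : ContDiffAt ℂ ω f w)
    (hg : ContDiffAt ℂ ω g w) : ContDiffAt ℂ ω (fun z => ![f z, g z]) w := by
  rw [contDiffAt_pi]
  intro i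
  fin_cases i
  · exact hf
  · exact hg

theorem contDiffAt_coord (i : Fin 2) (w : Cn 2) : ContDiffAt ℂ ω (fun z : Cn 2 => z i) w := by
  fun_prop

theorem good0 (w : Cn 2) : Good (fun z => ![z 0, z 1]) w where
  contDiff := contDiffAt_vec (contDiffAt_coord 0 w) (contDiffAt_coord 1 w)
  inv := by
    refine ⟨fun m => m, ⟨fun m h => h, fun _ _ => rfl, fun m h => ⟨m, h, rfl⟩⟩, fun _ => 1,
      differentiableAt_const _, one_ne_zero, Filter.Eventually.of_forall fun z m hm => ?_⟩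
    simp [fs0]

theorem good1 {w : Cn 2} (h : w 1 ≠ 0) : Good (fun z => ![(z 1)⁻¹, z 0 * z 1]) w where
  contDiff := contDiffAt_vec ((contDiffAt_coord 1 w).inv h)
    ((contDiffAt_coord 0 w).mul (contDiffAt_coord 1 w))
  inv := by
    refine ⟨fun m => (m.1 + 3 - m.2.1, m.1, m.2.2), ⟨by decide, fun _ _ => rfl, by decide⟩,
      fun z => (z 1)⁻¹ ^ 3, ?_, pow_ne_zero _ (inv_ne_zero h), ?_⟩
    · exact (((contDiffAt_coord 1 w).inv h).pow 3).differentiableAt (by simp)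
    · have hc : ∀ᶠ z : Cn 2 in 𝓝 w, z 1 ≠ 0 :=
        (continuous_apply 1).continuousAt.eventually_ne h
      filter_upwards [hc] with z hz m hm
      obtain ⟨h1, h2, h3, h4⟩ := K_bd hm
      simp only [fs0, Matrix.cons_val_zero, Matrix.cons_val_one, Matrix.cons_val_fin_one]
      generalize z 1 = v at hz ⊢
      generalize z 0 = u
      have e1 := inv_pow_mul_pow hz (m.1 + 3 - m.2.1)
      have e2 := inv_pow_mul_pow hz 3
      have e3 : v ^ m.1 * v ^ 3 = v ^ m.2.1 * v ^ (m.1 + 3 - m.2.1) := pow_eq_of (by omega)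
      rw [mul_pow]
      generalize m.1 + 3 - m.2.1 = k at *
      have hk : v ^ k * v ^ 3 ≠ 0 := mul_ne_zero (pow_ne_zero _ hz) (pow_ne_zero _ hz)
      refine mul_right_cancel₀ hk ?_
      linear_combination (u ^ m.1 * v ^ m.1 * v ^ 3) * e1 -
        (u ^ m.1 * v ^ m.2.1 * v ^ k) * e2 + u ^ m.1 * e3

theorem good2 {w : Cn 2} (h : w 0 * w 1 ≠ 0) : Good (fun z => ![(z 0 * z 1)⁻¹, z 0]) w where
  contDiff := contDiffAt_vec (((contDiffAt_coord 0 w).mul (contDiffAt_coord 1 w)).inv h)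
    (contDiffAt_coord 0 w)
  inv := by
    refine ⟨fun m => (6 - m.2.1, m.1 + 3 - m.2.1, m.2.2), ⟨by decide, fun _ _ => rfl, by decide⟩,
      fun z => (z 0)⁻¹ ^ 3 * (z 1)⁻¹ ^ 6, ?_,
      mul_ne_zero (pow_ne_zero _ (inv_ne_zero (left_ne_zero_of_mul h)))
        (pow_ne_zero _ (inv_ne_zero (right_ne_zero_of_mul h))), ?_⟩
    · exact ((((contDiffAt_coord 0 w).inv (left_ne_zero_of_mul h)).pow 3).mul
        (((contDiffAt_coord 1 w).inv (right_ne_zero_of_mul h)).pow 6)).differentiableAt (by simp)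
    · have hc : ∀ᶠ z : Cn 2 in 𝓝 w, z 0 * z 1 ≠ 0 :=
        ((continuous_apply 0).mul (continuous_apply 1)).continuousAt.eventually_ne h
      filter_upwards [hc] with z hz m hm
      obtain ⟨h1, h2, h3, h4⟩ := K_bd hm
      have hz0 := left_ne_zero_of_mul hz
      have hz1 := right_ne_zero_of_mul hz
      simp only [fs0, Matrix.cons_val_zero, Matrix.cons_val_one, Matrix.cons_val_fin_one]
      generalize z 1 = v at hz1 ⊢
      generalize z 0 = u at hz0 ⊢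
      have e1 := inv_pow_mul_pow hz0 (6 - m.2.1)
      have e2 := inv_pow_mul_pow hz1 (6 - m.2.1)
      have e3 := inv_pow_mul_pow hz0 3
      have e4 := inv_pow_mul_pow hz1 6
      have e5 : u ^ (m.1 + 3 - m.2.1) * u ^ 3 = u ^ m.1 * u ^ (6 - m.2.1) := pow_eq_of (by omega)
      have e6 : v ^ 6 * v ^ 0 = v ^ m.2.1 * v ^ (6 - m.2.1) := pow_eq_of (by omega)
      rw [mul_inv, mul_pow]
      generalize 6 - m.2.1 = k at *
      generalize m.1 + 3 - m.2.1 = l at *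
      have hk : (u ^ k * u ^ 3) * (v ^ k * v ^ 6) ≠ 0 :=
        mul_ne_zero (mul_ne_zero (pow_ne_zero _ hz0) (pow_ne_zero _ hz0))
          (mul_ne_zero (pow_ne_zero _ hz1) (pow_ne_zero _ hz1))
      refine mul_right_cancel₀ hk ?_
      have l1 : u⁻¹ ^ k * v⁻¹ ^ k * u ^ l * (u ^ k * u ^ 3 * (v ^ k * v ^ 6)) =
          (u⁻¹ ^ k * u ^ k) * (v⁻¹ ^ k * v ^ k) * ((u ^ l * u ^ 3) * (v ^ 6 * v ^ 0)) := by ring
      have l2 : u⁻¹ ^ 3 * v⁻¹ ^ 6 * (u ^ m.1 * v ^ m.2.1) * (u ^ k * u ^ 3 * (v ^ k * v ^ 6)) =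
          (u⁻¹ ^ 3 * u ^ 3) * (v⁻¹ ^ 6 * v ^ 6) * ((u ^ m.1 * u ^ k) * (v ^ m.2.1 * v ^ k)) := by
        ring
      rw [l1, l2, e1, e2, e3, e4, e5, e6]

theorem good3 {w : Cn 2} (h0 : w 0 ≠ 0) (h1 : w 1 ≠ 0) : Good (fun z => ![(z 0)⁻¹, (z 1)⁻¹]) w where
  contDiff := contDiffAt_vec ((contDiffAt_coord 0 w).inv h0) ((contDiffAt_coord 1 w).inv h1)
  inv := by
    refine ⟨fun m => (6 - m.1, 6 - m.2.1, m.2.2), ⟨by decide, fun _ _ => rfl, by decide⟩,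
      fun z => (z 0)⁻¹ ^ 6 * (z 1)⁻¹ ^ 6, ?_,
      mul_ne_zero (pow_ne_zero _ (inv_ne_zero h0)) (pow_ne_zero _ (inv_ne_zero h1)), ?_⟩
    · exact ((((contDiffAt_coord 0 w).inv h0).pow 6).mul
        (((contDiffAt_coord 1 w).inv h1).pow 6)).differentiableAt (by simp)
    · have hc0 : ∀ᶠ z : Cn 2 in 𝓝 w, z 0 ≠ 0 :=
        (continuous_apply 0).continuousAt.eventually_ne h0
      have hc1 : ∀ᶠ z : Cn 2 in 𝓝 w, z 1 ≠ 0 :=
        (continuous_apply 1).continuousAt.eventually_ne h1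
      filter_upwards [hc0, hc1] with z hz0 hz1 m hm
      obtain ⟨h1, h2, h3, h4⟩ := K_bd hm
      simp only [fs0, Matrix.cons_val_zero, Matrix.cons_val_one, Matrix.cons_val_fin_one]
      generalize z 1 = v at hz1 ⊢
      generalize z 0 = u at hz0 ⊢
      have e1 := inv_pow_mul_pow hz0 (6 - m.1)
      have e2 := inv_pow_mul_pow hz1 (6 - m.2.1)
      have e3 := inv_pow_mul_pow hz0 6
      have e4 := inv_pow_mul_pow hz1 6
      have e5 : u ^ 6 * u ^ 0 = u ^ m.1 * u ^ (6 - m.1) := pow_eq_of (by omega)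
      have e6 : v ^ 6 * v ^ 0 = v ^ m.2.1 * v ^ (6 - m.2.1) := pow_eq_of (by omega)
      generalize 6 - m.2.1 = k at *
      generalize 6 - m.1 = l at *
      have hk : (u ^ l * u ^ 6) * (v ^ k * v ^ 6) ≠ 0 :=
        mul_ne_zero (mul_ne_zero (pow_ne_zero _ hz0) (pow_ne_zero _ hz0))
          (mul_ne_zero (pow_ne_zero _ hz1) (pow_ne_zero _ hz1))
      refine mul_right_cancel₀ hk ?_
      have l1 : u⁻¹ ^ l * v⁻¹ ^ k * (u ^ l * u ^ 6 * (v ^ k * v ^ 6)) =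
          (u⁻¹ ^ l * u ^ l) * (v⁻¹ ^ k * v ^ k) * ((u ^ 6 * u ^ 0) * (v ^ 6 * v ^ 0)) := by ring
      have l2 : u⁻¹ ^ 6 * v⁻¹ ^ 6 * (u ^ m.1 * v ^ m.2.1) * (u ^ l * u ^ 6 * (v ^ k * v ^ 6)) =
          (u⁻¹ ^ 6 * u ^ 6) * (v⁻¹ ^ 6 * v ^ 6) * ((u ^ m.1 * u ^ l) * (v ^ m.2.1 * v ^ k)) := by
        ring
      rw [l1, l2, e1, e2, e3, e4, e5, e6]

theorem good4 {w : Cn 2} (h : w 0 * w 1 ≠ 0) : Good (fun z => ![z 1, (z 0 * z 1)⁻¹]) w where
  contDiff := contDiffAt_vec (contDiffAt_coord 1 w)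
    (((contDiffAt_coord 0 w).mul (contDiffAt_coord 1 w)).inv h)
  inv := by
    refine ⟨fun m => (m.2.1 + 3 - m.1, 6 - m.1, m.2.2), ⟨by decide, fun _ _ => rfl, by decide⟩,
      fun z => (z 0)⁻¹ ^ 6 * (z 1)⁻¹ ^ 3, ?_,
      mul_ne_zero (pow_ne_zero _ (inv_ne_zero (left_ne_zero_of_mul h)))
        (pow_ne_zero _ (inv_ne_zero (right_ne_zero_of_mul h))), ?_⟩
    · exact ((((contDiffAt_coord 0 w).inv (left_ne_zero_of_mul h)).pow 6).mul
        (((contDiffAt_coord 1 w).inv (right_ne_zero_of_mul h)).pow 3)).differentiableAt (by simp)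
    · have hc : ∀ᶠ z : Cn 2 in 𝓝 w, z 0 * z 1 ≠ 0 :=
        ((continuous_apply 0).mul (continuous_apply 1)).continuousAt.eventually_ne h
      filter_upwards [hc] with z hz m hm
      obtain ⟨h1, h2, h3, h4⟩ := K_bd hm
      have hz0 := left_ne_zero_of_mul hz
      have hz1 := right_ne_zero_of_mul hz
      simp only [fs0, Matrix.cons_val_zero, Matrix.cons_val_one, Matrix.cons_val_fin_one]
      generalize z 1 = v at hz1 ⊢
      generalize z 0 = u at hz0 ⊢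
      have e1 := inv_pow_mul_pow hz0 (6 - m.1)
      have e2 := inv_pow_mul_pow hz1 (6 - m.1)
      have e3 := inv_pow_mul_pow hz0 6
      have e4 := inv_pow_mul_pow hz1 3
      have e5 : u ^ 6 * u ^ 0 = u ^ m.1 * u ^ (6 - m.1) := pow_eq_of (by omega)
      have e6 : v ^ (m.2.1 + 3 - m.1) * v ^ 3 = v ^ m.2.1 * v ^ (6 - m.1) := pow_eq_of (by omega)
      rw [mul_inv, mul_pow]
      generalize 6 - m.1 = k at *
      generalize m.2.1 + 3 - m.1 = l at *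
      have hk : (u ^ k * u ^ 6) * (v ^ k * v ^ 3) ≠ 0 :=
        mul_ne_zero (mul_ne_zero (pow_ne_zero _ hz0) (pow_ne_zero _ hz0))
          (mul_ne_zero (pow_ne_zero _ hz1) (pow_ne_zero _ hz1))
      refine mul_right_cancel₀ hk ?_
      have l1 : v ^ l * (u⁻¹ ^ k * v⁻¹ ^ k) * (u ^ k * u ^ 6 * (v ^ k * v ^ 3)) =
          (u⁻¹ ^ k * u ^ k) * (v⁻¹ ^ k * v ^ k) * ((u ^ 6 * u ^ 0) * (v ^ l * v ^ 3)) := by ring
      have l2 : u⁻¹ ^ 6 * v⁻¹ ^ 3 * (u ^ m.1 * v ^ m.2.1) * (u ^ k * u ^ 6 * (v ^ k * v ^ 3)) =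
          (u⁻¹ ^ 6 * u ^ 6) * (v⁻¹ ^ 3 * v ^ 3) * ((u ^ m.1 * u ^ k) * (v ^ m.2.1 * v ^ k)) := by
        ring
      rw [l1, l2, e1, e2, e3, e4, e5, e6]

theorem good5 {w : Cn 2} (h : w 0 ≠ 0) : Good (fun z => ![z 0 * z 1, (z 0)⁻¹]) w where
  contDiff := contDiffAt_vec ((contDiffAt_coord 0 w).mul (contDiffAt_coord 1 w))
    ((contDiffAt_coord 0 w).inv h)
  inv := by
    refine ⟨fun m => (m.2.1, m.2.1 + 3 - m.1, m.2.2), ⟨by decide, fun _ _ => rfl, by decide⟩,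
      fun z => (z 0)⁻¹ ^ 3, ?_, pow_ne_zero _ (inv_ne_zero h), ?_⟩
    · exact (((contDiffAt_coord 0 w).inv h).pow 3).differentiableAt (by simp)
    · have hc : ∀ᶠ z : Cn 2 in 𝓝 w, z 0 ≠ 0 :=
        (continuous_apply 0).continuousAt.eventually_ne h
      filter_upwards [hc] with z hz m hm
      obtain ⟨h1, h2, h3, h4⟩ := K_bd hm
      simp only [fs0, Matrix.cons_val_zero, Matrix.cons_val_one, Matrix.cons_val_fin_one]
      generalize z 1 = v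
      generalize z 0 = u at hz ⊢
      have e1 := inv_pow_mul_pow hz (m.2.1 + 3 - m.1)
      have e2 := inv_pow_mul_pow hz 3
      have e3 : u ^ m.2.1 * u ^ 3 = u ^ m.1 * u ^ (m.2.1 + 3 - m.1) := pow_eq_of (by omega)
      rw [mul_pow]
      generalize m.2.1 + 3 - m.1 = k at *
      have hk : u ^ k * u ^ 3 ≠ 0 := mul_ne_zero (pow_ne_zero _ hz) (pow_ne_zero _ hz)
      refine mul_right_cancel₀ hk ?_
      linear_combination (u ^ m.2.1 * v ^ m.2.1 * u ^ 3) * e1 -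
        (u ^ m.1 * v ^ m.2.1 * u ^ k) * e2 + v ^ m.2.1 * e3

end Pool.Agent.Q44.HS
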