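import Mathlib
import Pool.Agent.W549.CYDefs

/-! Wirtinger derivatives in one variable. -/

set_option autoImplicit false

open scoped ComplexConjugate Topology ContDiff
open Pool.Agent.W549.CY (Cn dz dzbar)

namespace Pool.Agent.Q44.HS

theorem conj_eq (v : ℂ) : conj v = v.re - v.im * Complex.I := by
  apply Complex.ext <;> simp

/-- the real linear map `v ↦ a v + b v̄` -/
noncomputable def wl (a b : ℂ) : ℂ →L[ℝ] ℂ :=
  a • (ContinuousLinearMap.id ℝ ℂ) + b • (Complex.conjCLE : ℂ →L[ℝ] ℂ)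

@[simp] theorem wl_apply (a b v : ℂ) : wl a b v = a * v + b * conj v := by
  simp [wl]

/-- `F` is real differentiable at `t`, with Wirtinger derivatives `a` and `b`. -/
def HasW (F : ℂ → ℂ) (a b t : ℂ) : Prop := HasFDerivAt F (wl a b) t

/-- `∂F/∂τ` -/
noncomputable def dt (F : ℂ → ℂ) (t : ℂ) : ℂ :=
  (1 / 2) * (fderiv ℝ F t 1 - Complex.I * fderiv ℝ F t Complex.I)

/-- `∂F/∂τ̄` -/
noncomputable def db (F : ℂ → ℂ) (t : ℂ) : ℂ :=
  (1 / 2) * (fderiv ℝ F t 1 + Complex.I * fderiv ℝ F t Complex.I)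

theorem HasW.dt {F : ℂ → ℂ} {a b t : ℂ} (h : HasW F a b t) : HS.dt F t = a := by
  unfold HS.dt
  rw [h.fderiv, wl_apply, wl_apply, Complex.conj_I, map_one]
  linear_combination (-(a - b) / 2) * Complex.I_sq

theorem HasW.db {F : ℂ → ℂ} {a b t : ℂ} (h : HasW F a b t) : HS.db F t = b := by
  unfold HS.db
  rw [h.fderiv, wl_apply, wl_apply, Complex.conj_I, map_one]
  linear_combination ((a - b) / 2) * Complex.I_sq

theorem hasW_of_differentiableAt {F : ℂ → ℂ} {t : ℂ} (h : DifferentiableAt ℝ F t) :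
    HasW F (dt F t) (db F t) t := by
  unfold HasW
  have h1 : wl (dt F t) (db F t) = fderiv ℝ F t := by
    ext v
    have hv : v = v.re • (1 : ℂ) + v.im • Complex.I := by
      simp [Complex.re_add_im]
    rw [wl_apply]
    conv_rhs => rw [hv, map_add, map_smul, map_smul]
    unfold dt db
    have hc : conj v = v.re - v.im * Complex.I := conj_eq v
    rw [hc]
    conv_lhs => rw [← Complex.re_add_im v]
    simp only [Complex.real_smul, Complex.add_re, Complex.ofReal_re, Complex.mul_re, Complex.I_re,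
      mul_zero, Complex.ofReal_im, Complex.I_im, mul_one, sub_self, add_zero, Complex.add_im,
      Complex.mul_im, zero_add]
    linear_combination (-(v.im : ℂ) * fderiv ℝ F t Complex.I) * Complex.I_sq
  rw [h1]
  exact h.hasFDerivAt

theorem HasW.congr {F G : ℂ → ℂ} {a b t : ℂ} (h : HasW F a b t) (hG : G =ᶠ[𝓝 t] F) :
    HasW G a b t := HasFDerivAt.congr_of_eventuallyEq h hG

theorem HasW.of_eq {F : ℂ → ℂ} {a b a' b' t : ℂ} (h : HasW F a b t) (ha : a = a') (hb : b = b') :
    HasW F a' b' t := by rw [← ha, ← hb]; exact h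

theorem HasW.const (c t : ℂ) : HasW (fun _ => c) 0 0 t := by
  unfold HasW
  have : wl 0 0 = 0 := by ext v; simp
  rw [this]
  exact hasFDerivAt_const c t

theorem HasW.add {F G : ℂ → ℂ} {a b a' b' t : ℂ} (h : HasW F a b t) (h' : HasW G a' b' t) :
    HasW (fun s => F s + G s) (a + a') (b + b') t := by
  unfold HasW at *
  have : wl (a + a') (b + b') = wl a b + wl a' b' := by
    ext v; simp; ring
  rw [this]
  exact h.add h'

theorem HasW.sub {F G : ℂ → ℂ} {a b a' b' t : ℂ} (h : HasW F a b t) (h' : HasW G a' b' t) :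
    HasW (fun s => F s - G s) (a - a') (b - b') t := by
  unfold HasW at *
  have : wl (a - a') (b - b') = wl a b - wl a' b' := by
    ext v; simp; ring
  rw [this]
  exact h.sub h'

theorem HasW.mul {F G : ℂ → ℂ} {a b a' b' t : ℂ} (h : HasW F a b t) (h' : HasW G a' b' t) :
    HasW (fun s => F s * G s) (a * G t + F t * a') (b * G t + F t * b') t := by
  unfold HasW at *
  have h2 := HasFDerivAt.mul h h'
  refine h2.congr_fderiv ?_
  ext v
  simp
  ring

theorem HasW.const_mul {F : ℂ → ℂ} {a b t : ℂ} (c : ℂ) (h : HasW F a b t) :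
    HasW (fun s => c * F s) (c * a) (c * b) t := by
  have := (HasW.const c t).mul h
  refine this.of_eq ?_ ?_ <;> ring

theorem HasW.conj {F : ℂ → ℂ} {a b t : ℂ} (h : HasW F a b t) :
    HasW (fun s => conj (F s)) (conj b) (conj a) t := by
  unfold HasW at *
  have h2 := (Complex.conjCLE : ℂ →L[ℝ] ℂ).hasFDerivAt.comp t h
  refine HasFDerivAt.congr_fderiv h2 ?_
  ext v
  simp
  ring

theorem HasW.sum {ι : Type*} {s : Finset ι} {F : ι → ℂ → ℂ} {a b : ι → ℂ} {t : ℂ}
    (h : ∀ i ∈ s, HasW (F i) (a i) (b i) t) :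
    HasW (fun u => ∑ i ∈ s, F i u) (∑ i ∈ s, a i) (∑ i ∈ s, b i) t := by
  classical
  induction s using Finset.induction_on with
  | empty => simpa using HasW.const 0 t
  | insert i s hi ih =>
    simp only [Finset.sum_insert hi]
    exact (h i (Finset.mem_insert_self _ _)).add
      (ih fun j hj => h j (Finset.mem_insert_of_mem hj))

theorem HasW.inv {F : ℂ → ℂ} {a b t : ℂ} (h : HasW F a b t) (h0 : F t ≠ 0) :
    HasW (fun s => (F s)⁻¹) (-a / F t ^ 2) (-b / F t ^ 2) t := by
  unfold HasW at *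
  have h1 : HasFDerivAt (fun z : ℂ => z⁻¹) (wl (-(F t ^ 2)⁻¹) 0) (F t) := by
    have h2 := (hasDerivAt_inv h0).hasFDerivAt.restrictScalars ℝ
    refine h2.congr_fderiv ?_
    ext v
    simp
    ring
  refine (h1.comp t h).congr_fderiv ?_
  ext v
  simp
  ring

theorem HasW.div {F G : ℂ → ℂ} {a b a' b' t : ℂ} (h : HasW F a b t) (h' : HasW G a' b' t)
    (h0 : G t ≠ 0) :
    HasW (fun s => F s / G s) ((a * G t - F t * a') / G t ^ 2)
      ((b * G t - F t * b') / G t ^ 2) t := by
  have := h.mul (h'.inv h0)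
  simp only [← div_eq_mul_inv] at this
  refine this.of_eq ?_ ?_ <;> field_simp <;> ring

theorem hasW_of_hasDerivAt {F : ℂ → ℂ} {a t : ℂ} (h : HasDerivAt F a t) : HasW F a 0 t := by
  unfold HasW
  refine (h.hasFDerivAt.restrictScalars ℝ).congr_fderiv ?_
  ext v
  simp
  ring

theorem dt_congr {F G : ℂ → ℂ} {t : ℂ} (h : F =ᶠ[𝓝 t] G) : dt F t = dt G t := by
  unfold dt
  rw [h.fderiv_eq]

theorem db_congr {F G : ℂ → ℂ} {t : ℂ} (h : F =ᶠ[𝓝 t] G) : db F t = db G t := by
  unfold db
  rw [h.fderiv_eq]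

theorem eventually_db {F G : ℂ → ℂ} {t : ℂ} (h : F =ᶠ[𝓝 t] G) : db F =ᶠ[𝓝 t] db G := by
  filter_upwards [h.eventuallyEq_nhds] with s hs
  exact db_congr hs

theorem eventually_dt {F G : ℂ → ℂ} {t : ℂ} (h : F =ᶠ[𝓝 t] G) : dt F =ᶠ[𝓝 t] dt G := by
  filter_upwards [h.eventuallyEq_nhds] with s hs
  exact dt_congr hs

/-! ### several variables -/

theorem fderiv_eq_dz {n : ℕ} (u : Cn n → ℂ) (z v : Cn n) :
    fderiv ℝ u z v = ∑ j, (dz j u z * v j + dzbar j u z * conj (v j)) := by
  have hv : v = ∑ j, ((v j).re • (Pi.single j (1 : ℂ) : Cn n)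
      + (v j).im • (Pi.single j Complex.I : Cn n)) := by
    funext i
    simp only [Finset.sum_apply, Pi.add_apply, Pi.smul_apply, Pi.single_apply]
    rw [Finset.sum_eq_single i]
    · simp [Complex.re_add_im]
    · intro b _ hb
      simp [hb.symm]
    · simp
  conv_lhs => rw [hv]
  rw [map_sum]
  refine Finset.sum_congr rfl fun j _ => ?_
  rw [map_add, map_smul, map_smul]
  unfold dz dzbar
  have hc : conj (v j) = (v j).re - (v j).im * Complex.I := conj_eq (v j)
  rw [hc]
  conv_rhs => rw [← Complex.re_add_im (v j)]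
  simp only [Complex.real_smul, Complex.add_re, Complex.ofReal_re, Complex.mul_re, Complex.I_re,
    mul_zero, Complex.ofReal_im, Complex.I_im, mul_one, sub_self, add_zero, Complex.add_im,
    Complex.mul_im, zero_add]
  linear_combination ((v j).im * fderiv ℝ u z (Pi.single j Complex.I)) * Complex.I_sq

/-- chain rule along a holomorphic curve -/
theorem hasW_comp {n : ℕ} {u : Cn n → ℂ} {γ : ℂ → Cn n} {γ' : Cn n} {t : ℂ}
    (hu : DifferentiableAt ℝ u (γ t)) (hγ : HasDerivAt γ γ' t) :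
    HasW (fun s => u (γ s)) (∑ j, dz j u (γ t) * γ' j) (∑ j, dzbar j u (γ t) * conj (γ' j)) t := by
  unfold HasW
  have h1 := hu.hasFDerivAt.comp t (hγ.hasFDerivAt.restrictScalars ℝ)
  refine HasFDerivAt.congr_fderiv h1 ?_
  ext v
  simp only [ContinuousLinearMap.comp_apply, ContinuousLinearMap.coe_restrictScalars',
    ContinuousLinearMap.toSpanSingleton_apply, wl_apply]
  rw [fderiv_eq_dz, Finset.sum_mul, Finset.sum_mul, ← Finset.sum_add_distrib]
  refine Finset.sum_congr rfl fun j _ => ?_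
  simp only [Pi.smul_apply, smul_eq_mul, map_mul]
  ring

end Pool.Agent.Q44.HS
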